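import Pool.Agent.MP_30195a_an.Gr.SpecL

/-!
# Greedy bases: a family equivalent to the basis of `ℓ_p` is completed to a greedy basis
-/

set_option autoImplicit false

open MeasureTheory Finset
open scoped ENNReal

namespace Pool.Agent.MP_30195a_an.Gr

namespace AsmX

lemma le_of_rpow {P C a b : ℝ} (hP : 1 ≤ P) (hC : 1 ≤ C) (ha : 0 ≤ a) (hb : 0 ≤ b)
    (h : a ^ P ≤ C * b ^ P) : a ≤ C * b := by
  have h0 : 0 ≤ C := by linarith
  have h1 : C ≤ C ^ P := Real.self_le_rpow_of_one_le hC hP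
  have h2 : a ^ P ≤ (C * b) ^ P := by
    rw [Real.mul_rpow h0 hb]
    exact h.trans (mul_le_mul_of_nonneg_right h1 (Real.rpow_nonneg hb _))
  exact (Real.rpow_le_rpow_iff ha (mul_nonneg h0 hb) (by linarith)).1 h2

variable {p : ℝ≥0∞} [Fact (1 ≤ p)]

lemma proj (E : Emb p) {x z : Lp ℝ p unitMeas} (hx : x ∈ Submodule.span ℝ (Set.range E.χ))
    (hz : z ∈ Submodule.span ℝ (Set.range E.h)) : ‖x‖ ≤ ‖x + z‖ ∧ ‖z‖ ≤ 2 * ‖x + z‖ := by
  have h1 : ‖x‖ ≤ ‖x + z‖ := by
    by_cases h0 : x = 0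
    · rw [h0, norm_zero]; exact norm_nonneg _
    obtain ⟨c, hc⟩ := Finsupp.mem_span_range_iff_exists_finsupp.1 hx
    obtain ⟨F, hF1, hF2⟩ := exists_dual_vector ℝ x (norm_ne_zero_iff.2 h0)
    have hF : IsNorming F x := ⟨hF1, by simpa using hF2⟩
    have hs : ∑ j ∈ c.support, c j • E.χ j = x := hc
    have hk := (E.norming c.support c F (hs ▸ h0) (hs ▸ hF)).2
    have hz0 : F z = 0 := by
      induction hz using Submodule.span_induction with
      | mem w hw => obtain ⟨i, rfl⟩ := hw; exact hk i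
      | zero => exact map_zero F
      | add u w _ _ hu hw => rw [map_add, hu, hw, add_zero]
      | smul a u _ hu => rw [map_smul, hu, smul_zero]
    have := hF.le_norm_add z
    rwa [hz0, add_zero] at this
  refine ⟨h1, ?_⟩
  have h2 : ‖z‖ ≤ ‖x + z‖ + ‖x‖ := by
    have := norm_sub_le (x + z) x
    rwa [add_sub_cancel_left] at this
  linarith

end AsmX

open AsmX in
theorem asmStmt {p : ℝ≥0∞} [Fact (1 ≤ p)] (hp1 : 1 < p) (hp : p ≠ ∞) : AsmStmt p := by
  classical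
  intro E κ eκ v D hv hvχ hχv hD
  have hP : 1 < p.toReal := one_lt_toReal hp1 hp
  set P := p.toReal with hPdef
  obtain ⟨M, hM1, hMD, hME⟩ : ∃ M : ℝ, 1 ≤ M ∧ D ≤ M ∧ E.D ≤ M :=
    ⟨max 1 (max D E.D), le_max_left _ _, (le_max_left _ _).trans (le_max_right _ _),
      (le_max_right _ _).trans (le_max_right _ _)⟩
  have hM0 : 0 ≤ M := by linarith
  have hlow : ∀ (S : Finset κ) (a : κ → ℝ),
      ∑ k ∈ S, |a k| ^ P ≤ M * ‖∑ k ∈ S, a k • v k‖ ^ P := fun S a =>
    (hD S a).1.trans (mul_le_mul_of_nonneg_right hMD (Real.rpow_nonneg (norm_nonneg _) _))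
  have hup : ∀ (S : Finset κ) (a : κ → ℝ),
      ‖∑ k ∈ S, a k • v k‖ ^ P ≤ M * ∑ k ∈ S, |a k| ^ P := fun S a =>
    (hD S a).2.trans (mul_le_mul_of_nonneg_right hMD
      (sum_nonneg fun k _ => Real.rpow_nonneg (abs_nonneg _) _))
  have hmv : MultBound v (M * M) := by
    intro S a θ hθ
    refine le_of_rpow hP.le (by nlinarith) (norm_nonneg _) (norm_nonneg _) ?_
    refine (hup S fun k => θ k * a k).trans ?_
    rw [mul_assoc]
    refine mul_le_mul_of_nonneg_left (le_trans (sum_le_sum fun k _ => ?_) (hlow S a)) hM0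
    refine Real.rpow_le_rpow (abs_nonneg _) ?_ (by linarith)
    rw [abs_mul]
    exact mul_le_of_le_one_left (abs_nonneg _) (hθ k)
  have hxv : ∀ (S : Finset κ) (a : κ → ℝ),
      ∑ k ∈ S, a k • v k ∈ Submodule.span ℝ (Set.range E.χ) := fun S a =>
    Submodule.sum_mem _ fun k _ => Submodule.smul_mem _ _ (hvχ k)
  have hzh : ∀ (S : Finset E.ι) (a : E.ι → ℝ),
      ∑ i ∈ S, a i • E.h i ∈ Submodule.span ℝ (Set.range E.h) := fun S a =>
    Submodule.sum_mem _ fun i _ => Submodule.smul_mem _ _ (Submodule.subset_span ⟨i, rfl⟩)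
  have hsplit : ∀ (S : Finset (κ ⊕ E.ι)) (a : κ ⊕ E.ι → ℝ),
      ∑ i ∈ S, a i • Sum.elim v E.h i
        = ∑ k ∈ S.toLeft, a (Sum.inl k) • v k + ∑ i ∈ S.toRight, a (Sum.inr i) • E.h i :=
    fun S a => Finset.sum_sum_eq_sum_toLeft_add_sum_toRight S _
  have hmult : MultBound (Sum.elim v E.h) (M * M + 2 * |E.K|) := by
    intro S a θ hθ
    rw [hsplit S fun i => θ i * a i, hsplit S a]
    obtain ⟨h1, h2⟩ := proj E (hxv S.toLeft fun k => a (Sum.inl k))
      (hzh S.toRight fun i => a (Sum.inr i))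
    have h3 := hmv S.toLeft (fun k => a (Sum.inl k)) (fun k => θ (Sum.inl k)) fun k => hθ _
    have h4 := E.mult S.toRight (fun i => a (Sum.inr i)) (fun i => θ (Sum.inr i)) fun i => hθ _
    have h5 := mul_le_mul_of_nonneg_left h1 (mul_nonneg hM0 hM0)
    have h6 := mul_le_mul_of_nonneg_left h2 (abs_nonneg E.K)
    have h7 := mul_le_mul_of_nonneg_right (le_abs_self E.K)
      (norm_nonneg (∑ i ∈ S.toRight, a (Sum.inr i) • E.h i))
    refine (norm_add_le _ _).trans ?_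
    linarith
  have hn : ∀ i, ‖Sum.elim v E.h i‖ = 1 := by
    rintro (k | i)
    · exact hv k
    · exact E.norm_h i
  have hd : Dense (Submodule.span ℝ (Set.range (Sum.elim v E.h)) : Set (Lp ℝ p unitMeas)) := by
    refine E.dense.mono (SetLike.coe_subset_coe.2 (Submodule.span_le.2 ?_))
    rintro w (⟨j, rfl⟩ | ⟨i, rfl⟩)
    · refine Submodule.span_mono ?_ (hχv j)
      rintro u ⟨k, rfl⟩
      exact ⟨Sum.inl k, rfl⟩
    · exact Submodule.subset_span ⟨Sum.inr i, rfl⟩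
  have : Countable κ := eκ.countable_iff.2 inferInstance
  have : Infinite κ := eκ.infinite_iff.2 inferInstance
  obtain ⟨e⟩ : Nonempty (ℕ ≃ κ ⊕ E.ι) := nonempty_equiv_of_countable
  obtain ⟨Ψ, hΨ, hU⟩ := exists_basis e hn hmult hd
  have h2P : (1 : ℝ) ≤ 2 ^ P := Real.one_le_rpow (by norm_num) (by linarith)
  have hdem : ∀ S : Finset (κ ⊕ E.ι),
      ‖∑ i ∈ S, Sum.elim v E.h i‖ ^ P ≤ 2 ^ P * M * S.card ∧
        (S.card : ℝ) ≤ M * (1 + 2 ^ P) * ‖∑ i ∈ S, Sum.elim v E.h i‖ ^ P := by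
    intro S
    have h0 := hsplit S fun _ => 1
    obtain ⟨h1, h2⟩ := proj E (hxv S.toLeft fun _ => 1) (hzh S.toRight fun _ => 1)
    have h3 := hlow S.toLeft fun _ => 1
    have h4 := hup S.toLeft fun _ => 1
    obtain ⟨h5, h6⟩ := E.dem S.toRight
    simp only [one_smul, abs_one, Real.one_rpow, sum_const, nsmul_eq_mul, mul_one]
      at h0 h1 h2 h3 h4
    rw [h0]
    rw [← hPdef] at h5 h6
    set x := ∑ k ∈ S.toLeft, v k
    set z := ∑ i ∈ S.toRight, E.h i
    have hc : (S.card : ℝ) = S.toLeft.card + S.toRight.card := by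
      rw [← Finset.card_toLeft_add_card_toRight]; push_cast; rfl
    have h7 : ‖z‖ ^ P ≤ M * S.toRight.card :=
      h6.trans (mul_le_mul_of_nonneg_right hME (Nat.cast_nonneg _))
    have h8 : (S.toRight.card : ℝ) ≤ M * ‖z‖ ^ P :=
      h5.trans (mul_le_mul_of_nonneg_right hME (Real.rpow_nonneg (norm_nonneg _) _))
    constructor
    · calc ‖x + z‖ ^ P ≤ (‖x‖ + ‖z‖) ^ P :=
            Real.rpow_le_rpow (norm_nonneg _) (norm_add_le _ _) (by linarith)
        _ ≤ 2 ^ P * (‖x‖ ^ P + ‖z‖ ^ P) :=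
            add_rpow_le (by linarith) (norm_nonneg _) (norm_nonneg _)
        _ ≤ 2 ^ P * (M * S.toLeft.card + M * S.toRight.card) :=
            mul_le_mul_of_nonneg_left (add_le_add h4 h7) (by linarith)
        _ = _ := by rw [hc]; ring
    · have h9 : ‖x‖ ^ P ≤ ‖x + z‖ ^ P := Real.rpow_le_rpow (norm_nonneg _) h1 (by linarith)
      have h10 : ‖z‖ ^ P ≤ 2 ^ P * ‖x + z‖ ^ P := by
        rw [← Real.mul_rpow (by norm_num) (norm_nonneg _)]
        exact Real.rpow_le_rpow (norm_nonneg _) h2 (by linarith)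
      calc (S.card : ℝ) ≤ M * ‖x‖ ^ P + M * ‖z‖ ^ P := by rw [hc]; exact add_le_add h3 h8
        _ ≤ M * ‖x + z‖ ^ P + M * (2 ^ P * ‖x + z‖ ^ P) :=
            add_le_add (mul_le_mul_of_nonneg_left h9 hM0) (mul_le_mul_of_nonneg_left h10 hM0)
        _ = _ := by ring
  refine ⟨Ψ, fun k => by rw [hΨ k]; exact hn _, hU, ⟨2 ^ P * M * (M * (1 + 2 ^ P)), ?_⟩, ?_,
    _, hmult⟩
  · intro A B hAB
    have hs : ∀ A : Finset ℕ, ∑ k ∈ A, Ψ k = ∑ i ∈ A.map e.toEmbedding, Sum.elim v E.h i :=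
      fun A => by rw [sum_map]; exact sum_congr rfl fun k _ => hΨ k
    have hA := (hdem (A.map e.toEmbedding)).1
    have hB := (hdem (B.map e.toEmbedding)).2
    rw [card_map] at hA hB
    have hc : 1 ≤ 2 ^ P * M := one_le_mul_of_one_le_of_one_le h2P hM1
    rw [hs A, hs B]
    refine le_of_rpow hP.le (one_le_mul_of_one_le_of_one_le hc
      (one_le_mul_of_one_le_of_one_le hM1 (by linarith))) (norm_nonneg _) (norm_nonneg _) ?_
    rw [hAB] at hA
    rw [mul_assoc (2 ^ P * M)]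
    exact hA.trans (mul_le_mul_of_nonneg_left hB (by linarith))
  · have : (Ψ : ℕ → Lp ℝ p unitMeas) = Sum.elim v E.h ∘ e := funext hΨ
    rw [this, e.surjective.range_comp]

end Pool.Agent.MP_30195a_an.Gr
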