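import Pool.Agent.MP_30195a_an.Gr.Root

/-!
# Greedy bases: states on a tree are chain states
-/

set_option autoImplicit false

open Finset

namespace Pool.Agent.MP_30195a_an.Gr

lemma CS.suffix {p K : ℝ} {σ : St} {v w : Word} (h : CS p K σ w) (hv : v <:+ w) : CS p K σ v := by
  induction w with
  | nil => rw [List.suffix_nil.1 hv]; exact h
  | cons i w ih =>
    rcases List.suffix_cons_iff.1 hv with rfl | h'
    · exact h
    · exact ih h.1 h'

namespace CSysX

variable (S S' : Sys) (p : ℝ) (φ : Yt S S' → ℝ)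

lemma A_eq {v : Word} (hv : S.Node v) :
    (stOf S S' p φ v).A = S.lev kap (lv0 S S' φ) (fun x => φ (Sum.inl x)) v :=
  S.av_op kap _ _ hv

lemma Z_eq {v : Word} (hv : S.Node v) :
    (stOf S S' p φ v).Z = S.lev (-kap) (lv0 S S' fun y => gp p (rootF S S' kap φ y))
      (fun x => gp p (rootF S S' kap φ (Sum.inl x))) v :=
  S.av_op (-kap) _ _ hv

lemma flat_of_const {v : Word} (hv : S.Node v) {c : ℝ}
    (hc : ∀ x, v <:+ S.ad x → rootF S S' kap φ (Sum.inl x) = c) : (stOf S S' p φ v).Flat p := by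
  have hA : (stOf S S' p φ v).A = c := S.av_eq_of_const hv hc
  refine ⟨?_, ?_⟩
  · rw [hA]
    exact S.av_eq_of_const hv fun x hx => by rw [hc x hx]
  · rw [hA]
    exact S.av_eq_of_const hv fun x hx => by rw [hc x hx]

lemma future {v : Word} (hv : S.Node v) (h : ∀ x, v <:+ S.ad x → φ (Sum.inl x) = 1) :
    (stOf S S' p φ v).Flat p ∧ (stOf S S' p φ v).z = 1 :=
  ⟨flat_of_const S S' p φ hv fun _ hx => S.op_const kap (lv0 S S' φ) h hx,
    S.av_eq_of_const hv h⟩

lemma past {p : ℝ} (hp : 1 < p) {v : Word} (hv : S.Node v)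
    (h : ∀ x, v <:+ S.ad x → frcD S S' p φ (Sum.inl x) = 0) :
    (stOf S S' p φ v).Flat p ∧ (stOf S S' p φ v).Z = 0 := by
  refine ⟨?_, S.av_eq_of_const hv h⟩
  obtain ⟨y, hy⟩ := S.exists_under hv
  have hk : (-kap) ^ 2 = 1 / 3 := by rw [neg_sq, kap_sq]
  have e := S.op_inv hk (lv0 S S' fun y => gp p (rootF S S' kap φ y))
    fun x => gp p (rootF S S' kap φ (Sum.inl x))
  have key : ∀ x, v <:+ S.ad x → gp p (rootF S S' kap φ (Sum.inl x))
      = S.lev (- -kap) (S.av [] fun x => gp p (rootF S S' kap φ (Sum.inl x)))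
        (fun x => frcD S S' p φ (Sum.inl x)) v := fun x hx =>
    (congrFun e x).symm.trans (S.op_const (- -kap) _ h hx)
  exact flat_of_const S S' p φ hv (c := rootF S S' kap φ (Sum.inl y)) fun x hx =>
    (gp_strictMono hp).injective ((key x hx).trans (key y hy).symm)

lemma nd {p : ℝ} (hp : 1 < p) {Λ : S.X → Prop} (h1 : ∀ x, ¬ Λ x → φ (Sum.inl x) = 1)
    (h2 : ∀ x, Λ x → frcD S S' p φ (Sum.inl x) = 0) {v : Word} (hv : S.Node v) :
    (stOf S S' p φ v).Nd p := by
  refine ⟨S.hull p hv fun x => rootF S S' kap φ (Sum.inl x), ?_⟩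
  have h := S.pairing kap (lv0 S S' φ) (lv0 S S' fun y => gp p (rootF S S' kap φ y))
    (fun x => φ (Sum.inl x)) (fun x => gp p (rootF S S' kap φ (Sum.inl x))) hv
  have e1 : S.av v (fun x => gp p (rootF S S' kap φ (Sum.inl x))
      * S.op kap (lv0 S S' φ) (fun x => φ (Sum.inl x)) x) = (stOf S S' p φ v).I :=
    S.av_congr fun x _ => gp_mul_self hp _
  have e2 : S.av v (fun x => S.op (-kap) (lv0 S S' fun y => gp p (rootF S S' kap φ y))
      (fun x => gp p (rootF S S' kap φ (Sum.inl x))) x * φ (Sum.inl x)) = (stOf S S' p φ v).Z := by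
    refine S.av_congr fun x _ => ?_
    change frcD S S' p φ (Sum.inl x) * φ (Sum.inl x) = frcD S S' p φ (Sum.inl x)
    by_cases hx : Λ x
    · rw [h2 x hx, zero_mul]
    · rw [h1 x hx, mul_one]
  rw [e1, e2, ← A_eq S S' p φ hv, ← Z_eq S S' p φ hv] at h
  have e3 : (stOf S S' p φ v).B = S.av v fun x => gp p (rootF S S' kap φ (Sum.inl x)) := rfl
  have e4 : (stOf S S' p φ v).z = S.av v fun x => φ (Sum.inl x) := rfl
  rw [← e3, ← e4] at h
  linarith

lemma loc {w : Word} (hw : S.int w) : Loc (stOf S S' p φ) w where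
  hA i := by
    rw [A_eq S S' p φ (v := i :: w) hw, A_eq S S' p φ (S.node_of_int hw)]; rfl
  hZ i := by
    rw [Z_eq S S' p φ (v := i :: w) hw, Z_eq S S' p φ (S.node_of_int hw), Sys.lev]
    simp only [stOf]; ring
  hz := S.av_split hw _
  hB := S.av_split hw _
  hI := S.av_split hw _

lemma root {K : ℝ} (h : ∀ y, φ (Sum.inr y) = dat S S' K (Sum.inr y)) :
    (stOf S S' p φ []).A = K ∧ (stOf S S' p φ []).Z
      = (gp p (K + (stOf S S' p φ []).z) - gp p (K - (stOf S S' p φ []).z)) / 2 := by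
  have c : ∀ (b : Bool) (x : S'.X), ([] : Word) <:+ S'.ad x →
      φ (Sum.inr (b, x)) = if b then 2 * K else 0 := fun b x _ => h (b, x)
  have a1 : ap S S' true φ = 2 * K := S'.av_eq_of_const (v := []) trivial (c true)
  have a2 : ap S S' false φ = 0 := S'.av_eq_of_const (v := []) trivial (c false)
  have f : ∀ (b : Bool) (x : S'.X), rootF S S' kap φ (Sum.inr (b, x)) = lvP S S' b φ :=
    fun b x => S'.op_const (v := []) kap (lvP S S' b φ) (c b) List.nil_suffix
  have g : ∀ b : Bool, ap S S' b (fun y => gp p (rootF S S' kap φ y)) = gp p (lvP S S' b φ) :=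
    fun b => S'.av_eq_of_const (v := []) trivial fun x _ => congrArg (gp p) (f b x)
  have e4 : (stOf S S' p φ []).z = S.av [] fun x => φ (Sum.inl x) := rfl
  have l1 : lvP S S' true φ = K + (stOf S S' p φ []).z := by
    rw [lvP, a1, a2, e4]; simp
  have l2 : lvP S S' false φ = K - (stOf S S' p φ []).z := by
    rw [lvP, a1, a2, e4]; simp; ring
  refine ⟨?_, ?_⟩
  · rw [A_eq S S' p φ (v := []) trivial, Sys.lev, lv0, a1, a2]; ring
  · rw [Z_eq S S' p φ (v := []) trivial, Sys.lev, lv0, g, g, l1, l2]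

end CSysX

theorem csStmt {p : ℝ} (hp : 1 < p) : CsStmt p := by
  intro S S' K Λ φ w h0 h1 h2 hw
  induction w with
  | nil =>
    exact ⟨(CSysX.root S S' p φ h0).1, (CSysX.root S S' p φ h0).2,
      CSysX.nd S S' φ hp h1 h2 (v := []) trivial⟩
  | cons i w ih =>
    obtain ⟨hd, hi, hj⟩ := hw
    exact ⟨ih hd, CSysX.loc S S' p φ hi, CSysX.nd S S' φ hp h1 h2 (v := i :: w) hi, fun j =>
      ⟨fun hlt => CSysX.past S S' φ hp (v := j :: w) hi fun x hx => h2 x ((hj j x hx).1 hlt),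
        fun hlt => CSysX.future S S' p φ (v := j :: w) hi fun x hx => h1 x ((hj j x hx).2 hlt)⟩⟩

theorem endStates {p D : ℝ} (hp : 1 < p) (hD : 0 ≤ D) (h : LPB p D) : EndStates p := by
  classical
  intro K w
  obtain ⟨S, hS, -⟩ := exists_sys w.length (fun v => v.length < w.length) (fun _ h => h)
    (fun i v h => by simp only [List.length_cons] at h; omega) (fun _ => 1) (fun _ => one_pos)
  have hw : S.Node w := by
    rcases w with _ | ⟨i, c⟩
    · trivial
    · change S.int c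
      rw [hS]; simp
  have hn : ¬ S.int w := by rw [hS]; exact lt_irrefl _
  obtain ⟨y, hy⟩ := S.exists_under hw
  have ey : S.ad y = w := S.ad_eq hn hy
  obtain ⟨φ, hφ1, hφ2⟩ := WB.exists_state hp (rootWB S S hp hD h) (dat S S K)
    ((univ.filter fun x : S.X => key (S.ad x) ≤ key w).map ⟨Sum.inl, Sum.inl_injective⟩)
  have h0 : ∀ y, φ (Sum.inr y) = dat S S K (Sum.inr y) := fun y => hφ1 _ fun hm => by
    obtain ⟨x, -, hx⟩ := mem_map.1 hm
    exact Sum.inl_ne_inr hx
  have h1 : ∀ x, ¬ key (S.ad x) ≤ key w → φ (Sum.inl x) = 1 := fun x hx => hφ1 _ fun hm => by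
    obtain ⟨x', hx', e⟩ := mem_map.1 hm
    have e' : x' = x := Sum.inl_injective e
    exact hx (e' ▸ (mem_filter.1 hx').2)
  have h2 : ∀ x, key (S.ad x) ≤ key w → frcD S S p φ (Sum.inl x) = 0 := fun x hx =>
    hφ2 _ (mem_map.2 ⟨x, mem_filter.2 ⟨mem_univ _, hx⟩, rfl⟩)
  have hd : S.During (fun x => key (S.ad x) ≤ key w) w :=
    S.during_of_key (y := y) (fun x hx => by rw [ey] at hx; exact hx.le)
      (fun x hx => by rw [ey] at hx; exact not_le.2 hx) hy
  exact ⟨stOf S S p φ, csStmt hp S S K _ φ w h0 h1 h2 hd,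
    CSysX.past S S φ hp hw fun x hx => h2 x (by rw [S.ad_eq hn hx])⟩

end Pool.Agent.MP_30195a_an.Gr
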