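import Pool.Agent.MP_30195a_an.Gr.Energy

/-!
# Greedy bases: linearization along the chain
-/

set_option autoImplicit false

namespace Pool.Agent.MP_30195a_an.Gr

variable {p K : ℝ} {σ τ : St} {w : Word}

lemma abs_kap_le {t s : ℝ} (h : |t| ≤ s) : |kap * t| ≤ 0.58 * s := by
  rw [abs_mul, abs_of_pos kap_pos]
  exact mul_le_mul kap_le h (abs_nonneg _) (by norm_num)

lemma abs_kap_sub {t t' s s' : ℝ} (h : |t| ≤ s) (h' : |t'| ≤ s') :
    |kap * (t - t')| ≤ 0.58 * (s + s') :=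
  abs_kap_le ((abs_sub _ _).trans (add_le_add h h'))

lemma tau_ind {o x : ℝ} (hx : 0 ≤ x) {c : Word} (h : CS p K σ c) (h' : CS p K τ c)
    (hs : Sib (fun v a b => |gp p a - gp p b - o * (a - b)| ≤ x * (10 / 7) ^ v.length) K σ τ c)
    (hd : |(σ c).B - (τ c).B - o * ((σ c).A - (τ c).A)| ≤ 2 * (x * (10 / 7) ^ c.length)) :
    |(σ c).Z - (τ c).Z - o * ((σ c).z - (τ c).z)| ≤ 4 * (x * (10 / 7) ^ c.length) ∧
      |o * ((σ c).A - (τ c).A)| ≤ 20 * (x * (10 / 7) ^ c.length) := by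
  induction c with
  | nil =>
    obtain ⟨a1, a2⟩ := abs_le.1 hs.1
    obtain ⟨b1, b2⟩ := abs_le.1 hs.2
    simp only [List.length_nil, pow_zero, mul_one] at *
    rw [h.1, h'.1, h.2.1, h'.2.1, sub_self, mul_zero, abs_zero]
    exact ⟨abs_le.2 ⟨by linarith, by linarith⟩, by linarith⟩
  | cons i c ih =>
    set y := x * (10 / 7) ^ (i :: c).length with hy
    have ey : x * (10 / 7) ^ c.length = 0.7 * y := by
      rw [hy, List.length_cons, pow_succ]; ring
    have hy0 : 0 ≤ y := by positivity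
    let d : Fin 3 → ℝ := fun j =>
      (σ (j :: c)).B - (τ (j :: c)).B - o * ((σ (j :: c)).A - (τ (j :: c)).A)
    have hj : ∀ j, j ≠ i → |d j| ≤ y := fun j hj => by
      simp only [d, (h.flat hj).1, (h'.flat hj).1]
      exact hs.2 j hj
    have d0 : |d i| ≤ 2 * y := hd
    have d1 := hj _ (ne_succ i).1
    have d2 := hj _ (ne_succ i).2
    have e1 : (σ c).B - (τ c).B - o * ((σ c).A - (τ c).A) = (d i + d (i + 1) + d (i + 2)) / 3 := by
      rw [← sum3 d i, h.2.1.hB, h'.2.1.hB, h.2.1.avgA, h'.2.1.avgA]; simp only [d]; ring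
    obtain ⟨t1, t2⟩ := ih h.1 h'.1 hs.1 (by
      rw [e1, ey]
      obtain ⟨a1, a2⟩ := abs_le.1 d0
      obtain ⟨a3, a4⟩ := abs_le.1 d1
      obtain ⟨a5, a6⟩ := abs_le.1 d2
      exact abs_le.2 ⟨by linarith, by linarith⟩)
    rw [ey] at t1 t2
    have e2 : ∀ j, (σ (j :: c)).Z - (τ (j :: c)).Z - o * ((σ (j :: c)).z - (τ (j :: c)).z)
        = (σ c).Z - (τ c).Z - o * ((σ c).z - (τ c).z) - kap * (d (j + 1) - d (j + 2)) := by
      intro j
      rw [h.2.1.hZ, h'.2.1.hZ, h.2.1.zrel, h'.2.1.zrel]; simp only [d]; ring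
    have e3 : ∀ j, j ≠ i → |kap * (d (j + 1) - d (j + 2))| ≤ 0.58 * (3 * y) →
        |o * ((σ (j :: c)).z - (τ (j :: c)).z)| ≤ 4.54 * y := by
      intro j hj hk
      rcases h.sib h' hj with ⟨a, b⟩ | a
      · have := e2 j
        rw [a, b] at this
        obtain ⟨a1, a2⟩ := abs_le.1 hk
        obtain ⟨a3, a4⟩ := abs_le.1 t1
        exact abs_le.2 ⟨by linarith, by linarith⟩
      · rw [a, sub_self, mul_zero, abs_zero]; linarith
    obtain ⟨s1, s2, s3, s4⟩ := succ_succ i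
    have z1 := e3 _ (ne_succ i).1 (by
      rw [s1, s2]; exact (abs_kap_sub d2 d0).trans (by linarith))
    have z2 := e3 _ (ne_succ i).2 (by
      rw [s3, s4]; exact (abs_kap_sub d0 d1).trans (by linarith))
    constructor
    · rw [e2]
      exact (abs_sub _ _).trans (by linarith [abs_kap_sub d1 d2])
    · have e4 : o * ((σ (i :: c)).A - (τ (i :: c)).A) = o * ((σ c).A - (τ c).A)
          + kap * (o * ((σ ((i + 1) :: c)).z - (τ ((i + 1) :: c)).z)
            - o * ((σ ((i + 2) :: c)).z - (τ ((i + 2) :: c)).z)) := by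
        rw [h.2.1.hA, h'.2.1.hA]; ring
      rw [e4]
      exact (abs_add_le _ _).trans (by linarith [abs_kap_sub z1 z2])

lemma hull_lin {C A : ℝ} (hp : 2 ≤ p) (hC : 0 ≤ C) (h1 : PW1 p C) (hA : 0 < A) {F : Fld}
    (h : Hull p F.I F.A F.B) : |F.B - gp p A - om p A * (F.A - A)| ≤ 2 * C / A * bf p F A := by
  have key : ∀ x, |gp p x - gp p A - om p A * (x - A)| ≤ 2 * C / A * breg p x A := fun x => by
    refine (h1 x A A 1 hA hA le_rfl (by simp)).trans ?_
    rw [sub_self, abs_zero, add_zero, ← sq, sq_abs, one_pow, mul_one, div_mul_eq_mul_div]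
    exact div_le_div_of_nonneg_right (by nlinarith [uu_sub_sq_le hp x A]) hA.le
  set k := 2 * C / A
  have a1 := h k (om p A - k * (p * gp p A)) (-1)
    (gp p A - om p A * A - k * (|A| ^ p - p * gp p A * A)) fun x => by
      have := (abs_le.1 (key x)).2
      unfold breg at this
      linarith
  have a2 := h k (-om p A - k * (p * gp p A)) 1
    (-gp p A + om p A * A - k * (|A| ^ p - p * gp p A * A)) fun x => by
      have := (abs_le.1 (key x)).1
      unfold breg at this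
      linarith
  unfold bf
  exact abs_le.2 ⟨by linarith, by linarith⟩

lemma pw2_use {C ρ a b : ℝ} (hp : 2 ≤ p) (hC : 0 ≤ C) (h2 : PW2 p C) (hb : 0 < uu p b)
    (hρ : 4 * ρ ≤ 1) (h : |uu p a - uu p b| ≤ ρ * uu p b) :
    |breg p a b - p / 2 * pair p a b| ≤ 2 * C * ρ * breg p a b := by
  refine (h2 a b ((uu_pos_iff (by linarith)).1 hb) (by nlinarith)).trans ?_
  have h3 := uu_sub_sq_le hp a b
  have h4 : 0 ≤ ρ * uu p b := (abs_nonneg _).trans h
  rw [div_le_iff₀ hb, pow_succ, sq_abs]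
  have := mul_le_mul h3 h (abs_nonneg _) ((sq_nonneg _).trans h3)
  nlinarith

lemma num1 (h : ℕ) : ((h : ℝ) + 2) * 0.58 ^ h ≤ 2 := by
  induction h with
  | zero => norm_num
  | succ h ih =>
    have : (0 : ℝ) ≤ 0.58 ^ h := by positivity
    have h0 : (0 : ℝ) ≤ h := Nat.cast_nonneg h
    push_cast
    rw [pow_succ]
    nlinarith

lemma num2 (h : ℕ) : ((h : ℝ) + 2) ^ 3 * 0.58 ^ h ≤ 4913 * 0.7 ^ h := by
  have h0 : (0 : ℝ) ≤ h := Nat.cast_nonneg h
  have a : (1 + 0.06 * (h : ℝ)) * 0.94 ^ h ≤ 1 := by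
    induction h with
    | zero => norm_num
    | succ h ih =>
      have : (0 : ℝ) ≤ 0.94 ^ h := by positivity
      have h0 : (0 : ℝ) ≤ h := Nat.cast_nonneg h
      have := ih h0
      push_cast
      rw [pow_succ]
      nlinarith
  have b : ((h : ℝ) + 2) * 0.94 ^ h ≤ 17 := by
    have : (0 : ℝ) ≤ 0.94 ^ h := by positivity
    nlinarith
  have c := pow_le_pow_left₀ (by positivity) b 3
  have d : (0.58 : ℝ) ^ h ≤ (0.94 ^ h) ^ 3 * 0.7 ^ h := by
    rw [← pow_mul, mul_comm h 3, pow_mul, ← mul_pow]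
    exact pow_le_pow_left₀ (by norm_num) (by norm_num) h
  calc _ ≤ ((h : ℝ) + 2) ^ 3 * ((0.94 ^ h) ^ 3 * 0.7 ^ h) := by gcongr
    _ = (((h : ℝ) + 2) * 0.94 ^ h) ^ 3 * 0.7 ^ h := by ring
    _ ≤ _ := by gcongr; linarith

namespace Frame

variable (R : Frame p K)

/-- The conditions on the proper ancestors of a node. -/
def Anc (ε a : ℝ) : Word → Prop
  | [] => True
  | _ :: c => Anc ε a c ∧ R.e c ≤ 3 / 2 * ε ^ 2 ∧ a * ε ≤ R.U c

/-- The error scale at a node. -/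
noncomputable def eta (C ε : ℝ) (w : Word) : ℝ := C * ε ^ 2 / R.A w

/-- The standing assumptions on the constants. -/
structure Base (C₁ C ε a : ℝ) : Prop where
  hp : 2 < p
  c1 : 1 ≤ C₁
  pw1 : PW1 p C₁
  pw2 : PW2 p C
  hC : 120000 * C₁ ≤ C
  pos : 0 < ε
  sq : R.e [] = ε ^ 2
  ha : 43 ≤ a
  root : a * ε ≤ R.U []

variable {R} {C₁ C ε a : ℝ} (H : R.Base C₁ C ε a)
include H

lemma Base.e_le (h : R.Anc ε a w) : R.e w ≤ 5 * ε ^ 2 := by
  cases w with
  | nil => rw [H.sq]; nlinarith [sq_nonneg ε]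
  | cons i w => linarith [R.e_cons_le (by linarith [H.hp]) i w, h.2.1, sq_nonneg ε]

lemma Base.child_u {i j : Fin 3} (h : R.Anc ε a (i :: w)) (hσ : CS p K σ (i :: w))
    (hj : (σ (j :: w)).Flat p) : |uu p (σ (j :: w)).A - R.U w| ≤ 3 * ε :=
  abs_le_of_sq_le_sq (by linarith [R.flat_child H.hp.le hσ hj, h.2.1]) (by linarith [H.pos])

lemma Base.ustep {i : Fin 3} (h : R.Anc ε a (i :: w)) : |R.U (i :: w) - R.U w| ≤ 3 * ε :=
  H.child_u h (R.hen _).1 (R.hen _).2.1

lemma Base.U_ge (h : R.Anc ε a w) : (a - 3) * ε ≤ R.U w := by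
  cases w with
  | nil => linarith [H.root, H.pos]
  | cons i w => linarith [(abs_le.1 (H.ustep h)).1, h.2.2]

lemma Base.U_pos (h : R.Anc ε a w) : 0 < R.U w :=
  (mul_pos (by linarith [H.ha]) H.pos).trans_le (H.U_ge h)

lemma Base.A_pos (h : R.Anc ε a w) : 0 < R.A w :=
  (uu_pos_iff (by linarith [H.hp])).1 (H.U_pos h)

lemma Base.passive (h : CS p K τ []) :
    |uu p (K + (τ []).z) - R.U []| ≤ 2 * ε ∧ |uu p (K - (τ []).z) - R.U []| ≤ 2 * ε := by
  have hp : 1 < p := by linarith [H.hp]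
  obtain ⟨h1, h2⟩ := sib_of_outer hp (R.outer_le_e hp h)
  simp only [ms_nil, one_mul, R.nil_z hp, add_zero, sub_zero, H.sq] at h1 h2
  rw [U, R.A_nil]
  exact ⟨abs_le_of_sq_le_sq (by linarith [uu_sub_sq_le H.hp.le (K + (τ []).z) K])
    (by linarith [H.pos]), abs_le_of_sq_le_sq (by linarith [uu_sub_sq_le H.hp.le (K - (τ []).z) K])
    (by linarith [H.pos])⟩

lemma Base.sib_level {u n : ℝ} {c : Word} (h : R.Anc ε a c) (hτ : CS p K τ c)
    (hu : |R.U c - u| ≤ 3 * ε * (n - c.length)) :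
    Sib (fun v _ b => |uu p b - u| ≤ 3 * ε * (n - v.length + 2) ∧ 40 * ε ≤ uu p b) K σ τ c := by
  have h0 := H.pos
  have h1 := mul_le_mul_of_nonneg_right H.ha h0.le
  induction c with
  | nil =>
    obtain ⟨a1, a2⟩ := H.passive hτ
    have := H.root
    rw [abs_le] at a1 a2 hu
    exact ⟨⟨abs_le.2 ⟨by linarith, by linarith⟩, by linarith⟩,
      abs_le.2 ⟨by linarith, by linarith⟩, by linarith⟩
  | cons i c ih =>
    have a1 := abs_le.1 (H.ustep h)
    rw [abs_le, List.length_cons] at hu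
    push_cast at hu
    refine ⟨ih h.1 hτ.1 (abs_le.2 ⟨by linarith, by linarith⟩), fun j hj => ?_⟩
    have a2 := abs_le.1 (H.child_u h hτ (hτ.flat hj))
    have := h.2.2
    simp only [List.length_cons]
    push_cast
    exact ⟨abs_le.2 ⟨by linarith, by linarith⟩, by linarith⟩

lemma Base.sib_main (h : R.Anc ε a w) (hσ : CS p K σ w) :
    Sib (fun v x b => ∃ k : ℕ, w.length = v.length + k ∧ |uu p x - uu p b| ≤ 4.5 * ε * 0.58 ^ k ∧
      |uu p b - R.U w| ≤ 3 * ε * (k + 2) ∧ 0 < uu p b ∧ R.U w ≤ (k + 2) * uu p b)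
      K σ (R.en w) w := by
  have hp : 1 < p := by linarith [H.hp]
  have h0 := H.pos
  refine ((sib_of_outer hp (R.outer_le_e hp hσ)).and (H.sib_level (u := R.U w) (n := w.length) h
    (R.hen w).1 (by simp))).imp ?_
  rintro v x b hv ⟨h1, h2, h3⟩
  obtain ⟨k, hk⟩ := Nat.exists_eq_add_of_le hv
  have hk0 : (0 : ℝ) ≤ k := Nat.cast_nonneg k
  have e1 : (w.length : ℝ) - v.length = k := by rw [hk]; push_cast; ring
  have e2 : ms w = ms v * 3⁻¹ ^ k := by rw [ms, ms, hk, pow_add]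
  rw [e1] at h2
  refine ⟨k, hk, abs_le_of_sq_le_sq ?_ (by positivity), h2, by linarith, ?_⟩
  · have a1 : breg p x b ≤ 2 * (3⁻¹ ^ k * R.e w) :=
      le_of_mul_le_mul_left (by rw [e2] at h1; linarith) (ms_pos v)
    have a2 : (3 : ℝ)⁻¹ ^ k ≤ (0.58 ^ k) ^ 2 := by
      rw [← pow_mul, mul_comm, pow_mul]
      exact pow_le_pow_left₀ (by norm_num) (by norm_num) k
    have a3 := mul_le_mul a2 (H.e_le h) (R.e_nonneg hp w) (by positivity)
    have a4 : 0 ≤ (0.58 ^ k) ^ 2 * ε ^ 2 := by positivity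
    linarith [uu_sub_sq_le H.hp.le x b]
  · nlinarith [(abs_le.1 h2).1]

lemma Base.tau (h : R.Anc ε a w) (hσ : CS p K σ w) :
    |(σ w).Z - om p (R.A w) * ((σ w).z - 1 + R.J w)| ≤ 4 * R.eta C ε w ∧
      |om p (R.A w) * ((σ w).A - R.A w)| ≤ 20 * R.eta C ε w := by
  have hp : 1 < p := by linarith [H.hp]
  have h0 := H.pos
  have hA := H.A_pos h
  have c1 := H.c1
  have hC := H.hC
  have hη : 0 ≤ R.eta C ε w := div_nonneg (mul_nonneg (by linarith) (sq_nonneg _)) hA.le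
  have e : ∀ k n : ℕ, (0.7 : ℝ) ^ (n + k) * (10 / 7) ^ n = 0.7 ^ k := fun k n => by
    rw [pow_add, mul_right_comm, ← mul_pow]; norm_num
  have e0 : R.eta C ε w * 0.7 ^ w.length * (10 / 7) ^ w.length = R.eta C ε w := by
    have := e 0 w.length
    rw [add_zero, pow_zero] at this
    rw [mul_assoc, this, mul_one]
  have key := tau_ind (o := om p (R.A w)) (x := R.eta C ε w * 0.7 ^ w.length) (by positivity) hσ
    (R.hen w).1 ((H.sib_main h hσ).imp ?_) ?_
  · rw [e0, (R.hen w).2.2] at key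
    refine ⟨?_, key.2⟩
    convert key.1 using 2
    simp only [J]; ring
  · rintro v x b - ⟨k, hk, h1, h2, h3, h4⟩
    have hk0 : (0 : ℝ) ≤ k := Nat.cast_nonneg k
    refine (H.pw1 x b (R.A w) (k + 2) ((uu_pos_iff (by linarith)).1 h3) hA (by linarith) h4).trans ?_
    rw [hk, mul_assoc (R.eta C ε w), e, eta, div_mul_eq_mul_div]
    refine div_le_div_of_nonneg_right ?_ hA.le
    have a1 : (0.58 : ℝ) ^ k ≤ 1 := pow_le_one₀ (by norm_num) (by norm_num)
    have a2 : |uu p x - uu p b| + |uu p b - uu p (R.A w)| ≤ 5.25 * ε * (k + 2) := by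
      change |uu p b - uu p (R.A w)| ≤ _ at h2
      nlinarith
    have a3 := mul_le_mul h1 a2 (by positivity) (by positivity)
    have a4 := num2 k
    calc _ ≤ C₁ * ((k : ℝ) + 2) ^ 2 * (4.5 * ε * 0.58 ^ k * (5.25 * ε * (k + 2))) := by gcongr
      _ = 23.625 * C₁ * ε ^ 2 * (((k : ℝ) + 2) ^ 3 * 0.58 ^ k) := by ring
      _ ≤ 23.625 * C₁ * ε ^ 2 * (4913 * 0.7 ^ k) := by gcongr
      _ = 23.625 * 4913 * C₁ * ε ^ 2 * 0.7 ^ k := by ring
      _ ≤ _ := by gcongr; linarith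
  · rw [e0, (R.hen w).2.1.1]
    refine (hull_lin H.hp.le (by linarith) H.pw1 hA hσ.nd.1).trans ?_
    have a1 := (R.bf_le hp hσ).trans (H.e_le h)
    rw [eta, div_mul_eq_mul_div, ← mul_div_assoc]
    refine div_le_div_of_nonneg_right ?_ hA.le
    nlinarith [sq_nonneg ε]

lemma Base.child {i : Fin 3} (h : R.Anc ε a (i :: w)) (hσ : CS p K σ (i :: w)) (j : Fin 3) :
    |(σ (j :: w)).Z - om p (R.A w) * ((σ (j :: w)).z - 1 + R.J w)| ≤ 6 * R.eta C ε w := by
  have hp : 1 < p := by linarith [H.hp]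
  have hA := H.A_pos h.1
  have c1 := H.c1
  have hC := H.hC
  have d : ∀ j, |(σ (j :: w)).B - gp p (R.A w) - om p (R.A w) * ((σ (j :: w)).A - R.A w)|
      ≤ R.eta C ε w := fun j => by
    refine (hull_lin H.hp.le (by linarith) H.pw1 hA (hσ.hull j)).trans ?_
    have a1 := R.child_le hp hσ j
    rw [eta, div_mul_eq_mul_div]
    refine div_le_div_of_nonneg_right ?_ hA.le
    nlinarith [sq_nonneg ε, h.2.1]
  have a1 := abs_le.1 (abs_kap_sub (d (j + 1)) (d (j + 2)))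
  have a2 := abs_le.1 (H.tau h.1 hσ.1).1
  have a3 := (abs_nonneg _).trans (d j)
  rw [hσ.2.1.hZ, hσ.2.1.zrel]
  exact abs_le.2 ⟨by linarith, by linarith⟩

lemma Base.second (h : R.Anc ε a w) :
    |R.e w - p / 2 * ((R.st w w).Z * R.J w)| ≤ 20 * C * (ε / R.U w) * R.e w := by
  have hp : 1 < p := by linarith [H.hp]
  have h0 := H.pos
  have hU := H.U_pos h
  have hC : 0 ≤ C := by linarith [H.c1, H.hC]
  have hρ : 4 * (10 * (ε / R.U w)) ≤ 1 := by
    have := H.U_ge h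
    have := mul_le_mul_of_nonneg_right H.ha h0.le
    rw [← mul_assoc, ← mul_div_assoc, div_le_one hU]; linarith
  set k := 2 * C * (10 * (ε / R.U w)) with hk
  have hs : Sib (fun _ x b => |breg p x b - p / 2 * pair p x b| ≤ k * breg p x b) K (R.st w)
      (R.en w) w := (H.sib_main h (R.hst w).1).imp (by
    rintro v x b - ⟨n, -, h1, -, h3, h4⟩
    refine pw2_use H.hp.le hC H.pw2 h3 hρ (h1.trans ?_)
    rw [← mul_div_assoc, div_mul_eq_mul_div, le_div_iff₀ hU]
    have a1 := mul_le_mul_of_nonneg_left h4 (by positivity : 0 ≤ 4.5 * ε * 0.58 ^ n)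
    have a2 := mul_le_mul_of_nonneg_left (num1 n) (mul_pos h0 h3).le
    nlinarith [mul_pos h0 h3])
  have o1 := outer_le (φ := fun x b => 1 * breg p x b + -(p / 2) * pair p x b)
    (ψ := fun x b => k * breg p x b + 0 * pair p x b)
    (hs.imp fun _ x b _ h => by linarith [(abs_le.1 h).2])
  have o2 := outer_le (φ := fun x b => -k * breg p x b + 0 * pair p x b)
    (ψ := fun x b => 1 * breg p x b + -(p / 2) * pair p x b)
    (hs.imp fun _ x b _ h => by linarith [(abs_le.1 h).1])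
  simp only [outer_lin] at o1 o2
  obtain ⟨e1, e2⟩ := egy_eq (R.hst w).1 (R.hen w).1
  have b1 := R.bf_le hp (R.hst w).1
  rw [(R.hst w).2.1.bf_eq] at b1
  have n := abs_le.1 (pw2_use (a := (R.st w w).A) H.hp.le hC H.pw2 hU hρ (by
    change _ ≤ 10 * (ε / R.U w) * R.U w
    rw [mul_assoc, div_mul_cancel₀ _ hU.ne']
    exact abs_le_of_sq_le_sq (by
      linarith [uu_sub_sq_le H.hp.le (R.st w w).A (R.A w), H.e_le h, sq_nonneg ε]) (by linarith)))
  rw [br_end (R.hen w).2.1 (R.hen w).2.2, (R.hst w).2.1.bf_eq] at e1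
  have e3 : pr (R.st w w) (R.en w w) = pair p (R.st w w).A (R.A w) - (R.st w w).Z * R.J w := by
    rw [pr, pair, (R.hst w).2.1.1, (R.hen w).2.1.1, (R.hen w).2.2, (R.hst w).2.2, J, A]; ring
  have e4 : egy p K (R.st w) - egy p K (R.en w) = ms w * R.e w := by
    rw [e, mul_div_cancel₀ _ (ms_pos w).ne']
  rw [e3] at e2
  rw [e4] at e1
  change _ = _ + ms w * breg p (R.st w w).A (R.A w) at e1
  have m := ms_pos w
  have n1 := mul_le_mul_of_nonneg_left n.1 m.le
  have n2 := mul_le_mul_of_nonneg_left n.2 m.le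
  have e5 : 20 * C * (ε / R.U w) = k := by rw [hk]; ring
  have e6 : k * (ms w * R.e w) = k * outer (breg p) K (R.st w) (R.en w) w
      + k * (ms w * breg p (R.st w w).A (R.A w)) := by rw [e1]; ring
  have e7 := congrArg (fun t => p / 2 * t) e2
  rw [e5, abs_le]
  constructor <;> refine le_of_mul_le_mul_left ?_ m <;> linarith

end Frame

end Pool.Agent.MP_30195a_an.Gr
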