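import Mathlib
import Pool.Agent.MP_30195a_an.LowerAbs

/-!
# Greedy bases: definitions for the discrete model of the lower bound
-/

set_option autoImplicit false

open Finset

namespace Pool.Agent.MP_30195a_an.Gr

/-- The signed power of exponent `p / 2`. -/
noncomputable def uu (p x : ℝ) : ℝ := gp (p / 2 + 1) x

/-- The derivative of `gp p` at a positive point. -/
noncomputable def om (p a : ℝ) : ℝ := (p - 1) * a ^ (p - 2)

/-- The Bregman distance of `|x| ^ p`. -/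
noncomputable def breg (p a b : ℝ) : ℝ := |a| ^ p - |b| ^ p - p * gp p b * (a - b)

/-- Nodes of the ternary tree; the head of the list is the last digit. -/
abbrev Word : Type := List (Fin 3)

/-- The mass of a node. -/
noncomputable def ms (w : Word) : ℝ := (3 : ℝ)⁻¹ ^ w.length

/-- The rotation coefficient. -/
noncomputable def kap : ℝ := (√3)⁻¹

/-- The left endpoint of the triadic interval of a node. -/
noncomputable def key : Word → ℝ
  | [] => 0
  | i :: w => key w + (i : ℕ) * ms (i :: w)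

/-- A finite ternary tree whose leaves are cut into weighted cells. -/
structure Sys where
  X : Type
  [fin : Fintype X]
  [dec : DecidableEq X]
  μ : X → ℝ
  ad : X → Word
  int : Word → Prop
  depth : ℕ
  μ_pos : ∀ x, 0 < μ x
  int_lt : ∀ v, int v → v.length < depth
  int_tail : ∀ i v, int (i :: v) → int v
  not_int : ∀ x, ¬ int (ad x)
  int_of : ∀ x i v, i :: v <:+ ad x → int v
  mass_nil : ∑ x, μ x = 1
  mass_cons : ∀ i v, int v → ∑ x with i :: v <:+ ad x, μ x = ms (i :: v)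

attribute [instance] Sys.fin Sys.dec

namespace Sys

variable (S : Sys)

/-- The nodes of the tree: the root and the children of internal nodes. -/
def Node : Word → Prop
  | [] => True
  | _ :: c => S.int c

/-- The mean over the cells under a node. -/
noncomputable def av (v : Word) (ψ : S.X → ℝ) : ℝ :=
  (∑ x with v <:+ S.ad x, S.μ x * ψ x) / ms v

/-- The level at a node. -/
noncomputable def lev (κ a : ℝ) (ψ : S.X → ℝ) : Word → ℝ
  | [] => a
  | i :: w => lev κ a ψ w + κ * (S.av ((i + 1) :: w) ψ - S.av ((i + 2) :: w) ψ)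

/-- The operator on the tree, with level `a` at the root. -/
noncomputable def op (κ a : ℝ) (ψ : S.X → ℝ) (x : S.X) : ℝ :=
  S.lev κ a ψ (S.ad x) + ψ x - S.av (S.ad x) ψ

/-- All cells before the node `w` are chosen and no cell after it is chosen. -/
def During (Λ : S.X → Prop) : Word → Prop
  | [] => True
  | i :: w => During Λ w ∧ S.int w ∧
      ∀ j x, j :: w <:+ S.ad x → (j < i → Λ x) ∧ (i < j → ¬ Λ x)

end Sys

/-- The five fields at a node. -/
structure Fld where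
  z : ℝ
  A : ℝ
  Z : ℝ
  B : ℝ
  I : ℝ

/-- A state: fields at all nodes. -/
abbrev St : Type := Word → Fld

/-- `(I, A, B)` satisfies every affine inequality valid for `(|x| ^ p, x, gp p x)`. -/
def Hull (p I A B : ℝ) : Prop :=
  ∀ α β γ δ : ℝ, (∀ x : ℝ, 0 ≤ α * |x| ^ p + β * x + γ * gp p x + δ) →
    0 ≤ α * I + β * A + γ * B + δ

/-- The conditions at a node of the chain. -/
def Fld.Nd (p : ℝ) (F : Fld) : Prop :=
  Hull p F.I F.A F.B ∧ F.I = F.B * F.A + F.Z * (1 - F.z)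

/-- The residual is constant under the node. -/
def Fld.Flat (p : ℝ) (F : Fld) : Prop := F.B = gp p F.A ∧ F.I = |F.A| ^ p

/-- The linear relations between a node and its children. -/
structure Loc (σ : St) (w : Word) : Prop where
  hA : ∀ i : Fin 3, (σ (i :: w)).A = (σ w).A + kap * ((σ ((i + 1) :: w)).z - (σ ((i + 2) :: w)).z)
  hZ : ∀ i : Fin 3, (σ (i :: w)).Z = (σ w).Z - kap * ((σ ((i + 1) :: w)).B - (σ ((i + 2) :: w)).B)
  hz : (σ w).z = ((σ (0 :: w)).z + (σ (1 :: w)).z + (σ (2 :: w)).z) / 3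
  hB : (σ w).B = ((σ (0 :: w)).B + (σ (1 :: w)).B + (σ (2 :: w)).B) / 3
  hI : (σ w).I = ((σ (0 :: w)).I + (σ (1 :: w)).I + (σ (2 :: w)).I) / 3

/-- Chain states: states of the algorithm while it works under the node. -/
def CS (p K : ℝ) (σ : St) : Word → Prop
  | [] => (σ []).A = K ∧ (σ []).Z = (gp p (K + (σ []).z) - gp p (K - (σ []).z)) / 2 ∧ (σ []).Nd p
  | i :: w => CS p K σ w ∧ Loc σ w ∧ (σ (i :: w)).Nd p ∧
      ∀ j : Fin 3, (j < i → (σ (j :: w)).Flat p ∧ (σ (j :: w)).Z = 0) ∧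
        (i < j → (σ (j :: w)).Flat p ∧ (σ (j :: w)).z = 1)

/-- The energy of a state. -/
noncomputable def egy (p K : ℝ) (σ : St) : ℝ :=
  (|K + (σ []).z| ^ p + |K - (σ []).z| ^ p) / 2 + (σ []).I

/-- All proper ancestors are good. -/
def Fair (Good : Word → Prop) : Word → Prop
  | [] => True
  | _ :: w => Fair Good w ∧ Good w

/-- The force profile. -/
noncomputable def prof (p : ℝ) (w : Word) : ℝ := (1 + (w.length : ℝ)) ^ (1 - 2 / p)

/-- The output of the analysis of chain states. -/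
structure Core (p K c C : ℝ) (Good : Word → Prop) (Ψ : Word → ℝ) : Prop where
  c_pos : 0 < c
  root : Ψ [] ≤ 1 / 2
  nonneg : ∀ w, Fair Good w → 0 ≤ Ψ w
  bad : ∀ w, Fair Good w → ¬ Good w → 1 ≤ Ψ w
  super : ∀ w, Fair Good w → Good w → (Ψ (0 :: w) + Ψ (1 :: w) + Ψ (2 :: w)) / 3 ≤ Ψ w
  fresh : ∀ σ w, Fair Good w → CS p K σ w → (σ w).z = 1 →
    c * prof p w ≤ (σ w).Z ∧ (σ w).Z ≤ C * prof p w
  leaf : ∀ σ w, Fair Good w → CS p K σ w → ∀ s a b : ℝ, 0 ≤ s → s ≤ 1 →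
    (σ w).A = s * b + (1 - s) * a → (σ w).I = s * |b| ^ p + (1 - s) * |a| ^ p →
    (σ w).Z = s * (gp p b - gp p a) → 1 - (σ w).z = (1 - s) * (b - a) →
    c * prof p w ≤ gp p b - gp p a ∧ gp p b - gp p a ≤ C * prof p w
  future : ∀ σ (i j : Fin 3) w, Fair Good (i :: w) → CS p K σ (i :: w) → i < j →
    |(σ (j :: w)).Z| ≤ C * prof p w
  pass : ∀ σ, CS p K σ [] →
    |gp p (K + (σ []).z)| ≤ C ∧ |gp p (K - (σ []).z)| ≤ C ∧ |(σ []).B| ≤ C
  energy : (|K + 1| ^ p + |K - 1| ^ p) / 2 + |K| ^ p ≤ C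

/-- A weighted block: an operator with its inverse, which is also its adjoint. -/
structure WB (p D : ℝ) where
  Y : Type
  [fin : Fintype Y]
  [dec : DecidableEq Y]
  [ne : Nonempty Y]
  μ : Y → ℝ
  T : (Y → ℝ) →ₗ[ℝ] (Y → ℝ)
  T' : (Y → ℝ) →ₗ[ℝ] (Y → ℝ)
  μ_pos : ∀ y, 0 < μ y
  inv : ∀ ψ, T' (T ψ) = ψ
  adj : ∀ ψ ψ', ∑ y, μ y * (ψ' y * T ψ y) = ∑ y, μ y * (T' ψ' y * ψ y)
  bd : ∀ ψ, ∑ y, μ y * |T ψ y| ^ p ≤ D * ∑ y, μ y * |ψ y| ^ p
  bd' : ∀ ψ, ∑ y, μ y * |T' ψ y| ^ p ≤ D * ∑ y, μ y * |ψ y| ^ p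

attribute [instance] WB.fin WB.dec WB.ne

namespace WB

variable {p D : ℝ} (B : WB p D)

/-- The energy. -/
noncomputable def en (φ : B.Y → ℝ) : ℝ := ∑ y, B.μ y * |B.T φ y| ^ p

/-- The force density. -/
noncomputable def phi (φ : B.Y → ℝ) : B.Y → ℝ := B.T' fun y => gp p (B.T φ y)

/-- The force on a cell. -/
noncomputable def frc (φ : B.Y → ℝ) (c : B.Y) : ℝ := B.μ c ^ (1 - 1 / p) * |B.phi φ c|

/-- The residual coefficients after the cells of `Λ` have been chosen. -/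
def IsState (φ₀ : B.Y → ℝ) (Λ : Finset B.Y) (φ : B.Y → ℝ) : Prop :=
  (∀ c, c ∉ Λ → φ c = φ₀ c) ∧ ∀ c ∈ Λ, B.phi φ c = 0

/-- During `N` steps one can choose cells whose force is about `lam`, and no force is larger. -/
def Level (t lam : ℝ) (N : ℕ) (E : ℝ) : Prop :=
  ∃ (φ₀ : B.Y → ℝ) (P : Finset B.Y → Prop), P ∅ ∧ B.en φ₀ ≤ E ∧
    ∀ Λ φ, P Λ → Λ.card < N → B.IsState φ₀ Λ φ →
      ∃ c, c ∉ Λ ∧ P (insert c Λ) ∧ t * lam ≤ B.frc φ c ∧ ∀ c', t * B.frc φ c' ≤ lam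

/-- A slow run: `m` cells reduce the energy to `E`, but it stays at least `R` for `N` steps. -/
def Slow (t : ℝ) (N m : ℕ) (E R : ℝ) : Prop :=
  ∃ (φ₀ : B.Y → ℝ) (P : Finset B.Y → Prop) (G : Finset B.Y), P ∅ ∧ G.card ≤ m ∧
    B.en (fun c => if c ∈ G then 0 else φ₀ c) ≤ E ∧
    (∀ Λ φ, P Λ → B.IsState φ₀ Λ φ → R ≤ B.en φ) ∧
    ∀ Λ φ, P Λ → Λ.card < N → B.IsState φ₀ Λ φ →
      ∃ c, c ∉ Λ ∧ P (insert c Λ) ∧ ∀ c', t * B.frc φ c' ≤ B.frc φ c

end WB

end Pool.Agent.MP_30195a_an.Gr
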