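import Pool.Agent.MP_30195a_an.Gr.SpecL

/-!
# Disjoint normalized indicators, completed by martingale differences inside the cells
-/

set_option autoImplicit false

open MeasureTheory Finset Filter Topology
open scoped ENNReal

namespace Pool.Agent.MP_30195a_an.Gr

namespace EmbPX

/-- The word made of ones. -/
def one (n : ℕ) : Fin n → Fin 2 := fun _ => 1

/-- The word made of ones followed by a zero. -/
def cel (j : ℕ) : Fin (j + 1) → Fin 2 := fun i => if (i : ℕ) = j then 0 else 1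

/-- The normalizing factor at depth `n`. -/
noncomputable def wt (P : ℝ) (n : ℕ) : ℝ := (2 : ℝ) ^ ((n : ℝ) / P)

/-- All words. -/
abbrev Wo : Type := Σ n : ℕ, (Fin n → Fin 2)

/-- Words with a zero. -/
abbrev Io : Type := {i : Wo // i.2 ≠ one i.1}

/-- Indicator of a cylinder as a continuous map. -/
noncomputable def cC (n : ℕ) (s : Fin n → Fin 2) : C(Om, ℝ) := ⟨cyl n s, continuous_cyl n s⟩

/-- The martingale difference of a cylinder. -/
noncomputable def dC (n : ℕ) (s : Fin n → Fin 2) : C(Om, ℝ) :=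
  ⟨fun ω => sg n ω * cyl n s ω, (continuous_sg n).mul (continuous_cyl n s)⟩

/-- Normalized indicator of the cell `j`. -/
noncomputable def xC (P : ℝ) (j : ℕ) : C(Om, ℝ) := wt P (j + 1) • cC (j + 1) (cel j)

/-- Normalized martingale difference. -/
noncomputable def hC (P : ℝ) (i : Io) : C(Om, ℝ) := wt P i.1.1 • dC i.1.1 i.1.2

lemma xC_apply (P : ℝ) (j : ℕ) (ω : Om) : xC P j ω = wt P (j + 1) * cyl (j + 1) (cel j) ω := rfl

lemma hC_apply (P : ℝ) (i : Io) (ω : Om) :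
    hC P i ω = wt P i.1.1 * (sg i.1.1 ω * cyl i.1.1 i.1.2 ω) := rfl

lemma wt_pos (P : ℝ) (n : ℕ) : 0 < wt P n := Real.rpow_pos_of_pos two_pos _

lemma wt_rpow {P : ℝ} (hP : 0 < P) (n : ℕ) : wt P n ^ P = 2 ^ n := by
  rw [wt, ← Real.rpow_mul two_pos.le, div_mul_cancel₀ _ hP.ne', Real.rpow_natCast]

lemma res_one (n : ℕ) (ω : Om) : res n ω = one n ↔ ∀ i < n, ω i = 1 :=
  ⟨fun h i hi => congr_fun h ⟨i, hi⟩, fun h => funext fun i => h i i.2⟩

lemma res_cel (j : ℕ) (ω : Om) : res (j + 1) ω = cel j ↔ ω j = 0 ∧ ∀ i < j, ω i = 1 := by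
  constructor
  · intro h
    refine ⟨?_, fun i hi => ?_⟩
    · simpa [res, cel] using congr_fun h ⟨j, j.lt_succ_self⟩
    · simpa [res, cel, hi.ne] using congr_fun h ⟨i, by omega⟩
  · rintro ⟨h0, h1⟩
    funext i
    by_cases hi : (i : ℕ) = j
    · simp only [res, cel, hi, if_true, h0]
    · simp only [res, cel, hi, if_false]
      exact h1 i (by have := i.2; omega)

lemma cyl_split (n : ℕ) (ω : Om) :
    cyl n (one n) ω = cyl (n + 1) (cel n) ω + cyl (n + 1) (one (n + 1)) ω ∧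
    sg n ω * cyl n (one n) ω = cyl (n + 1) (cel n) ω - cyl (n + 1) (one (n + 1)) ω := by
  have h01 : ∀ a : Fin 2, a = 0 ∨ a = 1 := by decide
  simp only [cyl, sg, res_one, res_cel, Nat.forall_lt_succ_right]
  by_cases h : ∀ i < n, ω i = 1
  · rcases h01 (ω n) with e | e <;> simp [e, eq_true h]
  · simp [eq_false h]

lemma cel_disj {j k : ℕ} (h : j ≠ k) (ω : Om) :
    cyl (j + 1) (cel j) ω = 0 ∨ cyl (k + 1) (cel k) ω = 0 := by
  by_contra hc
  simp only [cyl, res_cel, ite_eq_right_iff, one_ne_zero, imp_false, not_or, not_not] at hc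
  rcases lt_or_gt_of_ne h with hl | hl
  · exact absurd (hc.1.1.symm.trans (hc.2.2 j hl)) (by decide)
  · exact absurd (hc.2.1.symm.trans (hc.1.2 k hl)) (by decide)

lemma cyl_01 (n : ℕ) (s : Fin n → Fin 2) (ω : Om) : cyl n s ω = 0 ∨ cyl n s ω = 1 := by
  unfold cyl; split_ifs <;> simp

lemma abs_mul_cyl {P : ℝ} (hP : 0 < P) (a : ℝ) (n : ℕ) (s : Fin n → Fin 2) (ω : Om) :
    |a * cyl n s ω| ^ P = |a| ^ P * cyl n s ω := by
  rcases cyl_01 n s ω with h | h <;> simp [h, Real.zero_rpow hP.ne']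

lemma int_cyl (n : ℕ) (s : Fin n → Fin 2) (a : ℝ) : ∫ ω, a * 2 ^ n * cyl n s ω ∂mu = a := by
  rw [integral_const_mul, integral_cyl, mul_assoc, ← mul_pow]
  norm_num

lemma io_disj {i i' : Io} (h : i ≠ i') (hn : i.1.1 = i'.1.1) (ω : Om) :
    cyl i.1.1 i.1.2 ω = 0 ∨ cyl i'.1.1 i'.1.2 ω = 0 := by
  obtain ⟨⟨n, s⟩, hs⟩ := i
  obtain ⟨⟨n', s'⟩, hs'⟩ := i'
  simp only at hn
  subst hn
  by_contra hc
  simp only [cyl, ite_eq_right_iff, one_ne_zero, imp_false, not_or, not_not] at hc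
  exact h (Subtype.ext (by simp only [← hc.1, ← hc.2]))

lemma cel_flp (i : Io) (j : ℕ) (ω : Om) (hω : res i.1.1 ω = i.1.2) :
    cyl (j + 1) (cel j) (flp i.1.1 ω) = cyl (j + 1) (cel j) ω := by
  by_cases hj : j + 1 ≤ i.1.1
  · exact cyl_flp hj _ _
  · have h1 : ¬ ∀ k < i.1.1, ω k = 1 := fun h => i.2 (hω.symm.trans ((res_one _ _).2 h))
    have h2 : ¬ (ω j = 0 ∧ ∀ k < j, ω k = 1) := fun h => h1 fun k hk => h.2 k (by omega)
    have h3 : ¬ (flp i.1.1 ω j = 0 ∧ ∀ k < j, flp i.1.1 ω k = 1) := fun h =>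
      h1 fun k hk => (flp_ne hk.ne ω).symm.trans (h.2 k (by omega))
    simp only [cyl, res_cel, h2, h3]

lemma gp_mul {P w : ℝ} (hw : 0 < w) (a : ℝ) : gp P (a * w) * w = gp P a * w ^ P := by
  have h : w ^ P = w ^ (P - 2) * w * w := by
    rw [← Real.rpow_add_one hw.ne', ← Real.rpow_add_one hw.ne']
    congr 1
    ring
  unfold gp
  rw [abs_mul, abs_of_pos hw, Real.mul_rpow (abs_nonneg _) hw.le, h]
  ring

/-- The square of the square function. -/
noncomputable def Sq (P : ℝ) (S : Finset Io) (a : Io → ℝ) (ω : Om) : ℝ :=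
  ∑ i ∈ S, (a i * wt P i.1.1 * cyl i.1.1 i.1.2 ω) ^ 2

lemma continuous_Sq (P : ℝ) (S : Finset Io) (a : Io → ℝ) : Continuous (Sq P S a) :=
  continuous_finsetSum _ fun _ _ => (continuous_const.mul (continuous_cyl _ _)).pow 2

lemma Sq_nonneg (P : ℝ) (S : Finset Io) (a : Io → ℝ) (ω : Om) : 0 ≤ Sq P S a ω :=
  sum_nonneg fun _ _ => sq_nonneg _

lemma integ_Sq {P : ℝ} (hP : 0 ≤ P) (S : Finset Io) (a : Io → ℝ) :
    Integrable (fun ω => Sq P S a ω ^ (P / 2)) mu :=
  integ ((continuous_Sq P S a).rpow_const fun _ => Or.inr (by positivity))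

lemma sqf {P : ℝ} (hP : 2 ≤ P) (S : Finset Io) (a : Io → ℝ) :
    (∫ ω, |∑ i ∈ S, a i * hC P i ω| ^ P ∂mu ≤ bellK (P / 2 - 1) * ∫ ω, Sq P S a ω ^ (P / 2) ∂mu) ∧
    (∫ ω, Sq P S a ω ^ (P / 2) ∂mu ≤
      bellK (P / 2 - 1) * ∫ ω, |∑ i ∈ S, a i * hC P i ω| ^ P ∂mu) := by
  have hm : ∀ i ∈ S, i.1.1 ∈ range (S.sup (fun i => i.1.1) + 1) := fun i hi =>
    mem_range.2 (Nat.lt_succ_of_le (le_sup (f := fun i : Io => i.1.1) hi))
  have key := square_fn (q := P / 2 - 1) (by linarith) (S.sup fun i => i.1.1)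
    (fun k ω => ∑ i ∈ S.filter (fun i => i.1.1 = k), a i * wt P i.1.1 * cyl i.1.1 i.1.2 ω)
    (fun k => continuous_finsetSum _ fun _ _ => continuous_const.mul (continuous_cyl _ _))
    (fun k j ω hk => sum_congr rfl fun i hi => by
      rw [cyl_flp ((mem_filter.1 hi).2.le.trans hk)])
  have e1 : ∀ ω, ∑ k ∈ range (S.sup (fun i => i.1.1) + 1), sg k ω *
      ∑ i ∈ S.filter (fun i => i.1.1 = k), a i * wt P i.1.1 * cyl i.1.1 i.1.2 ω
      = ∑ i ∈ S, a i * hC P i ω := fun ω => by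
    rw [← sum_fiberwise_of_maps_to hm]
    refine sum_congr rfl fun k _ => ?_
    rw [mul_sum]
    refine sum_congr rfl fun i hi => ?_
    rw [hC_apply, ← (mem_filter.1 hi).2]
    ring
  have e2 : ∀ ω, ∑ k ∈ range (S.sup (fun i => i.1.1) + 1),
      (∑ i ∈ S.filter (fun i => i.1.1 = k), a i * wt P i.1.1 * cyl i.1.1 i.1.2 ω) ^ 2
      = Sq P S a ω := fun ω => by
    rw [Sq, ← sum_fiberwise_of_maps_to hm]
    refine sum_congr rfl fun k _ => ?_
    exact map_sum_of_pairwise _ _ (fun x => x ^ 2) (by simp) fun i hi j hj hij =>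
      (io_disj hij ((mem_filter.1 hi).2.trans (mem_filter.1 hj).2.symm) ω).imp
        (fun h => by rw [h, mul_zero]) (fun h => by rw [h, mul_zero])
  have e3 : ∀ x : ℝ, (x ^ 2) ^ (P / 2) = |x| ^ P := fun x => by
    rw [← sq_abs, ← Real.rpow_two, ← Real.rpow_mul (abs_nonneg _)]
    congr 1
    ring
  simpa only [e1, e2, sub_add_cancel, e3] using key

lemma sum_rpow_le {ι : Type} (S : Finset ι) (x : ι → ℝ) (hx : ∀ i, 0 ≤ x i) {r : ℝ} (hr : 1 ≤ r) :
    ∑ i ∈ S, x i ^ r ≤ (∑ i ∈ S, x i) ^ r := by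
  classical
  induction S using Finset.induction_on with
  | empty => simp [Real.zero_rpow (by linarith : r ≠ 0)]
  | insert i S hi ih =>
    rw [sum_insert hi, sum_insert hi]
    exact (add_le_add_right ih _).trans
      (Real.add_rpow_le_rpow_add (hx i) (sum_nonneg fun j _ => hx j) hr)

lemma Sq_lower {P : ℝ} (hP : 2 ≤ P) (A : Finset Io) (ω : Om) :
    ∑ i ∈ A, (1 : ℝ) * 2 ^ i.1.1 * cyl i.1.1 i.1.2 ω ≤ Sq P A (fun _ => 1) ω ^ (P / 2) := by
  refine le_trans (le_of_eq (sum_congr rfl fun i _ => ?_))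
    (sum_rpow_le A _ (fun i => sq_nonneg _) (by linarith))
  rw [← sq_abs, ← Real.rpow_two, ← Real.rpow_mul (abs_nonneg _), mul_div_cancel₀ _ two_ne_zero,
    abs_mul_cyl (by linarith), one_mul, one_mul, abs_of_pos (wt_pos _ _), wt_rpow (by linarith)]

lemma Sq_upper {P : ℝ} (hP : 2 ≤ P) : ∃ c : ℝ, 0 ≤ c ∧ ∀ (A : Finset Io) (ω : Om),
    Sq P A (fun _ => 1) ω ^ (P / 2) ≤ c * ∑ i ∈ A, (1 : ℝ) * 2 ^ i.1.1 * cyl i.1.1 i.1.2 ω := by
  classical
  have hP0 : 0 < P := by linarith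
  obtain ⟨r, hr⟩ : ∃ r : ℝ, r = (2 : ℝ) ^ (2 / P) := ⟨_, rfl⟩
  have hr1 : 1 < r := hr ▸ Real.one_lt_rpow one_lt_two (by positivity)
  have hr0 : 0 < r - 1 := by linarith
  have hw : ∀ n : ℕ, wt P n ^ 2 = r ^ n := fun n => by
    rw [hr, wt, ← Real.rpow_two, ← Real.rpow_natCast, ← Real.rpow_mul two_pos.le,
      ← Real.rpow_mul two_pos.le]
    congr 1
    ring
  have hw2 : ∀ n : ℕ, (r ^ n) ^ (P / 2) = 2 ^ n := fun n => by
    rw [← hw, ← Real.rpow_two, ← Real.rpow_mul (wt_pos P n).le, mul_div_cancel₀ _ two_ne_zero,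
      wt_rpow hP0]
  refine ⟨(r / (r - 1)) ^ (P / 2), by positivity, fun A ω => ?_⟩
  have hT : ∀ i ∈ A, 0 ≤ (1 : ℝ) * 2 ^ i.1.1 * cyl i.1.1 i.1.2 ω := fun i _ => by
    rcases cyl_01 i.1.1 i.1.2 ω with h | h <;> rw [h] <;> positivity
  have e : Sq P A (fun _ => 1) ω = ∑ i ∈ A.filter (fun i => cyl i.1.1 i.1.2 ω = 1), r ^ i.1.1 := by
    rw [Sq, sum_filter]
    refine sum_congr rfl fun i _ => ?_
    rcases cyl_01 i.1.1 i.1.2 ω with h | h <;> simp [h, hw]
  rw [e]
  rcases (A.filter (fun i : Io => cyl i.1.1 i.1.2 ω = 1)).eq_empty_or_nonempty with h | h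
  · rw [h, sum_empty, Real.zero_rpow (by positivity)]
    exact mul_nonneg (by positivity) (sum_nonneg hT)
  · obtain ⟨i₀, hi₀, hmax⟩ := exists_max_image _ (fun i : Io => i.1.1) h
    have hinj : Set.InjOn (fun i : Io => i.1.1)
        (A.filter (fun i : Io => cyl i.1.1 i.1.2 ω = 1) : Finset Io) := fun i hi j hj hij => by
      by_contra hne
      rcases io_disj hne hij ω with h0 | h0
      · exact zero_ne_one (h0.symm.trans (mem_filter.1 hi).2)
      · exact zero_ne_one (h0.symm.trans (mem_filter.1 hj).2)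
    have h1 : ∑ i ∈ A.filter (fun i => cyl i.1.1 i.1.2 ω = 1), r ^ i.1.1
        ≤ r / (r - 1) * r ^ i₀.1.1 := by
      rw [← sum_image (f := fun k => r ^ k) hinj]
      calc _ ≤ ∑ k ∈ range (i₀.1.1 + 1), r ^ k :=
            sum_le_sum_of_subset_of_nonneg (fun k hk => by
              obtain ⟨i, hi, rfl⟩ := mem_image.1 hk
              exact mem_range.2 (Nat.lt_succ_of_le (hmax i hi))) fun _ _ _ => by positivity
        _ = (r ^ (i₀.1.1 + 1) - 1) / (r - 1) := geom_sum_eq hr1.ne' _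
        _ ≤ r ^ (i₀.1.1 + 1) / (r - 1) := by gcongr; linarith
        _ = _ := by rw [pow_succ]; ring
    calc _ ≤ (r / (r - 1) * r ^ i₀.1.1) ^ (P / 2) :=
          Real.rpow_le_rpow (sum_nonneg fun _ _ => by positivity) h1 (by positivity)
      _ = (r / (r - 1)) ^ (P / 2) * ((1 : ℝ) * 2 ^ i₀.1.1 * cyl i₀.1.1 i₀.1.2 ω) := by
          rw [Real.mul_rpow (by positivity) (by positivity), hw2, (mem_filter.1 hi₀).2, one_mul,
            mul_one]
      _ ≤ _ := mul_le_mul_of_nonneg_left (single_le_sum hT (mem_filter.1 hi₀).1) (by positivity)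

lemma int_card (A : Finset Io) :
    ∫ ω, ∑ i ∈ A, (1 : ℝ) * 2 ^ i.1.1 * cyl i.1.1 i.1.2 ω ∂mu = A.card := by
  rw [integral_finsetSum _ fun i _ => integ (continuous_const.fun_mul (continuous_cyl _ _))]
  simp only [int_cyl, sum_const, nsmul_eq_mul, mul_one]

variable {p : ℝ≥0∞} [Fact (1 ≤ p)]

lemma Jm_sum {ι : Type} (S : Finset ι) (a : ι → ℝ) (u : ι → C(Om, ℝ)) :
    ∑ i ∈ S, a i • Jm p (u i) = Jm p (∑ i ∈ S, a i • u i) := by
  simp only [map_sum, map_smul]

lemma norm_sum (hp : p ≠ ∞) {ι : Type} (S : Finset ι) (a : ι → ℝ) (u : ι → C(Om, ℝ)) :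
    ‖∑ i ∈ S, a i • Jm p (u i)‖ ^ p.toReal = ∫ ω, |∑ i ∈ S, a i * u i ω| ^ p.toReal ∂mu := by
  rw [Jm_sum, norm_Jm_rpow hp]
  simp only [ContinuousMap.sum_apply, ContinuousMap.smul_apply, smul_eq_mul]

lemma norm_x (hp1 : 1 < p) (hp : p ≠ ∞) (S : Finset ℕ) (y : ℕ → ℝ) :
    ‖∑ j ∈ S, y j • Jm p (xC p.toReal j)‖ ^ p.toReal = ∑ j ∈ S, |y j| ^ p.toReal := by
  have hP : 0 < p.toReal := zero_lt_one.trans (one_lt_toReal hp1 hp)
  have e : ∀ ω, |∑ j ∈ S, y j * xC p.toReal j ω| ^ p.toReal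
      = ∑ j ∈ S, |y j| ^ p.toReal * 2 ^ (j + 1) * cyl (j + 1) (cel j) ω := fun ω => by
    rw [map_sum_of_pairwise S _ (fun x => |x| ^ p.toReal) (by simp [Real.zero_rpow hP.ne'])
      fun i _ j _ hij => (cel_disj hij ω).imp
        (fun h => by rw [xC_apply, h, mul_zero, mul_zero])
        (fun h => by rw [xC_apply, h, mul_zero, mul_zero])]
    refine sum_congr rfl fun j _ => ?_
    rw [xC_apply, ← mul_assoc, abs_mul_cyl hP, abs_mul, abs_of_pos (wt_pos _ _),
      Real.mul_rpow (abs_nonneg _) (wt_pos _ _).le, wt_rpow hP]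
  rw [norm_sum hp]
  simp only [e]
  rw [integral_finsetSum _ fun i _ => integ (continuous_const.fun_mul (continuous_cyl _ _))]
  simp only [int_cyl]

lemma norming_x (hp1 : 1 < p) (hp : p ≠ ∞) (S : Finset ℕ) (y : ℕ → ℝ)
    (F : StrongDual ℝ (Lp ℝ p unitMeas)) (h0 : ∑ j ∈ S, y j • Jm p (xC p.toReal j) ≠ 0)
    (hF : IsNorming F (∑ j ∈ S, y j • Jm p (xC p.toReal j))) :
    (∀ j, ‖∑ j ∈ S, y j • Jm p (xC p.toReal j)‖ ^ (p.toReal - 1) * F (Jm p (xC p.toReal j))
        = if j ∈ S then gp p.toReal (y j) else 0) ∧ ∀ i, F (Jm p (hC p.toReal i)) = 0 := by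
  have hP1 := one_lt_toReal hp1 hp
  have hP : 0 < p.toReal := zero_lt_one.trans hP1
  rw [Jm_sum] at h0 hF ⊢
  constructor
  · intro j
    rw [norming_Jm hp1 hp h0 hF]
    have e : ∀ ω, gp p.toReal ((∑ j ∈ S, y j • xC p.toReal j) ω) * xC p.toReal j ω
        = (if j ∈ S then gp p.toReal (y j) else 0) * 2 ^ (j + 1) * cyl (j + 1) (cel j) ω := by
      intro ω
      rcases cyl_01 (j + 1) (cel j) ω with h | h
      · rw [xC_apply, h, mul_zero, mul_zero, mul_zero]
      · have h1 : ∀ k ∈ S, y k * xC p.toReal k ω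
            = if k = j then y k * wt p.toReal (j + 1) else 0 := fun k _ => by
          by_cases hk : k = j
          · rw [if_pos hk, hk, xC_apply, h, mul_one]
          · rw [if_neg hk, xC_apply, (cel_disj hk ω).resolve_right (by rw [h]; exact one_ne_zero),
              mul_zero, mul_zero]
        simp only [ContinuousMap.sum_apply, ContinuousMap.smul_apply, smul_eq_mul]
        rw [sum_congr rfl h1, sum_ite_eq', xC_apply, h, mul_one, mul_one]
        split_ifs
        · rw [gp_mul (wt_pos _ _), wt_rpow hP]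
        · rw [gp_zero, zero_mul, zero_mul]
    simp only [e, int_cyl]
  · intro i
    have h1 := norming_Jm hp1 hp h0 hF (hC p.toReal i)
    rw [integral_odd i.1.1 (((continuous_gp hP1).comp' (ContinuousMap.continuous _)).fun_mul
      (ContinuousMap.continuous _)) fun ω => ?_] at h1
    · exact (mul_eq_zero.1 h1).resolve_left
        (Real.rpow_pos_of_pos (norm_pos_iff.2 h0) _).ne'
    · rw [hC_apply, hC_apply, sg_flp_same, cyl_flp le_rfl]
      by_cases hω : res i.1.1 ω = i.1.2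
      · simp only [ContinuousMap.sum_apply, ContinuousMap.smul_apply, smul_eq_mul, xC_apply,
          cel_flp i _ ω hω]
        ring
      · simp [cyl, hω]

lemma norm_h (hp1 : 1 < p) (hp : p ≠ ∞) (i : Io) : ‖Jm p (hC p.toReal i)‖ = 1 := by
  have hP : 0 < p.toReal := zero_lt_one.trans (one_lt_toReal hp1 hp)
  have e : ∀ ω, |hC p.toReal i ω| ^ p.toReal = (1 : ℝ) * 2 ^ i.1.1 * cyl i.1.1 i.1.2 ω := fun ω => by
    rw [hC_apply, ← mul_assoc, abs_mul_cyl hP, abs_mul, abs_sg, mul_one, abs_of_pos (wt_pos _ _),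
      wt_rpow hP, one_mul]
  have h := norm_Jm_rpow hp (hC p.toReal i)
  simp only [e, int_cyl] at h
  rw [← Real.rpow_rpow_inv (norm_nonneg (Jm p (hC p.toReal i))) hP.ne', h, Real.one_rpow]

lemma mult_h (hp : p ≠ ∞) (hP : 2 ≤ p.toReal) : MultBound (fun i => Jm p (hC p.toReal i))
    ((bellK (p.toReal / 2 - 1) * bellK (p.toReal / 2 - 1)) ^ p.toReal⁻¹) := by
  intro S a θ hθ
  have hB : 0 < bellK (p.toReal / 2 - 1) := bellK_pos (by linarith)
  refine le_of_rpow_le (norm_nonneg _) (norm_nonneg _) (by positivity) (by linarith) ?_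
  rw [norm_sum hp, norm_sum hp, mul_assoc]
  refine (sqf hP S _).1.trans (mul_le_mul_of_nonneg_left (le_trans ?_ (sqf hP S a).2) hB.le)
  refine integral_mono (integ_Sq (by linarith) _ _) (integ_Sq (by linarith) _ _) fun ω => ?_
  refine Real.rpow_le_rpow (Sq_nonneg _ _ _ _) (sum_le_sum fun i _ => ?_) (by linarith)
  rw [mul_assoc, mul_assoc, mul_pow, mul_assoc]
  exact mul_le_of_le_one_left (sq_nonneg _) ((sq_le_one_iff_abs_le_one _).2 (hθ i))

lemma dem_h (hp : p ≠ ∞) (hP : 2 ≤ p.toReal) : ∃ D : ℝ, ∀ A : Finset Io,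
    (A.card : ℝ) ≤ D * ‖∑ i ∈ A, Jm p (hC p.toReal i)‖ ^ p.toReal ∧
    ‖∑ i ∈ A, Jm p (hC p.toReal i)‖ ^ p.toReal ≤ D * A.card := by
  have hB : 0 < bellK (p.toReal / 2 - 1) := bellK_pos (by linarith)
  obtain ⟨c, hc, hup⟩ := Sq_upper hP
  refine ⟨bellK (p.toReal / 2 - 1) * (1 + c), fun A => ?_⟩
  have hi : Integrable (fun ω => ∑ i ∈ A, (1 : ℝ) * 2 ^ i.1.1 * cyl i.1.1 i.1.2 ω) mu :=
    integ (continuous_finsetSum _ fun _ _ => continuous_const.fun_mul (continuous_cyl _ _))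
  have hn := norm_sum hp A (fun _ => 1) (hC p.toReal)
  simp only [one_smul] at hn
  have h1 := integral_mono hi (integ_Sq (by linarith) _ _) (Sq_lower hP A)
  have h2 := integral_mono (integ_Sq (by linarith) _ _) (hi.const_mul c) (hup A)
  rw [integral_const_mul, int_card] at h2
  rw [int_card] at h1
  have h3 := sqf hP A (fun _ => 1)
  rw [← hn] at h3
  have h4 : 0 ≤ ‖∑ i ∈ A, Jm p (hC p.toReal i)‖ ^ p.toReal := by positivity
  have h5 : (0 : ℝ) ≤ A.card := Nat.cast_nonneg _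
  constructor
  · have := mul_nonneg (mul_nonneg hB.le hc) h4
    linarith only [h1, h3.2, this]
  · have h6 := mul_le_mul_of_nonneg_left h2 hB.le
    have := mul_nonneg hB.le h5
    linarith only [h6, h3.1, this]

lemma dense_xh (hp1 : 1 < p) (hp : p ≠ ∞) : Dense (Submodule.span ℝ
    (Set.range (fun j => Jm p (xC p.toReal j)) ∪ Set.range (fun i => Jm p (hC p.toReal i))) :
      Set (Lp ℝ p unitMeas)) := by
  classical
  have hP : 0 < p.toReal := zero_lt_one.trans (one_lt_toReal hp1 hp)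
  set V := Submodule.span ℝ
    (Set.range (fun j => Jm p (xC p.toReal j)) ∪ Set.range (fun i => Jm p (hC p.toReal i)))
  have hx : ∀ j, Jm p (cC (j + 1) (cel j)) ∈ V := fun j => by
    have h : Jm p (xC p.toReal j) ∈ V := Submodule.subset_span (Or.inl ⟨j, rfl⟩)
    rw [xC, map_smul] at h
    exact (V.smul_mem_iff (wt_pos _ _).ne').1 h
  have hh : ∀ (n : ℕ) (s : Fin n → Fin 2), s ≠ one n → Jm p (dC n s) ∈ V := fun n s hs => by
    have h : Jm p (hC p.toReal ⟨⟨n, s⟩, hs⟩) ∈ V := Submodule.subset_span (Or.inr ⟨_, rfl⟩)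
    rw [hC, map_smul] at h
    exact (V.smul_mem_iff (wt_pos _ _).ne').1 h
  have s1 : ∀ n, cC n (one n) = cC (n + 1) (cel n) + cC (n + 1) (one (n + 1)) := fun n =>
    ContinuousMap.ext fun ω => (cyl_split n ω).1
  have s2 : ∀ n, dC n (one n) = cC (n + 1) (cel n) - cC (n + 1) (one (n + 1)) := fun n =>
    ContinuousMap.ext fun ω => (cyl_split n ω).2
  have hd : ∀ M, Jm p (cC 0 (one 0)) - Jm p (cC M (one M)) ∈ V := fun M => by
    induction M with
    | zero => rw [sub_self]; exact V.zero_mem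
    | succ M ih =>
      rw [s1 M, map_add] at ih
      have := V.add_mem ih (hx M)
      rwa [sub_add_eq_sub_sub_swap, sub_add_cancel] at this
  have hn : ∀ M, ‖Jm p (cC M (one M))‖ = ((1 / 2 : ℝ) ^ p.toReal⁻¹) ^ M := fun M => by
    have h := norm_Jm_rpow hp (cC M (one M))
    have e : ∀ ω, |cC M (one M) ω| ^ p.toReal = cyl M (one M) ω := fun ω => by
      have := abs_mul_cyl hP 1 M (one M) ω
      rw [one_mul, abs_one, Real.one_rpow, one_mul] at this
      exact this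
    simp only [e, integral_cyl] at h
    rw [← Real.rpow_rpow_inv (norm_nonneg (Jm p (cC M (one M)))) hP.ne', h,
      Real.rpow_pow_comm (by norm_num)]
  have ht : Tendsto (fun M => Jm p (cC M (one M))) atTop (𝓝 0) := by
    rw [tendsto_zero_iff_norm_tendsto_zero]
    simp only [hn]
    exact tendsto_pow_atTop_nhds_zero_of_lt_one (by positivity)
      (Real.rpow_lt_one (by norm_num) (by norm_num) (by positivity))
  have h0 : Jm p (cC 0 (one 0)) ∈ V.topologicalClosure := by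
    have := tendsto_const_nhds (x := Jm p (cC 0 (one 0))).sub ht
    rw [sub_zero] at this
    exact mem_closure_of_tendsto this (Eventually.of_forall hd)
  have he : ∀ M, Jm p (cC M (one M)) ∈ V.topologicalClosure := fun M => by
    have := V.topologicalClosure.sub_mem h0 (V.le_topologicalClosure (hd M))
    rwa [sub_sub_cancel] at this
  have hall : ∀ (n : ℕ) (s : Fin n → Fin 2), Jm p (dC n s) ∈ V.topologicalClosure := fun n s => by
    by_cases hs : s = one n
    · rw [hs, s2, map_sub]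
      exact V.topologicalClosure.sub_mem (V.le_topologicalClosure (hx n)) (he _)
    · exact V.le_topologicalClosure (hh n s hs)
  have main : ∀ (n : ℕ) (u : C(Om, ℝ)), IsCyl n u → Jm p u ∈ V.topologicalClosure := by
    intro n
    induction n with
    | zero =>
      intro u hu
      have : u = u 0 • cC 0 (one 0) := ContinuousMap.ext fun ω => by
        have h1 : cC 0 (one 0) ω = 1 := by
          change cyl 0 (one 0) ω = 1
          rw [cyl, if_pos (Subsingleton.elim _ _)]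
        rw [ContinuousMap.smul_apply, h1, smul_eq_mul, mul_one]
        exact hu _ _ fun i hi => absurd hi (Nat.not_lt_zero i)
      rw [this, map_smul]
      exact V.topologicalClosure.smul_mem _ h0
    | succ n ih =>
      intro u hu
      obtain ⟨g₁, g₂, h1, h2, h3⟩ := hu.split
      obtain ⟨G₁, hG₁⟩ := h1.exists_res
      obtain ⟨G₂, hG₂⟩ := h2.exists_res
      have c1 : Continuous g₁ := by rw [funext hG₁]; exact continuous_comp_res n G₁
      have : u = ⟨g₁, c1⟩ + ∑ s, G₂ s • dC n s := ContinuousMap.ext fun ω => by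
        rw [h3, hG₂]
        simp [ContinuousMap.sum_apply, dC, cyl, mul_comm]
      rw [this, map_add, ← Jm_sum]
      exact V.topologicalClosure.add_mem (ih _ h1)
        (Submodule.sum_mem _ fun s _ => V.topologicalClosure.smul_mem _ (hall n s))
  refine Dense.of_closure (((Jm_denseRange p hp).dense_image (Jm p).continuous dense_cylAlg).mono ?_)
  rintro _ ⟨u, ⟨n, hn⟩, rfl⟩
  exact main _ u hn

end EmbPX

open EmbPX in
theorem exists_emb {p : ℝ≥0∞} [Fact (1 ≤ p)] (hp2 : 2 < p) (hp : p ≠ ∞) : Nonempty (Emb p) := by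
  have hp1 : 1 < p := lt_trans (by norm_num) hp2
  have hP : 2 ≤ p.toReal := by
    simpa using ENNReal.toReal_mono hp hp2.le
  obtain ⟨D, hD⟩ := dem_h hp hP
  exact ⟨⟨Io, fun j => Jm p (xC p.toReal j), fun i => Jm p (hC p.toReal i), _, D, norm_x hp1 hp,
    norming_x hp1 hp, norm_h hp1 hp, mult_h hp hP, hD, dense_xh hp1 hp⟩⟩

end Pool.Agent.MP_30195a_an.Gr
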