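import Pool.Agent.MP_30195a_an.Gr.Spec

/-!
# Greedy bases: the energy of chain states
-/

set_option autoImplicit false

namespace Pool.Agent.MP_30195a_an.Gr

/-- The Bregman form of two fields. -/
noncomputable def br (p : ℝ) (F G : Fld) : ℝ :=
  F.I - G.I - p * (G.B * (F.A - G.A) - G.Z * (F.z - G.z))

/-- The pairing form of two fields. -/
noncomputable def pr (F G : Fld) : ℝ := (F.B - G.B) * (F.A - G.A) - (F.Z - G.Z) * (F.z - G.z)

/-- The pairing form of two numbers. -/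
noncomputable def pair (p a b : ℝ) : ℝ := (gp p a - gp p b) * (a - b)

/-- The averaged Bregman distance to the level `a`. -/
noncomputable def bf (p : ℝ) (F : Fld) (a : ℝ) : ℝ := F.I - |a| ^ p - p * gp p a * (F.A - a)

/-- The weighted sum over the passive halves and the siblings of the chain. -/
noncomputable def outer (φ : ℝ → ℝ → ℝ) (K : ℝ) (σ τ : St) : Word → ℝ
  | [] => (φ (K + (σ []).z) (K + (τ []).z) + φ (K - (σ []).z) (K - (τ []).z)) / 2
  | i :: w => outer φ K σ τ w + ms (i :: w) *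
      (φ (σ ((i + 1) :: w)).A (τ ((i + 1) :: w)).A + φ (σ ((i + 2) :: w)).A (τ ((i + 2) :: w)).A)

/-- A property of the levels on the passive halves and on the siblings of the chain. -/
def Sib (Q : Word → ℝ → ℝ → Prop) (K : ℝ) (σ τ : St) : Word → Prop
  | [] => Q [] (K + (σ []).z) (K + (τ []).z) ∧ Q [] (K - (σ []).z) (K - (τ []).z)
  | i :: w => Sib Q K σ τ w ∧ ∀ j, j ≠ i → Q (i :: w) (σ (j :: w)).A (τ (j :: w)).A

variable {p K : ℝ} {σ τ : St} {w : Word}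

lemma Sib.imp {Q Q' : Word → ℝ → ℝ → Prop} {v : Word}
    (h : ∀ c a b, c.length ≤ v.length → Q c a b → Q' c a b) (hs : Sib Q K σ τ v) :
    Sib Q' K σ τ v := by
  induction v with
  | nil => exact ⟨h _ _ _ le_rfl hs.1, h _ _ _ le_rfl hs.2⟩
  | cons i v ih =>
    exact ⟨ih (fun c a b hc => h c a b (hc.trans (by simp))) hs.1,
      fun j hj => h _ _ _ le_rfl (hs.2 j hj)⟩

lemma Sib.and {Q Q' : Word → ℝ → ℝ → Prop} {v : Word} (h : Sib Q K σ τ v) (h' : Sib Q' K σ τ v) :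
    Sib (fun c a b => Q c a b ∧ Q' c a b) K σ τ v := by
  induction v with
  | nil => exact ⟨⟨h.1, h'.1⟩, h.2, h'.2⟩
  | cons i v ih => exact ⟨ih h.1 h'.1, fun j hj => ⟨h.2 j hj, h'.2 j hj⟩⟩

lemma ne_succ (i : Fin 3) : i + 1 ≠ i ∧ i + 2 ≠ i := by revert i; decide

lemma ne_cases : ∀ i j : Fin 3, j ≠ i → j = i + 1 ∨ j = i + 2 := by decide

lemma succ_succ : ∀ i : Fin 3,
    i + 1 + 1 = i + 2 ∧ i + 1 + 2 = i ∧ i + 2 + 1 = i ∧ i + 2 + 2 = i + 1 := by decide

lemma sum3 (f : Fin 3 → ℝ) (i : Fin 3) : f 0 + f 1 + f 2 = f i + f (i + 1) + f (i + 2) := by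
  obtain ⟨⟨e1, e2⟩, ⟨e3, e4⟩, e5, e6⟩ := Sys.fin3
  fin_cases i
  · simp only [Fin.zero_eta, e1, e2]
  · simp only [Fin.mk_one, e3, e4]; ring
  · simp only [Fin.reduceFinMk, e5, e6]; ring

lemma outer_le {φ ψ : ℝ → ℝ → ℝ} {v : Word} (h : Sib (fun _ a b => φ a b ≤ ψ a b) K σ τ v) :
    outer φ K σ τ v ≤ outer ψ K σ τ v := by
  induction v with
  | nil => simp only [outer]; linarith [h.1, h.2]
  | cons i v ih =>
    have h1 := h.2 _ (ne_succ i).1
    have h2 := h.2 _ (ne_succ i).2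
    simp only [outer]
    exact add_le_add (ih h.1) (mul_le_mul_of_nonneg_left (add_le_add h1 h2) (ms_pos _).le)

lemma outer_lin (φ ψ : ℝ → ℝ → ℝ) (s t : ℝ) (v : Word) :
    outer (fun a b => s * φ a b + t * ψ a b) K σ τ v
      = s * outer φ K σ τ v + t * outer ψ K σ τ v := by
  induction v with
  | nil => simp only [outer]; ring
  | cons i v ih => simp only [outer, ih]; ring

lemma outer_nonneg (hp : 1 < p) (v : Word) : 0 ≤ outer (breg p) K σ τ v := by
  induction v with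
  | nil => exact div_nonneg (add_nonneg (breg_nonneg hp _ _) (breg_nonneg hp _ _)) zero_le_two
  | cons i v ih =>
    exact add_nonneg ih (mul_nonneg (ms_pos _).le
      (add_nonneg (breg_nonneg hp _ _) (breg_nonneg hp _ _)))

lemma sib_of_outer (hp : 1 < p) {E : ℝ} {v : Word} (h : outer (breg p) K σ τ v ≤ E) :
    Sib (fun c a b => ms c * breg p a b ≤ 2 * E) K σ τ v := by
  induction v with
  | nil =>
    have h1 := breg_nonneg hp (K + (σ []).z) (K + (τ []).z)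
    have h2 := breg_nonneg hp (K - (σ []).z) (K - (τ []).z)
    simp only [outer] at h
    simp only [Sib, ms_nil]
    constructor <;> linarith
  | cons i v ih =>
    have h0 := outer_nonneg (K := K) (σ := σ) (τ := τ) hp v
    have h1 := mul_nonneg (ms_pos (i :: v)).le
      (breg_nonneg hp (σ ((i + 1) :: v)).A (τ ((i + 1) :: v)).A)
    have h2 := mul_nonneg (ms_pos (i :: v)).le
      (breg_nonneg hp (σ ((i + 2) :: v)).A (τ ((i + 2) :: v)).A)
    simp only [outer] at h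
    refine ⟨ih (by linarith), fun j hj => ?_⟩
    rcases ne_cases i j hj with rfl | rfl <;> linarith

lemma Loc.avgA (h : Loc σ w) :
    (σ w).A = ((σ (0 :: w)).A + (σ (1 :: w)).A + (σ (2 :: w)).A) / 3 := by
  obtain ⟨⟨e1, e2⟩, ⟨e3, e4⟩, e5, e6⟩ := Sys.fin3
  have h0 := h.hA 0
  have h1 := h.hA 1
  have h2 := h.hA 2
  simp only [e1, e2, e3, e4, e5, e6] at h0 h1 h2
  linear_combination -(h0 + h1 + h2) / 3

lemma Loc.zrel (h : Loc σ w) (i : Fin 3) :
    (σ (i :: w)).z = (σ w).z - kap * ((σ ((i + 1) :: w)).A - (σ ((i + 2) :: w)).A) := by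
  have h1 := h.hA (i + 1)
  have h2 := h.hA (i + 2)
  have h3 := sum3 (fun j => (σ (j :: w)).z) i
  have e := succ_succ i
  rw [e.1, e.2.1] at h1
  rw [e.2.2.1, e.2.2.2] at h2
  rw [h1, h2, h.hz, h3]
  linear_combination (-2 * (σ (i :: w)).z + (σ ((i + 1) :: w)).z + (σ ((i + 2) :: w)).z) * kap_sq

lemma br_split (h : Loc σ w) (h' : Loc τ w) : br p (σ w) (τ w) = (br p (σ (0 :: w)) (τ (0 :: w))
    + br p (σ (1 :: w)) (τ (1 :: w)) + br p (σ (2 :: w)) (τ (2 :: w))) / 3 := by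
  obtain ⟨⟨e1, e2⟩, ⟨e3, e4⟩, e5, e6⟩ := Sys.fin3
  simp only [br, h.hA, h'.hA, h'.hZ, e1, e2, e3, e4, e5, e6]
  rw [h.hI, h'.hI, h'.hB, h.hz, h'.hz]
  ring

lemma pr_split (h : Loc σ w) (h' : Loc τ w) : pr (σ w) (τ w) = (pr (σ (0 :: w)) (τ (0 :: w))
    + pr (σ (1 :: w)) (τ (1 :: w)) + pr (σ (2 :: w)) (τ (2 :: w))) / 3 := by
  obtain ⟨⟨e1, e2⟩, ⟨e3, e4⟩, e5, e6⟩ := Sys.fin3
  simp only [pr, h.hA, h'.hA, h.hZ, h'.hZ, e1, e2, e3, e4, e5, e6]
  rw [h.hB, h'.hB, h.hz, h'.hz]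
  ring

lemma CS.nd (h : CS p K σ w) : (σ w).Nd p := by
  cases w with
  | nil => exact h.2.2
  | cons i w => exact h.2.2.1

lemma CS.flat {i j : Fin 3} (h : CS p K σ (i :: w)) (hj : j ≠ i) : (σ (j :: w)).Flat p := by
  rcases lt_or_gt_of_ne hj with h1 | h1
  · exact ((h.2.2.2 j).1 h1).1
  · exact ((h.2.2.2 j).2 h1).1

lemma CS.hull {i : Fin 3} (h : CS p K σ (i :: w)) (j : Fin 3) :
    Hull p (σ (j :: w)).I (σ (j :: w)).A (σ (j :: w)).B := by
  by_cases hj : j = i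
  · rw [hj]; exact h.nd.1
  · exact (h.flat hj).hull

lemma CS.sib {i j : Fin 3} (h : CS p K σ (i :: w)) (h' : CS p K τ (i :: w)) (hj : j ≠ i) :
    ((σ (j :: w)).Z = 0 ∧ (τ (j :: w)).Z = 0) ∨ (σ (j :: w)).z = (τ (j :: w)).z := by
  rcases lt_or_gt_of_ne hj with h1 | h1
  · exact Or.inl ⟨((h.2.2.2 j).1 h1).2, ((h'.2.2.2 j).1 h1).2⟩
  · exact Or.inr (((h.2.2.2 j).2 h1).2.trans ((h'.2.2.2 j).2 h1).2.symm)

lemma sib_forms {i j : Fin 3} (h : CS p K σ (i :: w)) (h' : CS p K τ (i :: w)) (hj : j ≠ i) :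
    br p (σ (j :: w)) (τ (j :: w)) = breg p (σ (j :: w)).A (τ (j :: w)).A ∧
      pr (σ (j :: w)) (τ (j :: w)) = pair p (σ (j :: w)).A (τ (j :: w)).A := by
  obtain ⟨a1, a2⟩ := h.flat hj
  obtain ⟨b1, b2⟩ := h'.flat hj
  simp only [br, pr, breg, pair, a1, a2, b1, b2]
  rcases h.sib h' hj with ⟨e1, e2⟩ | e
  · rw [e1, e2]; constructor <;> ring
  · rw [e]; constructor <;> ring

lemma egy_eq (h : CS p K σ w) (h' : CS p K τ w) :
    egy p K σ - egy p K τ = outer (breg p) K σ τ w + ms w * br p (σ w) (τ w) ∧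
      0 = outer (pair p) K σ τ w + ms w * pr (σ w) (τ w) := by
  induction w with
  | nil =>
    simp only [egy, outer, breg, pair, br, pr, ms_nil, h.1, h'.1, h.2.1, h'.2.1]
    constructor <;> ring
  | cons i w ih =>
    obtain ⟨h1, h2⟩ := ih h.1 h'.1
    obtain ⟨a1, a2⟩ := sib_forms h h' (ne_succ i).1
    obtain ⟨b1, b2⟩ := sib_forms h h' (ne_succ i).2
    have s1 := sum3 (fun j => br p (σ (j :: w)) (τ (j :: w))) i
    have s2 := sum3 (fun j => pr (σ (j :: w)) (τ (j :: w))) i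
    rw [br_split h.2.1 h'.2.1, s1, a1, b1] at h1
    rw [pr_split h.2.1 h'.2.1, s2, a2, b2] at h2
    simp only [outer, ms_cons]
    constructor <;> linarith

lemma bf_nonneg (hp : 1 < p) {F : Fld} (h : Hull p F.I F.A F.B) (a : ℝ) : 0 ≤ bf p F a := by
  have := h 1 (-(p * gp p a)) 0 (p * gp p a * a - |a| ^ p) fun x => by
    have := breg_nonneg hp x a
    unfold breg at this
    linarith
  unfold bf
  linarith

lemma Fld.Flat.bf_eq {F : Fld} (h : F.Flat p) (a : ℝ) : bf p F a = breg p F.A a := by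
  rw [bf, breg, h.2]

lemma br_end {F G : Fld} (h : G.Flat p) (hZ : G.Z = 0) : br p F G = bf p F G.A := by
  rw [br, bf, h.1, h.2, hZ]; ring

/-- Start states. -/
def Start (p K : ℝ) (σ : St) (w : Word) : Prop := CS p K σ w ∧ (σ w).Flat p ∧ (σ w).z = 1

/-- End states. -/
def Fin' (p K : ℝ) (σ : St) (w : Word) : Prop := CS p K σ w ∧ (σ w).Flat p ∧ (σ w).Z = 0

lemma Fin'.le (hp : 1 < p) (h' : Fin' p K τ w) (h : CS p K σ w) : egy p K τ ≤ egy p K σ := by
  have h1 := (egy_eq h h'.1).1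
  have h2 := outer_nonneg (K := K) (σ := σ) (τ := τ) hp w
  have h3 := mul_nonneg (ms_pos w).le (bf_nonneg hp h.nd.1 (τ w).A)
  rw [br_end h'.2.1 h'.2.2] at h1
  linarith

lemma Start.le (hp : 1 < p) (h : Start p K σ w) (h' : CS p K τ w) : egy p K τ ≤ egy p K σ := by
  have h1 := (egy_eq h.1 h').1
  have h2 := outer_nonneg (K := K) (σ := σ) (τ := τ) hp w
  have h3 := h'.nd.1 (p - 1) 0 (-(p * (σ w).A)) (|(σ w).A| ^ p) fun x => by
    have := breg_nonneg hp (σ w).A x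
    have e := gp_mul_self hp x
    unfold breg at this
    nlinarith
  have h4 : 0 ≤ br p (σ w) (τ w) := by
    have e := h'.nd.2
    rw [br, h.2.1.2, h.2.2]
    nlinarith
  have h5 := mul_nonneg (ms_pos w).le h4
  linarith

lemma CS.congr (h : CS p K σ w) (e : ∀ v : Word, v.length ≤ w.length → τ v = σ v) :
    CS p K τ w := by
  induction w with
  | nil => simp only [CS, e [] le_rfl]; exact h
  | cons i w ih =>
    have e1 : ∀ j : Fin 3, τ (j :: w) = σ (j :: w) := fun j => e _ le_rfl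
    have e2 : τ w = σ w := e _ (by simp)
    refine ⟨ih h.1 fun v hv => e v (hv.trans (by simp)), ?_, ?_, ?_⟩
    · obtain ⟨a1, a2, a3, a4, a5⟩ := h.2.1
      constructor <;> simp only [e1, e2] <;> assumption
    · rw [e1]; exact h.2.2.1
    · simp only [e1]; exact h.2.2.2

lemma Fld.Flat.nd (hp : 1 < p) {F : Fld} (h : F.Flat p) (hz : F.z = 1) : F.Nd p :=
  ⟨h.hull, by rw [h.1, h.2, hz, gp_mul_self hp]; ring⟩

lemma Start.zero (h : Start p K σ w) :
    ∃ τ, Start p K τ (0 :: w) ∧ egy p K τ = egy p K σ := by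
  let τ : St := fun v => if v.length ≤ w.length then σ v else σ w
  have e1 : ∀ j : Fin 3, τ (j :: w) = σ w := fun j => by simp [τ]
  have e2 : τ w = σ w := by simp [τ]
  have e3 : τ [] = σ [] := by simp [τ]
  refine ⟨τ, ⟨⟨h.1.congr fun v hv => if_pos hv, ?_, ?_, fun j => ?_⟩, ?_, ?_⟩, by simp [egy, e3]⟩
  · constructor <;> simp only [e1, e2] <;> intros <;> ring
  · rw [e1]; exact h.1.nd
  · rw [e1]; exact ⟨fun hj => absurd hj (by simp), fun _ => h.2⟩
  · rw [e1]; exact h.2.1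
  · rw [e1]; exact h.2.2

lemma Fin'.next (hp : 1 < p) {i j : Fin 3} (hij : (j : ℕ) = i + 1) (h : Fin' p K σ (i :: w)) :
    Start p K σ (j :: w) := by
  have h1 := (h.1.2.2.2 j).2 (by rw [Fin.lt_def]; omega)
  refine ⟨⟨h.1.1, h.1.2.1, h1.1.nd hp h1.2, fun k => ⟨fun hk => ?_, fun hk => ?_⟩⟩, h1⟩
  · by_cases e : k = i
    · rw [e]; exact h.2
    · exact (h.1.2.2.2 k).1 (by rw [Fin.lt_def] at hk ⊢; have := Fin.val_ne_of_ne e; omega)
  · exact (h.1.2.2.2 k).2 (by rw [Fin.lt_def] at hk ⊢; omega)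

lemma Fin'.last (hp : 1 < p) (h : Fin' p K σ (2 :: w)) : Fin' p K σ w := by
  obtain ⟨⟨e1, e2⟩, ⟨e3, e4⟩, e5, e6⟩ := Sys.fin3
  obtain ⟨⟨a1, a2⟩, a3⟩ := (h.1.2.2.2 0).1 (by decide)
  obtain ⟨⟨b1, b2⟩, b3⟩ := (h.1.2.2.2 1).1 (by decide)
  obtain ⟨c0, ⟨c1, c2⟩, c3⟩ := h
  have L := c0.2.1
  have h0 := L.hZ 0
  have h1 := L.hZ 1
  have h2 := L.hZ 2
  simp only [e1, e2, e3, e4, e5, e6, a3, b3, c3] at h0 h1 h2
  have hZ : (σ w).Z = 0 := by linarith
  have k := kap_pos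
  have f1 : (σ (1 :: w)).A = (σ (2 :: w)).A := (gp_strictMono hp).injective (by
    rw [← b1, ← c1]; nlinarith)
  have f2 : (σ (0 :: w)).A = (σ (2 :: w)).A := (gp_strictMono hp).injective (by
    rw [← a1, ← c1]; nlinarith)
  have f3 : (σ w).A = (σ (2 :: w)).A := by rw [L.avgA, f1, f2]; ring
  refine ⟨c0.1, ⟨?_, ?_⟩, hZ⟩
  · rw [L.hB, a1, b1, c1, f1, f2, f3]; ring
  · rw [L.hI, a2, b2, c2, f1, f2, f3]; ring

/-- A choice of start states and end states. -/
structure Frame (p K : ℝ) where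
  en : Word → St
  st : Word → St
  hen : ∀ w, Fin' p K (en w) w
  hst : ∀ w, Start p K (st w) w

lemma exists_frame (hp : 1 < p) (h : EndStates p) (K : ℝ) : Nonempty (Frame p K) := by
  choose en hen using h K
  have hs : ∀ w, ∃ σ, Start p K σ w := by
    intro w
    induction w with
    | nil =>
      have hf : Fld.Flat p ⟨1, K, (gp p (K + 1) - gp p (K - 1)) / 2, gp p K, |K| ^ p⟩ := ⟨rfl, rfl⟩
      exact ⟨fun _ => ⟨1, K, (gp p (K + 1) - gp p (K - 1)) / 2, gp p K, |K| ^ p⟩,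
        ⟨rfl, rfl, hf.nd hp rfl⟩, hf, rfl⟩
    | cons i w ih =>
      obtain ⟨σ, hσ⟩ := ih
      fin_cases i
      · exact (hσ.zero).imp fun _ h => h.1
      · exact ⟨_, Fin'.next hp (i := 0) rfl (hen (0 :: w))⟩
      · exact ⟨_, Fin'.next hp (i := 1) rfl (hen (1 :: w))⟩
  choose st hst using hs
  exact ⟨⟨en, st, hen, hst⟩⟩

namespace Frame

variable (R : Frame p K)

/-- The final level at a node. -/
def A (w : Word) : ℝ := (R.en w w).A

/-- The final level in the energy scale. -/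
noncomputable def U (w : Word) : ℝ := uu p (R.A w)

/-- The total move of the coefficient. -/
def J (w : Word) : ℝ := 1 - (R.en w w).z

/-- The density of the released energy. -/
noncomputable def e (w : Word) : ℝ := (egy p K (R.st w) - egy p K (R.en w)) / ms w

lemma total (hp : 1 < p) (h : CS p K σ w) :
    outer (breg p) K σ (R.en w) w + ms w * bf p (σ w) (R.A w) ≤ ms w * R.e w := by
  have h1 := (egy_eq h (R.hen w).1).1
  have h2 := (R.hst w).le hp h
  rw [br_end (R.hen w).2.1 (R.hen w).2.2] at h1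
  rw [e, mul_div_cancel₀ _ (ms_pos w).ne', A]
  linarith

lemma bf_le (hp : 1 < p) (h : CS p K σ w) : bf p (σ w) (R.A w) ≤ R.e w := by
  have h1 := R.total hp h
  have h2 := outer_nonneg (K := K) (σ := σ) (τ := R.en w) hp w
  exact le_of_mul_le_mul_left (by linarith) (ms_pos w)

lemma outer_le_e (hp : 1 < p) (h : CS p K σ w) :
    outer (breg p) K σ (R.en w) w ≤ ms w * R.e w := by
  have h1 := R.total hp h
  have h2 := mul_nonneg (ms_pos w).le (bf_nonneg hp h.nd.1 (R.A w))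
  linarith

lemma e_nonneg (hp : 1 < p) (w : Word) : 0 ≤ R.e w :=
  (bf_nonneg hp (R.hst w).1.nd.1 _).trans (R.bf_le hp (R.hst w).1)

lemma e_mart (hp : 1 < p) (w : Word) :
    R.e w = (R.e (0 :: w) + R.e (1 :: w) + R.e (2 :: w)) / 3 := by
  obtain ⟨τ, h0, e0⟩ := (R.hst w).zero
  have h1 := Fin'.next hp (i := 0) (j := 1) rfl (R.hen (0 :: w))
  have h2 := Fin'.next hp (i := 1) (j := 2) rfl (R.hen (1 :: w))
  have h3 := (R.hen (2 :: w)).last hp
  have a0 := le_antisymm (h0.le hp (R.hst _).1) ((R.hst _).le hp h0.1)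
  have a1 := le_antisymm (h1.le hp (R.hst _).1) ((R.hst _).le hp h1.1)
  have a2 := le_antisymm (h2.le hp (R.hst _).1) ((R.hst _).le hp h2.1)
  have a3 := le_antisymm (h3.le hp (R.hen _).1) ((R.hen _).le hp h3.1)
  have := (ms_pos w).ne'
  simp only [e, ms_cons, a0, a1, a2, a3, e0]
  field_simp
  ring

lemma e_cons_le (hp : 1 < p) (i : Fin 3) (w : Word) : R.e (i :: w) ≤ 3 * R.e w := by
  have h := R.e_mart hp w
  rw [sum3 (fun j => R.e (j :: w)) i] at h
  linarith [R.e_nonneg hp ((i + 1) :: w), R.e_nonneg hp ((i + 2) :: w)]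

lemma child_le (hp : 1 < p) {i : Fin 3} (h : CS p K σ (i :: w)) (j : Fin 3) :
    bf p (σ (j :: w)) (R.A w) ≤ 3 * R.e w := by
  have h1 := R.bf_le hp h.1
  have h2 : bf p (σ w) (R.A w) = (bf p (σ (0 :: w)) (R.A w) + bf p (σ (1 :: w)) (R.A w)
      + bf p (σ (2 :: w)) (R.A w)) / 3 := by
    simp only [bf]; rw [h.2.1.hI, h.2.1.avgA]; ring
  rw [sum3 (fun j => bf p (σ (j :: w)) (R.A w)) j] at h2
  linarith [bf_nonneg hp (h.hull (j + 1)) (R.A w), bf_nonneg hp (h.hull (j + 2)) (R.A w)]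

lemma flat_child (hp : 2 ≤ p) {i j : Fin 3} (h : CS p K σ (i :: w)) (hj : (σ (j :: w)).Flat p) :
    (uu p (σ (j :: w)).A - R.U w) ^ 2 ≤ 6 * R.e w := by
  have h1 := R.child_le (by linarith) h j
  rw [hj.bf_eq] at h1
  exact (uu_sub_sq_le hp (σ (j :: w)).A (R.A w)).trans (by linarith)

lemma nil_z (hp : 1 < p) : (R.en [] []).z = 0 := by
  obtain ⟨⟨-, h1, -⟩, -, h2⟩ := R.hen []
  have := (gp_strictMono hp).injective (show gp p (K + (R.en [] []).z) = gp p (K - (R.en [] []).z)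
    by linarith)
  linarith

lemma A_nil : R.A [] = K := (R.hen []).1.1

lemma J_nil (hp : 1 < p) : R.J [] = 1 := by rw [J, R.nil_z hp, sub_zero]

lemma egy_st_nil : egy p K (R.st []) = (|K + 1| ^ p + |K - 1| ^ p) / 2 + |K| ^ p := by
  obtain ⟨⟨h1, -, -⟩, ⟨-, h2⟩, h3⟩ := R.hst []
  rw [egy, h3, h2, h1]

lemma e_nil (hp : 1 < p) : R.e [] = (breg p (K + 1) K + breg p (K - 1) K) / 2 := by
  have h2 := (R.hen []).2.1.2
  rw [e, R.egy_st_nil, egy, R.nil_z hp, h2, (R.hen []).1.1, breg, breg]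
  simp only [add_zero, sub_zero, ms_nil]
  ring

end Frame

end Pool.Agent.MP_30195a_an.Gr
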