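import Pool.Agent.MP_30195a_an.Gr.Root

/-!
# Greedy bases: the operator on a tree is bounded
-/

set_option autoImplicit false

open Finset

namespace Pool.Agent.MP_30195a_an.Gr

namespace LPBX

/-- The Bellman function. -/
noncomputable def U (p A δ x y : ℝ) : ℝ := |y| ^ p - A * (x ^ 2 + δ * y ^ 2) ^ (p / 2)

lemma sq_rpow (s x : ℝ) : (x ^ 2) ^ s = |x| ^ (2 * s) := by
  rw [← sq_abs, ← Real.rpow_two, ← Real.rpow_mul (abs_nonneg _)]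

lemma jensen3 {q a b c : ℝ} (hq : 1 < q) (ha : 0 ≤ a) (hb : 0 ≤ b) (hc : 0 ≤ c) :
    ((a + b + c) / 3) ^ q ≤ (a ^ q + b ^ q + c ^ q) / 3 := by
  rcases (show 0 ≤ (a + b + c) / 3 by positivity).eq_or_lt with h | h
  · rw [← h, Real.zero_rpow (by linarith)]
    positivity
  · have h1 := tangent_rpow hq.le ha h
    have h2 := tangent_rpow hq.le hb h
    have h3 := tangent_rpow hq.le hc h
    linarith

lemma incr {q r d : ℝ} (hq : 1 < q) (hr : 0 ≤ r) (hd : 0 ≤ d) :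
    r ^ q + (d ^ q + r ^ (q - 1) * d) / 2 ≤ (r + d) ^ q := by
  have h1 := Real.add_rpow_le_rpow_add hr hd hq.le
  have h2 : r ^ q + r ^ (q - 1) * d ≤ (r + d) ^ q := by
    rcases hr.eq_or_lt with h | h
    · rw [← h, Real.zero_rpow (by linarith), Real.zero_rpow (by linarith)]
      simpa using Real.rpow_nonneg hd q
    · have h3 := tangent_rpow hq.le (add_nonneg hr hd) h
      have h4 : 0 ≤ r ^ (q - 1) * d := by positivity
      rw [add_sub_cancel_left] at h3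
      nlinarith
  linarith

lemma step {p A δ C : ℝ} (hp : 2 < p) (hδ : 0 < δ) (hC0 : 0 ≤ C)
    (hC : ∀ a b : ℝ,
      |a + b| ^ p ≤ |a| ^ p + p * (gp p a * b) + C * (|a| ^ (p - 2) * b ^ 2 + |b| ^ p))
    (h1 : 2 * C * 3 ^ (p / 2) ≤ A) (h2 : 2 * C ≤ A * δ ^ (p / 2 - 1))
    {x x₀ x₁ x₂ y t₀ t₁ t₂ d : ℝ} (ht : t₀ + t₁ + t₂ = 0) (hd : t₀ ^ 2 + t₁ ^ 2 + t₂ ^ 2 = 3 * d)
    (hx : x₀ ^ 2 + x₁ ^ 2 + x₂ ^ 2 = 3 * x ^ 2 + 3 * d) :
    (U p A δ x₀ (y + t₀) + U p A δ x₁ (y + t₁) + U p A δ x₂ (y + t₂)) / 3 ≤ U p A δ x y := by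
  have hq : 1 < p / 2 := by linarith
  have hd0 : 0 ≤ d := by nlinarith [sq_nonneg t₀, sq_nonneg t₁, sq_nonneg t₂]
  have hA : 0 ≤ A := le_trans (by positivity) h1
  have ht' : ∀ t : ℝ, t ^ 2 ≤ 3 * d → |t| ^ p ≤ 3 ^ (p / 2) * d ^ (p / 2) := fun t h => by
    rw [← Real.mul_rpow (by norm_num) hd0]
    refine le_trans (le_of_eq ?_) (Real.rpow_le_rpow (sq_nonneg t) h (by linarith))
    rw [sq_rpow]
    congr 1
    ring
  have a0 := ht' t₀ (by nlinarith [sq_nonneg t₁, sq_nonneg t₂])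
  have a1 := ht' t₁ (by nlinarith [sq_nonneg t₀, sq_nonneg t₂])
  have a2 := ht' t₂ (by nlinarith [sq_nonneg t₀, sq_nonneg t₁])
  have b1 : (|y + t₀| ^ p + |y + t₁| ^ p + |y + t₂| ^ p) / 3 ≤
      |y| ^ p + C * (|y| ^ (p - 2) * d + 3 ^ (p / 2) * d ^ (p / 2)) := by
    have c0 := mul_le_mul_of_nonneg_left a0 hC0
    have c1 := mul_le_mul_of_nonneg_left a1 hC0
    have c2 := mul_le_mul_of_nonneg_left a2 hC0
    have e1 : p * (gp p y * t₀) + p * (gp p y * t₁) + p * (gp p y * t₂) = 0 := by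
      linear_combination p * gp p y * ht
    have e2 : C * (|y| ^ (p - 2) * t₀ ^ 2) + C * (|y| ^ (p - 2) * t₁ ^ 2) +
        C * (|y| ^ (p - 2) * t₂ ^ 2) = 3 * (C * (|y| ^ (p - 2) * d)) := by
      linear_combination C * |y| ^ (p - 2) * hd
    linarith [hC y t₀, hC y t₁, hC y t₂]
  have hr : 0 ≤ x ^ 2 + δ * y ^ 2 := by positivity
  have b2 := jensen3 (a := x₀ ^ 2 + δ * (y + t₀) ^ 2) (b := x₁ ^ 2 + δ * (y + t₁) ^ 2)
    (c := x₂ ^ 2 + δ * (y + t₂) ^ 2) hq (by positivity) (by positivity) (by positivity)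
  have e3 : (x₀ ^ 2 + δ * (y + t₀) ^ 2 + (x₁ ^ 2 + δ * (y + t₁) ^ 2) +
      (x₂ ^ 2 + δ * (y + t₂) ^ 2)) / 3 = x ^ 2 + δ * y ^ 2 + d + δ * d := by
    linear_combination hx / 3 + δ * hd / 3 + 2 * δ * y * ht / 3
  rw [e3] at b2
  have b3 : (x ^ 2 + δ * y ^ 2 + d) ^ (p / 2) ≤ (x ^ 2 + δ * y ^ 2 + d + δ * d) ^ (p / 2) :=
    Real.rpow_le_rpow (by positivity) (le_add_of_nonneg_right (by positivity)) (by linarith)
  have b4 := incr hq hr hd0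
  have b5 : δ ^ (p / 2 - 1) * |y| ^ (p - 2) ≤ (x ^ 2 + δ * y ^ 2) ^ (p / 2 - 1) := by
    refine le_trans (le_of_eq ?_) (Real.rpow_le_rpow (x := δ * y ^ 2) (by positivity)
      (le_add_of_nonneg_left (sq_nonneg x)) (by linarith))
    rw [Real.mul_rpow hδ.le (sq_nonneg y), sq_rpow]
    congr 2
    ring
  have b6 := mul_le_mul_of_nonneg_left (b4.trans (b3.trans b2)) hA
  have b7 := mul_le_mul_of_nonneg_left (mul_le_mul_of_nonneg_right b5 hd0) hA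
  have b8 := mul_le_mul_of_nonneg_right h1 (Real.rpow_nonneg hd0 (p / 2))
  have b9 := mul_le_mul_of_nonneg_right h2
    (mul_nonneg (Real.rpow_nonneg (abs_nonneg y) (p - 2)) hd0)
  unfold U
  linarith

lemma lower {p A δ : ℝ} (hp : 2 < p) (hδ : 0 < δ) (hA : 0 ≤ A)
    (h3 : A * 2 ^ (p / 2) * δ ^ (p / 2) ≤ 1 / 2) (x y : ℝ) :
    1 / 2 * |y| ^ p - A * 2 ^ (p / 2) * |x| ^ p ≤ U p A δ x y := by
  have h1 := add_rpow_le (p := p / 2) (x := x ^ 2) (y := δ * y ^ 2) (by linarith) (sq_nonneg x)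
    (by positivity)
  rw [Real.mul_rpow hδ.le (sq_nonneg y), sq_rpow, sq_rpow, show 2 * (p / 2) = p by ring] at h1
  have h2 := mul_le_mul_of_nonneg_left h1 hA
  have h4 := mul_le_mul_of_nonneg_right h3 (Real.rpow_nonneg (abs_nonneg y) p)
  unfold U
  linarith

lemma exists_par {q C : ℝ} (hq : 1 < q) (hC : 1 ≤ C) : ∃ A δ : ℝ, 0 < δ ∧ 0 ≤ A ∧
    2 * C * 3 ^ q ≤ A ∧ 2 * C ≤ A * δ ^ (q - 1) ∧ A * 2 ^ q * δ ^ q ≤ 1 / 2 := by
  have h2 : (1 : ℝ) ≤ 2 ^ q := Real.one_le_rpow (by norm_num) (by linarith)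
  have h3 : (1 : ℝ) ≤ 3 ^ q := Real.one_le_rpow (by norm_num) (by linarith)
  obtain ⟨K, hK⟩ : ∃ K : ℝ, K = 2 * C * 3 ^ q := ⟨_, rfl⟩
  have hK1 : 2 * C ≤ K := by rw [hK]; nlinarith
  have hK0 : 0 < K := by linarith
  have hδ : 0 < 1 / (2 * 2 ^ q * K) := by positivity
  have hδ1 : 1 / (2 * 2 ^ q * K) ≤ 1 := (div_le_one (by positivity)).2 (by nlinarith)
  have hs := Real.rpow_pos_of_pos hδ (q - 1)
  have hs1 := Real.rpow_le_one hδ.le hδ1 (by linarith : 0 ≤ q - 1)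
  refine ⟨K / (1 / (2 * 2 ^ q * K)) ^ (q - 1), _, hδ, by positivity, ?_, ?_, le_of_eq ?_⟩
  · rw [← hK, le_div_iff₀ hs]
    exact mul_le_of_le_one_right hK0.le hs1
  · rw [div_mul_cancel₀ _ hs.ne']
    exact hK1
  · have e : (1 / (2 * 2 ^ q * K)) ^ q = (1 / (2 * 2 ^ q * K)) ^ (q - 1) * (1 / (2 * 2 ^ q * K)) := by
      rw [← Real.rpow_add_one hδ.ne', sub_add_cancel]
    rw [e]
    generalize (1 / (2 * 2 ^ q * K)) ^ (q - 1) = s at hs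
    field_simp

lemma av_leaf_le (S : Sys) {p : ℝ} (hp : 1 < p) (ψ : S.X → ℝ) {v : Word} (hv : S.Node v) :
    S.av v (fun x => |S.av (S.ad x) ψ| ^ p) ≤ S.av v fun x => |ψ x| ^ p := by
  refine S.induction (P := fun v => S.av v (fun x => |S.av (S.ad x) ψ| ^ p) ≤
    S.av v fun x => |ψ x| ^ p) ?_ ?_ hv
  · intro v hv hi
    rw [S.av_eq_of_const hv fun x hx => by rw [S.ad_eq hi hx]]
    exact S.abs_av_rpow_le hp hv ψ
  · intro v hi ih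
    rw [S.av_split hi, S.av_split hi]
    linarith [ih 0, ih 1, ih 2]

lemma exists_lev {p : ℝ} (hp : 2 < p) : ∃ B : ℝ, 0 ≤ B ∧ ∀ (S : Sys) (κ a : ℝ) (ψ : S.X → ℝ),
    κ ^ 2 = 1 / 3 → S.av [] (fun x => |S.lev κ a ψ (S.ad x)| ^ p) ≤
      2 * |a| ^ p + 2 * B * S.av [] fun x => |ψ x| ^ p := by
  obtain ⟨C, hC1, hC⟩ := exists_pwa hp.le
  obtain ⟨A, δ, hδ, hA, h1, h2, h3⟩ := exists_par (q := p / 2) (by linarith) hC1
  have hB : 0 ≤ A * 2 ^ (p / 2) := by positivity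
  refine ⟨A * 2 ^ (p / 2), hB, fun S κ a ψ hκ => ?_⟩
  have key : S.av [] (fun x => 1 / 2 * |S.lev κ a ψ (S.ad x)| ^ p -
      A * 2 ^ (p / 2) * |S.av (S.ad x) ψ| ^ p) ≤ U p A δ (S.av [] ψ) (S.lev κ a ψ []) := by
    refine S.induction (P := fun v => S.av v (fun x => 1 / 2 * |S.lev κ a ψ (S.ad x)| ^ p -
      A * 2 ^ (p / 2) * |S.av (S.ad x) ψ| ^ p) ≤ U p A δ (S.av v ψ) (S.lev κ a ψ v)) ?_ ?_
      (v := []) trivial
    · intro v hv hi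
      rw [S.av_eq_of_const hv fun x hx => by rw [S.ad_eq hi hx]]
      exact lower hp hδ hA h3 _ _
    · intro v hi ih
      obtain ⟨⟨e1, e2⟩, ⟨e3, e4⟩, e5, e6⟩ := Sys.fin3
      have i0 := ih 0
      have i1 := ih 1
      have i2 := ih 2
      simp only [Sys.lev, e1, e2, e3, e4, e5, e6] at i0 i1 i2
      have hs := step hp hδ (by linarith) hC h1 h2 (x := S.av v ψ) (x₀ := S.av (0 :: v) ψ)
        (x₁ := S.av (1 :: v) ψ) (x₂ := S.av (2 :: v) ψ) (y := S.lev κ a ψ v)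
        (t₀ := κ * (S.av (1 :: v) ψ - S.av (2 :: v) ψ))
        (t₁ := κ * (S.av (2 :: v) ψ - S.av (0 :: v) ψ))
        (t₂ := κ * (S.av (0 :: v) ψ - S.av (1 :: v) ψ))
        (d := ((S.av (1 :: v) ψ - S.av (2 :: v) ψ) ^ 2 + (S.av (2 :: v) ψ - S.av (0 :: v) ψ) ^ 2 +
          (S.av (0 :: v) ψ - S.av (1 :: v) ψ) ^ 2) / 9) (by ring)
        (by
          linear_combination ((S.av (1 :: v) ψ - S.av (2 :: v) ψ) ^ 2 +
            (S.av (2 :: v) ψ - S.av (0 :: v) ψ) ^ 2 + (S.av (0 :: v) ψ - S.av (1 :: v) ψ) ^ 2) * hκ)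
        (by rw [S.av_split hi]; ring)
      rw [S.av_split hi]
      linarith
  rw [S.av_sub, S.av_mul, S.av_mul] at key
  have h4 := mul_le_mul_of_nonneg_left (av_leaf_le S (p := p) (by linarith) ψ (v := []) trivial) hB
  have h5 : 0 ≤ A * (S.av [] ψ ^ 2 + δ * a ^ 2) ^ (p / 2) := by positivity
  simp only [U, Sys.lev] at key
  linarith

lemma abs_add_le' {p : ℝ} (hp : 0 ≤ p) (a b : ℝ) : |a + b| ^ p ≤ 2 ^ p * (|a| ^ p + |b| ^ p) :=
  (Real.rpow_le_rpow (abs_nonneg _) (abs_add_le a b) hp).trans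
    (add_rpow_le hp (abs_nonneg a) (abs_nonneg b))

end LPBX

open LPBX in
theorem lpb {p : ℝ} (hp : 2 < p) : ∃ D, 1 ≤ D ∧ LPB p D := by
  obtain ⟨B, hB, h⟩ := exists_lev hp
  have hp0 : 0 ≤ p := by linarith
  have h2 : (1 : ℝ) ≤ 2 ^ p := Real.one_le_rpow (by norm_num) hp0
  refine ⟨2 ^ p * (2 + 2 * B + 2 * 2 ^ p), by nlinarith, fun S κ a ψ hκ => ?_⟩
  rw [← S.av_nil fun x => |S.op κ a ψ x| ^ p, ← S.av_nil fun x => |ψ x| ^ p]
  have h1 : S.av [] (fun x => |S.op κ a ψ x| ^ p) ≤ S.av [] fun x =>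
      2 ^ p * (|S.lev κ a ψ (S.ad x)| ^ p + 2 ^ p * (|ψ x| ^ p + |S.av (S.ad x) ψ| ^ p)) := by
    refine S.av_mono fun x _ => ?_
    have a1 := abs_add_le' hp0 (S.lev κ a ψ (S.ad x)) (ψ x + -S.av (S.ad x) ψ)
    have a2 := abs_add_le' hp0 (ψ x) (-S.av (S.ad x) ψ)
    rw [abs_neg] at a2
    rw [Sys.op, sub_eq_add_neg, add_assoc]
    refine a1.trans ?_
    gcongr
  rw [S.av_mul, S.av_add, S.av_mul, S.av_add] at h1
  have h3 := h S κ a ψ hκ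
  have h4 := av_leaf_le S (p := p) (by linarith) ψ (v := []) trivial
  have h5 : 0 ≤ S.av [] fun x => |ψ x| ^ p := S.av_nonneg fun x _ => by positivity
  have h6 : 0 ≤ |a| ^ p := by positivity
  refine h1.trans ?_
  rw [mul_assoc]
  refine mul_le_mul_of_nonneg_left ?_ (by positivity)
  have h7 := mul_le_mul_of_nonneg_left h4 (by positivity : (0 : ℝ) ≤ 2 ^ p)
  nlinarith [mul_nonneg hB h6, mul_nonneg (zero_le_one.trans h2) h6]

end Pool.Agent.MP_30195a_an.Gr
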