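import Pool.Agent.MP_30195a_an.Gr.SpecL

/-!
# Greedy bases: the blocks placed in `L_p[0,1]` and the lower bound
-/

set_option autoImplicit false

open MeasureTheory Finset
open scoped ENNReal

namespace Pool.Agent.MP_30195a_an.Gr

namespace LowerX

lemma arith {γ A : ℝ} (hγ0 : 0 ≤ γ) (hγ1 : γ ≤ 1) (hA : 1 ≤ A) {Φ : ℝ → ℝ}
    (hΦ : ∀ x : ℝ, 1 ≤ x → 1 ≤ Φ x)
    (h : ∀ n m : ℕ, 1 ≤ m → A * 3 ^ n ≤ m → 3 ^ n * (1 + (n : ℝ)) ^ γ ≤ 2 * (Φ m * m)) :
    ∃ κ : ℝ, 0 < κ ∧ ∀ m : ℕ, 1 ≤ m → κ * (1 + Real.log m) ^ γ ≤ Φ m := by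
  have hA0 : 0 < A := by linarith
  have l1 : 0 ≤ Real.log A := Real.log_nonneg hA
  have l3 : 0 ≤ Real.log 3 := Real.log_nonneg (by norm_num)
  set L := 1 + Real.log A + Real.log 3 with hL
  have hL1 : 1 ≤ L := by linarith
  refine ⟨(6 * A * L)⁻¹, by positivity, fun m hm => ?_⟩
  have hm1 : (1 : ℝ) ≤ m := by exact_mod_cast hm
  have hm0 : (0 : ℝ) < m := by linarith
  have lm : 0 ≤ Real.log m := Real.log_nonneg hm1
  rw [inv_mul_le_iff₀ (by positivity)]
  have hΦm := hΦ m hm1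
  rcases le_total (m : ℝ) A with hc | hc
  · have h1 : Real.log m ≤ Real.log A := Real.log_le_log hm0 hc
    have h2 : (1 + Real.log m) ^ γ ≤ 1 + Real.log m := by
      have := Real.rpow_le_rpow_of_exponent_le (x := 1 + Real.log m) (by linarith) hγ1
      rwa [Real.rpow_one] at this
    have h3 : L * 1 ≤ L * (6 * A * Φ m) :=
      mul_le_mul_of_nonneg_left (by nlinarith) (by linarith)
    nlinarith
  · obtain ⟨n, h1, h2⟩ := exists_nat_pow_near (x := (m : ℝ) / A) (y := 3)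
      ((one_le_div hA0).2 hc) (by norm_num)
    rw [le_div_iff₀' hA0] at h1
    rw [div_lt_iff₀' hA0] at h2
    have h3 := h n m hm h1
    have n0 : (0 : ℝ) ≤ n := Nat.cast_nonneg n
    have h4 : 1 + Real.log m ≤ (1 + n) * L := by
      have := Real.log_le_log hm0 h2.le
      rw [Real.log_mul hA0.ne' (by positivity), Real.log_pow] at this
      push_cast at this
      have a1 := mul_nonneg n0 l1
      rw [hL]
      nlinarith
    have h5 : (1 + Real.log m) ^ γ ≤ (1 + (n : ℝ)) ^ γ * L := by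
      refine (Real.rpow_le_rpow (by linarith) h4 hγ0).trans ?_
      rw [Real.mul_rpow (by linarith) (by linarith)]
      refine mul_le_mul_of_nonneg_left ?_ (by positivity)
      have := Real.rpow_le_rpow_of_exponent_le hL1 hγ1
      rwa [Real.rpow_one] at this
    have h6 : (1 + (n : ℝ)) ^ γ ≤ 6 * A * Φ m := by
      have a1 : Φ m * m ≤ Φ m * (A * 3 ^ (n + 1)) :=
        mul_le_mul_of_nonneg_left h2.le (by linarith)
      have a2 : (3 : ℝ) ^ n * (1 + (n : ℝ)) ^ γ ≤ 3 ^ n * (6 * A * Φ m) := by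
        rw [pow_succ] at a1
        linarith
      exact le_of_mul_le_mul_left a2 (by positivity)
    have h7 := mul_le_mul_of_nonneg_right h6 (by linarith : 0 ≤ L)
    linarith

lemma sigma_le {X : Type*} [NormedAddCommGroup X] [NormedSpace ℝ X] {α : Type*} [Nonempty α]
    {S : Set X} {w : α → X} (hw : ∀ a, w a ∈ S) (b : α → ℝ) {G : Finset α} {m : ℕ}
    (hG : G.card ≤ m) (f : X) : sigma S m f ≤ ‖f - ∑ a ∈ G, b a • w a‖ := by
  obtain ⟨j⟩ := Function.Embedding.nonempty_of_card_le (α := G) (β := Fin m) (by simpa using hG)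
  refine csInf_le ⟨0, ?_⟩ ⟨Function.extend j (fun a => w a) fun _ => w (Classical.arbitrary α),
    Function.extend j (fun a => b a) fun _ => 0, fun i => ?_, ?_⟩
  · rintro _ ⟨_, _, _, rfl⟩
    exact norm_nonneg _
  · by_cases hi : ∃ a, j a = i
    · obtain ⟨a, rfl⟩ := hi
      rw [j.injective.extend_apply]
      exact hw a
    · rw [Function.extend_apply' _ _ _ hi]
      exact hw _
  · congr 2
    rw [← sum_coe_sort G]
    refine Fintype.sum_of_injective j j.injective _ _ (fun i hi => ?_) fun a => ?_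
    · rw [Function.extend_apply' (fun a : G => b a) _ _ hi, zero_smul]
    · rw [j.injective.extend_apply, j.injective.extend_apply]

lemma sigma_nonneg {X : Type*} [NormedAddCommGroup X] [NormedSpace ℝ X] (S : Set X) (m : ℕ)
    (f : X) : 0 ≤ sigma S m f := by
  refine Real.sInf_nonneg ?_
  rintro _ ⟨_, _, _, rfl⟩
  exact norm_nonneg _

lemma gp_mul {P a : ℝ} (ha : 0 < a) (x : ℝ) : gp P (a * x) = a ^ (P - 1) * gp P x := by
  unfold gp
  rw [abs_mul, Real.mul_rpow (abs_nonneg _) (abs_nonneg _), abs_of_pos ha,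
    show P - 1 = P - 2 + 1 by ring, Real.rpow_add_one ha.ne']
  ring

lemma le_of_rpow {P D a b : ℝ} (hP : 1 ≤ P) (hD : 1 ≤ D) (ha : 0 ≤ a) (hb : 0 ≤ b)
    (h : a ^ P ≤ D * b ^ P) : a ≤ D * b := by
  have h1 : D ≤ D ^ P := by
    have := Real.rpow_le_rpow_of_exponent_le hD hP
    rwa [Real.rpow_one] at this
  rw [← Real.rpow_le_rpow_iff ha (by positivity) (by linarith : 0 < P),
    Real.mul_rpow (by linarith) hb]
  exact h.trans (mul_le_mul_of_nonneg_right h1 (by positivity))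

lemma sum_single {P D : ℝ} (hP : 0 < P) (B : WB P D) (c : B.Y) :
    ∑ y, B.μ y * |(Pi.single c 1 : B.Y → ℝ) y| ^ P = B.μ c := by
  rw [sum_eq_single c]
  · simp
  · intro y _ hy
    simp [hy, hP.ne']
  · simp

lemma en_le {P D : ℝ} (B : WB P D) (φ : B.Y → ℝ) :
    B.en φ ≤ D * ∑ y, B.μ y * |φ y| ^ P := B.bd φ

lemma le_en {P D : ℝ} (B : WB P D) (φ : B.Y → ℝ) :
    ∑ y, B.μ y * |φ y| ^ P ≤ D * B.en φ := by
  have := B.bd' (B.T φ)
  rwa [B.inv] at this

variable {p : ℝ≥0∞} [Fact (1 ≤ p)] (E : Emb p) {D : ℝ} {I : Type} (B : I → WB p.toReal D)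
  (e : (Σ i, (B i).Y) ≃ ℕ)

lemma norm_e (S : Finset (Σ i, (B i).Y)) (a : (Σ i, (B i).Y) → ℝ) :
    ‖∑ k ∈ S, a k • E.χ (e k)‖ ^ p.toReal = ∑ k ∈ S, |a k| ^ p.toReal := by
  have := E.norm_χ (S.map e.toEmbedding) fun j => a (e.symm j)
  simpa using this

lemma norming_e (S : Finset (Σ i, (B i).Y)) (a : (Σ i, (B i).Y) → ℝ)
    (F : StrongDual ℝ (Lp ℝ p unitMeas)) (h0 : ∑ k ∈ S, a k • E.χ (e k) ≠ 0)
    (hF : IsNorming F (∑ k ∈ S, a k • E.χ (e k))) :
    (∀ k, k ∈ S → ‖∑ k ∈ S, a k • E.χ (e k)‖ ^ (p.toReal - 1) * F (E.χ (e k))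
      = gp p.toReal (a k)) ∧
    (∀ k, k ∉ S → ‖∑ k ∈ S, a k • E.χ (e k)‖ ^ (p.toReal - 1) * F (E.χ (e k)) = 0) ∧
      ∀ i, F (E.h i) = 0 := by
  have e1 : ∑ j ∈ S.map e.toEmbedding, a (e.symm j) • E.χ j = ∑ k ∈ S, a k • E.χ (e k) := by
    simp
  have := E.norming (S.map e.toEmbedding) (fun j => a (e.symm j)) F (by rwa [e1]) (by rwa [e1])
  rw [e1] at this
  refine ⟨fun k hk => ?_, fun k hk => ?_, this.2⟩
  · have h1 := this.1 (e k)
    rwa [if_pos (by simpa using hk), e.symm_apply_apply] at h1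
  · have h1 := this.1 (e k)
    rwa [if_neg (by simpa using hk)] at h1

/-- The isometric copy of the weighted space of a block. -/
noncomputable def J (i : I) : ((B i).Y → ℝ) →ₗ[ℝ] Lp ℝ p unitMeas where
  toFun ψ := ∑ y, ((B i).μ y ^ (1 / p.toReal) * ψ y) • E.χ (e ⟨i, y⟩)
  map_add' ψ ψ' := by simp only [Pi.add_apply, mul_add, add_smul, sum_add_distrib]
  map_smul' c ψ := by
    simp only [Pi.smul_apply, smul_eq_mul, RingHom.id_apply, smul_sum, smul_smul]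
    exact sum_congr rfl fun y _ => by rw [mul_left_comm]

lemma J_apply (i : I) (ψ : (B i).Y → ℝ) :
    J E B e i ψ = ∑ y, ((B i).μ y ^ (1 / p.toReal) * ψ y) • E.χ (e ⟨i, y⟩) := rfl

lemma sum_J (A : Finset I) (ψ : ∀ i, (B i).Y → ℝ) :
    ∑ i ∈ A, J E B e i (ψ i) = ∑ k ∈ A.sigma fun _ => univ,
      ((B k.1).μ k.2 ^ (1 / p.toReal) * ψ k.1 k.2) • E.χ (e k) := by
  rw [sum_sigma]
  rfl

lemma norm_sum_J (hP : 0 < p.toReal) (A : Finset I) (ψ : ∀ i, (B i).Y → ℝ) :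
    ‖∑ i ∈ A, J E B e i (ψ i)‖ ^ p.toReal
      = ∑ i ∈ A, ∑ y, (B i).μ y * |ψ i y| ^ p.toReal := by
  rw [sum_J, norm_e, sum_sigma]
  refine sum_congr rfl fun i _ => sum_congr rfl fun y _ => ?_
  have := (B i).μ_pos y
  rw [abs_mul, Real.mul_rpow (abs_nonneg _) (abs_nonneg _), abs_of_pos (by positivity), one_div,
    Real.rpow_inv_rpow this.le hP.ne']

/-- The cells of one block. -/
def cells (i : I) : (B i).Y ↪ Σ i, (B i).Y :=
  ⟨fun y => ⟨i, y⟩, sigma_mk_injective (β := fun i => (B i).Y)⟩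

lemma J_map (i : I) (ψ : (B i).Y → ℝ) : ∃ a : (Σ i, (B i).Y) → ℝ,
    (∀ y, a ⟨i, y⟩ = (B i).μ y ^ (1 / p.toReal) * ψ y) ∧
      J E B e i ψ = ∑ k ∈ univ.map (cells B i), a k • E.χ (e k) := by
  refine ⟨Function.extend (cells B i) (fun y => (B i).μ y ^ (1 / p.toReal) * ψ y) fun _ => 0,
    fun y => (cells B i).injective.extend_apply _ _ y, ?_⟩
  rw [sum_map, J_apply]
  exact sum_congr rfl fun y _ => by rw [(cells B i).injective.extend_apply]; rfl

lemma norm_J (hP : 0 < p.toReal) (i : I) (ψ : (B i).Y → ℝ) :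
    ‖J E B e i ψ‖ ^ p.toReal = ∑ y, (B i).μ y * |ψ y| ^ p.toReal := by
  obtain ⟨a, ha, h⟩ := J_map E B e i ψ
  rw [h, norm_e, sum_map]
  refine sum_congr rfl fun y _ => ?_
  have := (B i).μ_pos y
  rw [show a (cells B i y) = _ from ha y, abs_mul, Real.mul_rpow (abs_nonneg _) (abs_nonneg _),
    abs_of_pos (by positivity), one_div, Real.rpow_inv_rpow this.le hP.ne']

lemma norming_J (hP : 0 < p.toReal) (i : I) (ψ : (B i).Y → ℝ)
    (F : StrongDual ℝ (Lp ℝ p unitMeas)) (h0 : J E B e i ψ ≠ 0) (hF : IsNorming F (J E B e i ψ)) :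
    (∀ ψ', ‖J E B e i ψ‖ ^ (p.toReal - 1) * F (J E B e i ψ')
      = ∑ y, (B i).μ y * (gp p.toReal (ψ y) * ψ' y)) ∧
    (∀ i', i' ≠ i → ∀ ψ', F (J E B e i' ψ') = 0) ∧ ∀ j, F (E.h j) = 0 := by
  obtain ⟨a, ha, h⟩ := J_map E B e i ψ
  obtain ⟨h1, h2, h3⟩ := norming_e E B e _ a F (h ▸ h0) (h ▸ hF)
  rw [← h] at h1 h2
  refine ⟨fun ψ' => ?_, fun i' hi ψ' => ?_, h3⟩
  · rw [J_apply E B e i ψ', map_sum, mul_sum]
    refine sum_congr rfl fun y _ => ?_
    have hμ := (B i).μ_pos y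
    have h4 := h1 ⟨i, y⟩ (mem_map.2 ⟨y, mem_univ _, rfl⟩)
    rw [ha, gp_mul (by positivity)] at h4
    have h5 : (B i).μ y ^ (1 / p.toReal) * ((B i).μ y ^ (1 / p.toReal)) ^ (p.toReal - 1)
        = (B i).μ y := by
      rw [mul_comm, ← Real.rpow_add_one (by positivity), sub_add_cancel, one_div,
        Real.rpow_inv_rpow hμ.le hP.ne']
    rw [map_smul, smul_eq_mul, mul_left_comm, h4]
    linear_combination (gp p.toReal (ψ y) * ψ' y) * h5
  · rw [J_apply, map_sum]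
    refine sum_eq_zero fun y _ => ?_
    have h4 := h2 ⟨i', y⟩ fun hy => by
      obtain ⟨y', _, hy'⟩ := mem_map.1 hy
      exact hi (congrArg Sigma.fst hy').symm
    have h5 : 0 < ‖J E B e i ψ‖ ^ (p.toReal - 1) :=
      Real.rpow_pos_of_pos (norm_pos_iff.2 h0) _
    rw [map_smul, (mul_eq_zero.1 h4).resolve_left h5.ne', smul_zero]

/-- The synthesis map of a block. -/
noncomputable def L (i : I) : ((B i).Y → ℝ) →ₗ[ℝ] Lp ℝ p unitMeas := (J E B e i).comp (B i).T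

lemma norm_L (hP : 0 < p.toReal) (i : I) (φ : (B i).Y → ℝ) :
    ‖L E B e i φ‖ ^ p.toReal = (B i).en φ := norm_J E B e hP i _

/-- The norm of the vector of a cell. -/
noncomputable def nr (k : Σ i, (B i).Y) : ℝ := ‖L E B e k.1 (Pi.single k.2 1)‖

/-- The normalized vector of a cell. -/
noncomputable def vec (k : Σ i, (B i).Y) : Lp ℝ p unitMeas :=
  (nr E B e k)⁻¹ • L E B e k.1 (Pi.single k.2 1)

lemma nr_le (hP : 0 < p.toReal) (k : Σ i, (B i).Y) :
    nr E B e k ^ p.toReal ≤ D * (B k.1).μ k.2 := by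
  rw [nr, norm_L E B e hP, ← sum_single hP]
  exact en_le _ _

lemma le_nr (hP : 0 < p.toReal) (k : Σ i, (B i).Y) :
    (B k.1).μ k.2 ≤ D * nr E B e k ^ p.toReal := by
  rw [nr, norm_L E B e hP, ← sum_single hP]
  exact le_en _ _

lemma nr_pos (hP : 0 < p.toReal) (k : Σ i, (B i).Y) : 0 < nr E B e k := by
  refine (norm_nonneg _).lt_of_ne fun h => ?_
  have h1 := le_nr E B e hP k
  have h2 := (B k.1).μ_pos k.2
  rw [nr, ← h, Real.zero_rpow hP.ne'] at h1
  linarith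

lemma norm_vec (hP : 0 < p.toReal) (k : Σ i, (B i).Y) : ‖vec E B e k‖ = 1 := by
  have := nr_pos E B e hP k
  rw [vec, norm_smul, Real.norm_of_nonneg (by positivity)]
  exact inv_mul_cancel₀ this.ne'

lemma L_single (hP : 0 < p.toReal) (i : I) (c : (B i).Y) :
    L E B e i (Pi.single c 1) = nr E B e ⟨i, c⟩ • vec E B e ⟨i, c⟩ := by
  rw [vec, smul_smul, mul_inv_cancel₀ (nr_pos E B e hP _).ne', one_smul]

lemma L_eq (hP : 0 < p.toReal) (i : I) (φ : (B i).Y → ℝ) :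
    L E B e i φ = ∑ c, (φ c * nr E B e ⟨i, c⟩) • vec E B e ⟨i, c⟩ := by
  have h : φ = ∑ c, φ c • (Pi.single c 1 : (B i).Y → ℝ) := by
    funext y
    simp [Pi.single_apply]
  conv_lhs => rw [h, map_sum]
  exact sum_congr rfl fun c _ => by rw [map_smul, L_single E B e hP, smul_smul]

lemma J_mem (i : I) (ψ : (B i).Y → ℝ) : J E B e i ψ ∈ Submodule.span ℝ (Set.range E.χ) :=
  Submodule.sum_mem _ fun _ _ => Submodule.smul_mem _ _ (Submodule.subset_span ⟨_, rfl⟩)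

lemma vec_mem (k : Σ i, (B i).Y) : vec E B e k ∈ Submodule.span ℝ (Set.range E.χ) :=
  Submodule.smul_mem _ _ (J_mem E B e _ _)

lemma chi_mem (hP : 0 < p.toReal) (j : ℕ) :
    E.χ j ∈ Submodule.span ℝ (Set.range (vec E B e)) := by
  obtain ⟨⟨i, y⟩, rfl⟩ := e.surjective j
  have hs : Function.Surjective (B i).T :=
    LinearMap.injective_iff_surjective.1 (Function.LeftInverse.injective (B i).inv)
  obtain ⟨φ, hφ⟩ := hs (Pi.single y ((B i).μ y ^ (1 / p.toReal))⁻¹)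
  have hμ := (B i).μ_pos y
  have h : E.χ (e ⟨i, y⟩) = L E B e i φ := by
    rw [L, LinearMap.comp_apply, hφ, J_apply, sum_eq_single y]
    · rw [Pi.single_eq_same, mul_inv_cancel₀ (by positivity), one_smul]
    · intro y' _ hy
      simp [hy]
    · simp
  rw [h, L_eq E B e hP]
  exact Submodule.sum_mem _ fun _ _ => Submodule.smul_mem _ _ (Submodule.subset_span ⟨_, rfl⟩)

lemma equiv_lp (hP : 0 < p.toReal) (hD : 1 ≤ D) (S : Finset (Σ i, (B i).Y))
    (a : (Σ i, (B i).Y) → ℝ) :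
    ∑ k ∈ S, |a k| ^ p.toReal ≤ D ^ 2 * ‖∑ k ∈ S, a k • vec E B e k‖ ^ p.toReal ∧
      ‖∑ k ∈ S, a k • vec E B e k‖ ^ p.toReal ≤ D ^ 2 * ∑ k ∈ S, |a k| ^ p.toReal := by
  classical
  have hD0 : 0 ≤ D := by linarith
  let b : (Σ i, (B i).Y) → ℝ := fun k => if k ∈ S then a k else 0
  let φ : ∀ i, (B i).Y → ℝ := fun i c => b ⟨i, c⟩ / nr E B e ⟨i, c⟩
  have hsub : S ⊆ (S.image Sigma.fst).sigma fun _ => univ := fun k hk =>
    mem_sigma.2 ⟨mem_image_of_mem _ hk, mem_univ _⟩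
  have h1 : ∑ k ∈ S, a k • vec E B e k = ∑ i ∈ S.image Sigma.fst, J E B e i ((B i).T (φ i)) := by
    have : ∀ i, J E B e i ((B i).T (φ i)) = ∑ c, b ⟨i, c⟩ • vec E B e ⟨i, c⟩ := fun i => by
      refine (L_eq E B e hP i (φ i)).trans (sum_congr rfl fun c _ => ?_)
      rw [div_mul_cancel₀ _ (nr_pos E B e hP _).ne']
    rw [sum_congr rfl fun i _ => this i, ← sum_sigma (f := fun k => b k • vec E B e k),
      ← sum_subset hsub]
    · exact sum_congr rfl fun k hk => by simp only [b, if_pos hk]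
    · intro k _ hk
      simp only [b, if_neg hk, zero_smul]
  have h2 : ∑ k ∈ S, |a k| ^ p.toReal = ∑ i ∈ S.image Sigma.fst, ∑ c, |b ⟨i, c⟩| ^ p.toReal := by
    rw [← sum_sigma (f := fun k => |b k| ^ p.toReal), ← sum_subset hsub]
    · exact sum_congr rfl fun k hk => by simp only [b, if_pos hk]
    · intro k _ hk
      simp only [b, if_neg hk, abs_zero, Real.zero_rpow hP.ne']
  have h3 : ∀ i c, |b ⟨i, c⟩| ^ p.toReal = nr E B e ⟨i, c⟩ ^ p.toReal * |φ i c| ^ p.toReal :=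
    fun i c => by
      have := nr_pos E B e hP ⟨i, c⟩
      rw [← Real.mul_rpow this.le (abs_nonneg _), abs_div, abs_of_pos this,
        mul_div_cancel₀ _ this.ne']
  rw [h1, norm_sum_J E B e hP, h2, mul_sum, mul_sum]
  refine ⟨sum_le_sum fun i _ => ?_, sum_le_sum fun i _ => ?_⟩
  · have a1 : ∑ c, |b ⟨i, c⟩| ^ p.toReal ≤ D * ∑ c, (B i).μ c * |φ i c| ^ p.toReal := by
      rw [mul_sum]
      refine sum_le_sum fun c _ => ?_
      rw [h3, ← mul_assoc]
      exact mul_le_mul_of_nonneg_right (nr_le E B e hP ⟨i, c⟩) (by positivity)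
    have a2 := mul_le_mul_of_nonneg_left (le_en (B i) (φ i)) hD0
    rw [WB.en] at a2
    linarith
  · have a1 : ∑ c, (B i).μ c * |φ i c| ^ p.toReal ≤ D * ∑ c, |b ⟨i, c⟩| ^ p.toReal := by
      rw [mul_sum]
      refine sum_le_sum fun c _ => ?_
      rw [h3, ← mul_assoc]
      exact mul_le_mul_of_nonneg_right (le_nr E B e hP ⟨i, c⟩) (by positivity)
    have a2 := mul_le_mul_of_nonneg_left a1 hD0
    have a3 := en_le (B i) (φ i)
    rw [WB.en] at a3
    linarith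

/-- The cells of one block as indices of the basis. -/
def lift (i : I) : (B i).Y ↪ (Σ i, (B i).Y) ⊕ E.ι :=
  ⟨fun c => Sum.inl ⟨i, c⟩, Sum.inl_injective.comp sigma_mk_injective⟩

lemma image_lift (i : I) (Λ : Finset (B i).Y) :
    Sum.elim (vec E B e) E.h '' (Λ.map (lift E B i) : Set _)
      = (fun c => vec E B e ⟨i, c⟩) '' (Λ : Set _) := by
  rw [coe_map, Set.image_image]
  rfl

/-- A best residual comes from a state. -/
lemma state_of_best (hP : 1 < p.toReal) (i : I) (φ₀ : (B i).Y → ℝ) (Λ : Finset (B i).Y)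
    (r : Lp ℝ p unitMeas)
    (h1 : L E B e i φ₀ - r ∈ Submodule.span ℝ ((fun c => vec E B e ⟨i, c⟩) '' (Λ : Set _)))
    (h2 : ∀ G ∈ Submodule.span ℝ ((fun c => vec E B e ⟨i, c⟩) '' (Λ : Set _)),
      ‖r‖ ≤ ‖L E B e i φ₀ - G‖) : ∃ φ, (B i).IsState φ₀ Λ φ ∧ r = L E B e i φ := by
  have hP0 : 0 < p.toReal := by linarith
  obtain ⟨g, hg⟩ := (Submodule.mem_span_image_finset_iff_exists_fun' ℝ).1 h1
  let δ : (B i).Y → ℝ := fun c => if c ∈ Λ then g c / nr E B e ⟨i, c⟩ else 0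
  have hδ : L E B e i δ = L E B e i φ₀ - r := by
    rw [← hg, L_eq E B e hP0, ← sum_subset (subset_univ Λ)]
    · exact sum_congr rfl fun c hc => by
        simp only [δ, if_pos hc, div_mul_cancel₀ _ (nr_pos E B e hP0 _).ne']
    · intro c _ hc
      simp only [δ, if_neg hc, zero_mul, zero_smul]
  have hr : r = L E B e i (φ₀ - δ) := by rw [map_sub, hδ, sub_sub_cancel]
  refine ⟨φ₀ - δ, ⟨fun c hc => by simp only [δ, Pi.sub_apply, if_neg hc, sub_zero],
    fun c hc => (B i).phi_eq_zero hP _ c fun l => ?_⟩, hr⟩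
  have h3 := h2 (L E B e i φ₀ - r - l • L E B e i (Pi.single c 1))
    (Submodule.sub_mem _ h1 (Submodule.smul_mem _ _ (by
      rw [L_single E B e hP0]
      exact Submodule.smul_mem _ _ (Submodule.subset_span ⟨c, hc, rfl⟩))))
  rw [← norm_L E B e hP0, ← norm_L E B e hP0, map_add, map_smul, ← hr]
  refine Real.rpow_le_rpow (norm_nonneg _) (h3.trans (le_of_eq ?_)) hP0.le
  congr 1
  abel

/-- The values of a norming functional of a residual. -/
lemma force (hP : 1 < p.toReal) (hD : 1 ≤ D) (i : I) (φ : (B i).Y → ℝ)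
    (F : StrongDual ℝ (Lp ℝ p unitMeas)) (h0 : L E B e i φ ≠ 0) (hF : IsNorming F (L E B e i φ))
    {t : ℝ} (ht : 0 ≤ t) {c : (B i).Y} (hc : ∀ c', t * (B i).frc φ c' ≤ (B i).frc φ c)
    (j : (Σ i, (B i).Y) ⊕ E.ι) :
    t / D ^ 2 * |F (Sum.elim (vec E B e) E.h j)| ≤ |F (vec E B e ⟨i, c⟩)| := by
  have hP0 : 0 < p.toReal := by linarith
  have hD0 : 0 < D := by linarith
  obtain ⟨h1, h2, h3⟩ := norming_J E B e hP0 i ((B i).T φ) F h0 hF
  have hw : 0 < ‖L E B e i φ‖ ^ (p.toReal - 1) := Real.rpow_pos_of_pos (norm_pos_iff.2 h0) _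
  have key : ∀ c, ‖L E B e i φ‖ ^ (p.toReal - 1) * |F (vec E B e ⟨i, c⟩)| * nr E B e ⟨i, c⟩
      = (B i).frc φ c * (B i).μ c ^ (1 / p.toReal) := fun c => by
    have a1 := h1 ((B i).T (Pi.single c 1))
    have hμ := (B i).μ_pos c
    have hn := nr_pos E B e hP0 ⟨i, c⟩
    rw [(B i).adj (Pi.single c 1) fun y => gp p.toReal ((B i).T φ y), sum_eq_single c
      (fun y _ hy => by simp [hy]) (by simp), Pi.single_eq_same, mul_one] at a1
    have a2 : ‖L E B e i φ‖ ^ (p.toReal - 1) * (nr E B e ⟨i, c⟩ * F (vec E B e ⟨i, c⟩))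
        = (B i).μ c * (B i).phi φ c := by
      rw [← smul_eq_mul (nr E B e ⟨i, c⟩), ← map_smul, ← L_single E B e hP0]
      exact a1
    have a3 := congrArg abs a2
    rw [abs_mul, abs_mul, abs_mul, abs_of_pos hw, abs_of_pos hn, abs_of_pos hμ] at a3
    have a4 : (B i).μ c ^ (1 - 1 / p.toReal) * (B i).μ c ^ (1 / p.toReal) = (B i).μ c := by
      rw [← Real.rpow_add hμ, sub_add_cancel, Real.rpow_one]
    rw [WB.frc]
    linear_combination a3 - |(B i).phi φ c| * a4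
  have hμP : ∀ c, ((B i).μ c ^ (1 / p.toReal)) ^ p.toReal = (B i).μ c := fun c => by
    rw [one_div, Real.rpow_inv_rpow ((B i).μ_pos c).le hP0.ne']
  have hfr : ∀ c, 0 ≤ (B i).frc φ c := fun c =>
    mul_nonneg (Real.rpow_nonneg ((B i).μ_pos c).le _) (abs_nonneg _)
  rcases j with ⟨i', c'⟩ | j
  · by_cases hi : i' = i
    · subst hi
      have hμ := (B i').μ_pos c
      have hμ' := (B i').μ_pos c'
      have hn := nr_pos E B e hP0 ⟨i', c⟩
      have hn' := nr_pos E B e hP0 ⟨i', c'⟩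
      have b1 : nr E B e ⟨i', c⟩ ≤ D * (B i').μ c ^ (1 / p.toReal) :=
        le_of_rpow hP.le hD hn.le (by positivity) (by rw [hμP]; exact nr_le E B e hP0 ⟨i', c⟩)
      have b2 : (B i').μ c' ^ (1 / p.toReal) ≤ D * nr E B e ⟨i', c'⟩ :=
        le_of_rpow hP.le hD (by positivity) hn'.le (by rw [hμP]; exact le_nr E B e hP0 ⟨i', c'⟩)
      have b3 : ‖L E B e i' φ‖ ^ (p.toReal - 1) * |F (vec E B e ⟨i', c'⟩)|
          ≤ D * (B i').frc φ c' := by
        refine le_of_mul_le_mul_right ?_ hn'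
        have := mul_le_mul_of_nonneg_left b2 (hfr c')
        rw [key]
        linarith
      have b4 : (B i').frc φ c
          ≤ D * (‖L E B e i' φ‖ ^ (p.toReal - 1) * |F (vec E B e ⟨i', c⟩)|) := by
        refine le_of_mul_le_mul_right ?_ (by positivity : 0 < (B i').μ c ^ (1 / p.toReal))
        have := mul_le_mul_of_nonneg_left b1
          (by positivity : 0 ≤ ‖L E B e i' φ‖ ^ (p.toReal - 1) * |F (vec E B e ⟨i', c⟩)|)
        rw [← key]
        linarith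
      have b5 := mul_le_mul_of_nonneg_left b3 ht
      have b6 := mul_le_mul_of_nonneg_left ((hc c').trans b4) hD0.le
      rw [Sum.elim_inl, div_mul_eq_mul_div, div_le_iff₀ (by positivity)]
      refine le_of_mul_le_mul_left ?_ hw
      linarith
    · have : F (vec E B e ⟨i', c'⟩) = 0 := by
        rw [vec, map_smul, show F (L E B e i' (Pi.single c' 1)) = 0 from h2 i' hi _, smul_zero]
      rw [Sum.elim_inl, this, abs_zero, mul_zero]
      exact abs_nonneg _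
  · rw [Sum.elim_inr, h3, abs_zero, mul_zero]
    exact abs_nonneg _

/-- A slow block gives a slow run. -/
lemma slow_run (hP : 1 < p.toReal) (hD : 1 ≤ D) (hR : RunStmt)
    (hmax : ∀ F : StrongDual ℝ (Lp ℝ p unitMeas), ∃ j, ∀ i,
      |F (Sum.elim (vec E B e) E.h i)| ≤ |F (Sum.elim (vec E B e) E.h j)|)
    {t En R : ℝ} (ht : 0 < t) (ht1 : t ≤ 1) (hR0 : 0 < R) (i : I) {N m : ℕ}
    (hs : (B i).Slow t N m En R) :
    ∃ (f₀ : Lp ℝ p unitMeas) (φ f : ℕ → Lp ℝ p unitMeas),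
      IsRun (Set.range (Sum.elim (vec E B e) E.h)) (t / D ^ 2) f₀ φ f ∧
      sigma (Set.range (Sum.elim (vec E B e) E.h)) m f₀ ^ p.toReal ≤ En ∧
      ∀ k ≤ N, R ≤ ‖f k‖ ^ p.toReal := by
  classical
  have hP0 : 0 < p.toReal := by linarith
  obtain ⟨φ₀, P, G, hP1, hG, hE, hlow, hsel⟩ := hs
  obtain ⟨idx, f, h1, h2, h3⟩ := hR _ _ (Sum.elim (vec E B e) E.h) (t / D ^ 2) (L E B e i φ₀)
    (fun Λ' => ∃ Λ, P Λ ∧ Λ' = Λ.map (lift E B i)) N (by positivity)
    (div_le_one_of_le₀ (ht1.trans (one_le_pow₀ hD)) (by positivity)) hmax ⟨∅, hP1, rfl⟩ (by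
      rintro _ r ⟨Λ, hΛ, rfl⟩ hc a1 a2
      rw [image_lift] at a1 a2
      rw [card_map] at hc
      obtain ⟨φ, hφ, rfl⟩ := state_of_best E B e hP i φ₀ Λ r a1 a2
      obtain ⟨c, c1, c2, c3⟩ := hsel Λ φ hΛ hc hφ
      have h0 : L E B e i φ ≠ 0 := fun h => by
        have := hlow Λ φ hΛ hφ
        rw [← norm_L E B e hP0, h, norm_zero, Real.zero_rpow hP0.ne'] at this
        linarith
      obtain ⟨F, hF1, hF2⟩ := exists_dual_vector ℝ _ (norm_ne_zero_iff.2 h0)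
      have hF : IsNorming F (L E B e i φ) := ⟨hF1, by simpa using hF2⟩
      exact ⟨lift E B i c, fun h => c1 ((mem_map' _).1 h), ⟨insert c Λ, c2, by rw [map_insert]⟩,
        F, hF, force E B e hP hD i φ F h0 hF ht.le c3⟩)
  refine ⟨_, _, f, h2, ?_, fun k hk => ?_⟩
  · have a1 := sigma_le (S := Set.range (Sum.elim (vec E B e) E.h))
      (w := fun c => vec E B e ⟨i, c⟩) (fun c => ⟨Sum.inl ⟨i, c⟩, rfl⟩)
      (fun c => φ₀ c * nr E B e ⟨i, c⟩) hG (L E B e i φ₀)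
    have a2 : L E B e i φ₀ - ∑ c ∈ G, (φ₀ c * nr E B e ⟨i, c⟩) • vec E B e ⟨i, c⟩
        = L E B e i fun c => if c ∈ G then 0 else φ₀ c := by
      rw [L_eq E B e hP0, L_eq E B e hP0, ← sum_add_sum_compl G, add_sub_cancel_left,
        ← sum_subset (subset_univ Gᶜ)]
      · exact sum_congr rfl fun c hc => by rw [if_neg (mem_compl.1 hc)]
      · intro c _ hc
        rw [if_pos (by simpa using hc), zero_mul, zero_smul]
    rw [a2] at a1
    refine (Real.rpow_le_rpow (sigma_nonneg _ _ _) a1 hP0.le).trans ?_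
    rwa [norm_L E B e hP0]
  · obtain ⟨Λ, hΛ, e1⟩ := h3 k hk
    have a1 := h1.approx_mem k
    have a2 := h1.approx_best k
    rw [e1, image_lift] at a1 a2
    obtain ⟨φ, hφ, e2⟩ := state_of_best E B e hP i φ₀ Λ (f k) a1 a2
    rw [e2, norm_L E B e hP0]
    exact hlow Λ φ hΛ hφ

end LowerX

open LowerX in
theorem lowerStmt {p : ℝ≥0∞} [Fact (1 ≤ p)] (hp2 : 2 < p) (hp : p ≠ ∞) (hB : BlockStmt p.toReal)
    (E : Emb p) (hA : AsmStmt p) (hR : RunStmt) : LowerStmt p := by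
  have hp1 : 1 < p := lt_trans (by norm_num) hp2
  have hP := one_lt_toReal hp1 hp
  have hP2 : 2 < p.toReal := by
    have := (ENNReal.toReal_lt_toReal (by norm_num) hp).2 hp2
    simpa using this
  have hP0 : 0 < p.toReal := by linarith
  obtain ⟨D, t, En, hD, ht, ht1, hEn, hB⟩ := hB
  choose B N hN hS using fun nm : ℕ × ℕ => hB nm.1 nm.2
  have : Infinite (Σ i, (B i).Y) := Infinite.of_surjective Sigma.fst fun i =>
    ⟨⟨i, Classical.arbitrary _⟩, rfl⟩
  obtain ⟨e⟩ : Nonempty ((Σ i, (B i).Y) ≃ ℕ) := nonempty_equiv_of_countable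
  obtain ⟨Ψ, h1, h2, h3, h4, K, hK⟩ := hA E _ e (vec E B e) (D ^ 2) (norm_vec E B e hP0)
    (vec_mem E B e) (chi_mem E B e hP0) (equiv_lp E B e hP0 hD)
  obtain ⟨C₀, hC₀, hsm⟩ := smoothType_Lp (μ := unitMeas) hp1 hp
  have hmax := exists_max (lt_min hP one_lt_two) hC₀ hsm (ψ := Sum.elim (vec E B e) E.h)
    (fun j => by
      rcases j with k | j
      · exact (norm_vec E B e hP0 k).le
      · exact (E.norm_h j).le) hK
  refine ⟨Ψ, h1, h2, h3, t / D ^ 2, by positivity,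
    div_le_one_of_le₀ (ht1.trans (one_le_pow₀ hD)) (by positivity), fun Φ hΦ hG => ?_⟩
  obtain ⟨C, hC⟩ := hG
  rw [h4] at hC
  have hA0 : 0 ≤ |C| ^ p.toReal * En := by positivity
  refine arith (A := |C| ^ p.toReal * En + 1) (div_nonneg (by linarith) (by linarith))
    (div_le_one_of_le₀ (by linarith) (by linarith)) (by linarith) hΦ fun n m hm hnm => ?_
  have hm1 : (1 : ℝ) ≤ m := by exact_mod_cast hm
  obtain ⟨f₀, φ, f, r1, r2, r3⟩ := slow_run E B e hP hD hR hmax ht ht1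
    (by positivity) (n, m) (hS (n, m))
  have hk : N (n, m) < ⌊Φ m * m⌋₊ := by
    by_contra hcon
    have a1 := r3 _ (not_lt.1 hcon)
    have a2 := hC f₀ m hm φ f r1
    have a3 := sigma_nonneg (Set.range (Sum.elim (vec E B e) E.h)) m f₀
    have a4 := Real.rpow_le_rpow (norm_nonneg _)
      (a2.trans (mul_le_mul_of_nonneg_right (le_abs_self C) a3)) hP0.le
    rw [Real.mul_rpow (abs_nonneg _) a3] at a4
    have a5 := mul_le_mul_of_nonneg_left r2 (by positivity : 0 ≤ |C| ^ p.toReal)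
    have a6 : |C| ^ p.toReal * En + 1 ≤ m * (3 : ℝ)⁻¹ ^ n := by
      rw [inv_pow, ← div_eq_mul_inv, le_div_iff₀ (by positivity)]
      exact hnm
    simp only at a1
    linarith
  have a1 : (N (n, m) : ℝ) ≤ ⌊Φ m * m⌋₊ := by exact_mod_cast hk.le
  have a2 : (⌊Φ m * m⌋₊ : ℝ) ≤ Φ m * m :=
    Nat.floor_le (mul_nonneg (by linarith [hΦ m hm1]) (by linarith))
  have a3 := hN (n, m)
  simp only at a3
  linarith

end Pool.Agent.MP_30195a_an.Gr
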