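import Pool.Agent.MP_30195a_an.Gr.Chain

/-!
# Greedy bases: estimates at a node
-/

set_option autoImplicit false

namespace Pool.Agent.MP_30195a_an.Gr

variable {p K : ℝ} {σ τ : St} {w : Word}

lemma quad_est {β e δ x ζ : ℝ} (h1 : 1 / 2 ≤ β) (h2 : β ≤ 1) (e1 : e ≤ 5) (d0 : 0 ≤ δ)
    (d1 : δ ≤ 1 / 1000) (hx : |x - ζ| ≤ 4 * δ) (h : |e - β * (x * ζ)| ≤ 20 * δ * e) :
    |ζ| ≤ 5 ∧ |e - β * ζ ^ 2| ≤ 120 * δ := by
  have a0 : 20 * δ * e ≤ 100 * δ := by nlinarith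
  have a1 : |(x - ζ) * ζ| ≤ 4 * δ * |ζ| := by
    rw [abs_mul]; exact mul_le_mul_of_nonneg_right hx (abs_nonneg _)
  have a2 : |β * ((x - ζ) * ζ)| ≤ 4 * δ * |ζ| := by
    rw [abs_mul, abs_of_nonneg (by linarith : 0 ≤ β)]
    nlinarith [abs_nonneg ((x - ζ) * ζ)]
  obtain ⟨b1, b2⟩ := abs_le.1 h
  obtain ⟨c1, c2⟩ := abs_le.1 a2
  have z0 := abs_nonneg ζ
  have hz : |ζ| ≤ 5 := by
    by_contra hc
    push Not at hc
    have : β * |ζ| ^ 2 ≤ 5.1 + 4 * δ * |ζ| := by rw [sq_abs]; linarith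
    nlinarith
  have a3 : 4 * δ * |ζ| ≤ 20 * δ := by nlinarith
  exact ⟨hz, abs_le.2 ⟨by linarith, by linarith⟩⟩

namespace Frame

variable (R : Frame p K)

/-- The scale of the force at a node. -/
noncomputable def sc (ε : ℝ) (w : Word) : ℝ := ε * R.A w ^ (p / 2 - 1)

/-- The normalized force. -/
noncomputable def zeta (ε : ℝ) (w : Word) : ℝ := om p (R.A w) * R.J w / R.sc ε w

/-- The small parameter at a node. -/
noncomputable def del (C ε : ℝ) (w : Word) : ℝ := C * (ε / R.U w)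

/-- The standing assumptions, with large `a`. -/
structure Big (C₁ C ε a : ℝ) : Prop extends R.Base C₁ C ε a where
  hT : 2 ^ (p - 2) ≤ C
  big : 10 ^ 9 * C ^ 2 ≤ a
  root2 : 2 * a * ε ≤ R.U []

variable {R} {C₁ C ε a : ℝ} (H : R.Big C₁ C ε a)
include H

lemma Big.one_le : 1 ≤ C := by linarith [H.c1, H.hC]

lemma Big.sc_pos (h : R.Anc ε a w) : 0 < R.sc ε w :=
  mul_pos H.pos (Real.rpow_pos_of_pos (H.A_pos h) _)

lemma Big.F_eq (h : R.Anc ε a w) : om p (R.A w) * R.J w = R.zeta ε w * R.sc ε w :=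
  (div_mul_cancel₀ _ (H.sc_pos h).ne').symm

lemma Big.eta_eq (h : R.Anc ε a w) : R.eta C ε w = R.del C ε w * R.sc ε w := by
  have hA := H.A_pos h
  have hS := Real.rpow_pos_of_pos hA (p / 2 - 1)
  rw [eta, del, sc, U, uu_eq_mul hA]
  field_simp

lemma Big.del_le (h : R.Anc ε a w) :
    0 < ε / R.U w ∧ ε / R.U w ≤ R.del C ε w ∧ R.del C ε w ≤ 1 / 1000 := by
  have hU := H.U_pos h
  have h0 := div_pos H.pos hU
  have c := H.one_le
  refine ⟨h0, le_mul_of_one_le_left h0.le c, ?_⟩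
  have h1 : 1000 * C ≤ a - 3 := by nlinarith [H.big]
  have h2 := (mul_le_mul_of_nonneg_right h1 H.pos.le).trans (H.U_ge h)
  rw [del, ← mul_div_assoc, div_le_iff₀ hU]
  linarith

lemma Big.beta : 1 / 2 ≤ p / (2 * (p - 1)) ∧ p / (2 * (p - 1)) ≤ 1 := by
  have := H.hp
  constructor
  · rw [le_div_iff₀ (by linarith)]; linarith
  · rw [div_le_one (by linarith)]; linarith

lemma Big.fresh (h : R.Anc ε a w) (hσ : CS p K σ w) (hz : (σ w).z = 1) :
    |(σ w).Z - R.zeta ε w * R.sc ε w| ≤ 4 * (R.del C ε w * R.sc ε w) := by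
  have := (H.tau h hσ).1
  rwa [hz, sub_self, zero_add, H.F_eq h, H.eta_eq h] at this

lemma Big.future {i j : Fin 3} (h : R.Anc ε a (i :: w)) (hσ : CS p K σ (i :: w))
    (hz : (σ (j :: w)).z = 1) :
    |(σ (j :: w)).Z - R.zeta ε w * R.sc ε w| ≤ 6 * (R.del C ε w * R.sc ε w) := by
  have := H.child h hσ j
  rwa [hz, sub_self, zero_add, H.F_eq h.1, H.eta_eq h.1] at this

lemma Big.quad (h : R.Anc ε a w) : |R.zeta ε w| ≤ 5 ∧
    |R.e w / ε ^ 2 - p / (2 * (p - 1)) * R.zeta ε w ^ 2| ≤ 120 * R.del C ε w := by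
  obtain ⟨d0, d1, d2⟩ := H.del_le h
  have hn := H.sc_pos h
  have h0 := H.pos
  have hA := H.A_pos h
  have hS := Real.rpow_pos_of_pos hA (p / 2 - 1)
  have hp := H.hp
  have h2 : 0 < ε ^ 2 := by positivity
  refine quad_est (x := (R.st w w).Z / R.sc ε w) H.beta.1 H.beta.2
    ((div_le_iff₀ h2).2 (H.e_le h)) (d0.le.trans d1) d2 ?_ ?_
  · rw [div_sub' hn.ne', abs_div, abs_of_pos hn, div_le_iff₀ hn, mul_comm, mul_assoc]
    exact H.fresh h (R.hst w).1 (R.hst w).2.2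
  · have e1 : R.e w / ε ^ 2 - p / (2 * (p - 1)) * ((R.st w w).Z / R.sc ε w * R.zeta ε w)
        = (R.e w - p / 2 * ((R.st w w).Z * R.J w)) / ε ^ 2 := by
      have : p - 1 ≠ 0 := by linarith
      rw [zeta, sc, om_eq hA]
      field_simp
    rw [e1, abs_div, abs_of_pos h2, ← mul_div_assoc, del]
    exact div_le_div_of_nonneg_right ((H.second h).trans_eq (by ring)) h2.le

lemma Big.half_le (h : R.Anc ε a w) (he : 1 / 2 < R.e w / ε ^ 2) (hz : 0 < R.zeta ε w) :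
    1 / 2 ≤ R.zeta ε w := by
  have h1 := (abs_le.1 (H.quad h).2).2
  have h2 := (H.del_le h).2.2
  have h3 := mul_le_mul_of_nonneg_right H.beta.2 (sq_nonneg (R.zeta ε w))
  nlinarith

lemma Big.step {i : Fin 3} (h : R.Anc ε a (i :: w)) (hz : 1 / 2 ≤ R.zeta ε w) :
    |R.e (i :: w) / ε ^ 2 - R.e w / ε ^ 2| ≤ 660 * R.del C ε w ∧ 1 / 4 ≤ R.zeta ε (i :: w) := by
  obtain ⟨d0, d1, d2⟩ := H.del_le h.1
  have hU := H.U_pos h.1
  have h0 := H.pos
  have hn := H.sc_pos h.1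
  have us := H.ustep h
  have e0 : ε / R.U w * R.U w = ε := div_mul_cancel₀ _ hU.ne'
  have n1 := (near_of_uu (a := R.A (i :: w)) (ρ := 3 * (ε / R.U w)) H.hp.le (H.A_pos h.1)
    (by linarith) (by rw [mul_assoc]; exact us.trans (by rw [← U, e0]))).2.2
  have n2 : |R.sc ε (i :: w) - R.sc ε w| ≤ 3 * R.del C ε w * R.sc ε w := by
    rw [sc, sc, ← mul_sub, abs_mul, abs_of_pos h0, mul_left_comm]
    refine mul_le_mul_of_nonneg_left (n1.trans ?_) h0.le
    exact mul_le_mul_of_nonneg_right (by linarith) (Real.rpow_pos_of_pos (H.A_pos h.1) _).le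
  have n3 : R.del C ε (i :: w) ≤ 2 * R.del C ε w := by
    rw [del, del, mul_left_comm]
    refine mul_le_mul_of_nonneg_left ?_ (by linarith [H.one_le])
    rw [← mul_div_assoc, div_le_div_iff₀ (H.U_pos h) hU]
    have : 6 * ε ≤ R.U w := by nlinarith
    nlinarith [(abs_le.1 us).1]
  have f1 := abs_le.1 (H.future (j := i) h (R.hst _).1 (R.hst _).2.2)
  have f2 := abs_le.1 (H.fresh h (R.hst _).1 (R.hst _).2.2)
  obtain ⟨q1, q2⟩ := H.quad h
  obtain ⟨q3, q4⟩ := H.quad h.1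
  set δ := R.del C ε w
  set n := R.sc ε w
  have hδ : 0 ≤ δ := d0.le.trans d1
  have g1 : R.del C ε (i :: w) * R.sc ε (i :: w) ≤ 2 * δ * (1.003 * n) :=
    mul_le_mul n3 (by nlinarith [(abs_le.1 n2).2]) (H.sc_pos h).le (by linarith)
  have g2 : |R.zeta ε (i :: w) * (R.sc ε (i :: w) - n)| ≤ 5 * (3 * δ * n) := by
    rw [abs_mul]; exact mul_le_mul q1 n2 (abs_nonneg _) (by norm_num)
  have g3 : 0 ≤ δ * n := by positivity
  have z1 : |R.zeta ε (i :: w) - R.zeta ε w| ≤ 30 * δ := by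
    obtain ⟨g4, g5⟩ := abs_le.1 g2
    rw [abs_le]
    constructor <;> refine le_of_mul_le_mul_right ?_ hn <;> linarith
  have z2 : |p / (2 * (p - 1)) * (R.zeta ε (i :: w) ^ 2 - R.zeta ε w ^ 2)| ≤ 1 * (10 * (30 * δ)) := by
    rw [abs_mul, abs_of_nonneg (by linarith [H.beta.1]), sq_sub_sq, abs_mul]
    exact mul_le_mul H.beta.2 (mul_le_mul ((abs_add_le _ _).trans (by linarith)) z1 (abs_nonneg _)
      (by norm_num)) (by positivity) zero_le_one
  rw [abs_le] at q2 q4 z2 z1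
  exact ⟨abs_le.2 ⟨by linarith, by linarith⟩, by linarith⟩

lemma Big.drift (h : R.Anc ε a (0 :: w)) (hz : 1 / 2 ≤ R.zeta ε w) :
    3 * R.U w + ε / 10 ≤ R.U (0 :: w) + R.U (1 :: w) + R.U (2 :: w) := by
  obtain ⟨⟨e1, e2⟩, ⟨e3, e4⟩, e5, e6⟩ := Sys.fin3
  obtain ⟨d0, d1, d2⟩ := H.del_le h.1
  have hA := H.A_pos h.1
  have hS := Real.rpow_pos_of_pos hA (p / 2 - 1)
  have hn := H.sc_pos h.1
  have hp := H.hp
  have c : ∀ i : Fin 3, CS p K (R.en (i :: w)) (i :: w) := fun i => (R.hen _).1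
  have t := fun i => (abs_le.1 (H.tau h.1 (c i).1).2).1
  have past : ∀ i j : Fin 3, j < i →
      |om p (R.A w) * ((R.en (i :: w) (j :: w)).z - 1 + R.J w)| ≤ 6 * R.eta C ε w := fun i j hj => by
    have := H.child (i := i) h (c i) j
    rwa [(((c i).2.2.2 j).1 hj).2, zero_sub, abs_neg] at this
  have a0 := (c 0).2.1.hA 0
  have a1 := (c 1).2.1.hA 1
  have a2 := (c 2).2.1.hA 2
  rw [e1, e2, (((c 0).2.2.2 1).2 (by decide)).2, (((c 0).2.2.2 2).2 (by decide)).2] at a0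
  rw [e3, e4, (((c 1).2.2.2 2).2 (by decide)).2] at a1
  rw [e5, e6] at a2
  have b1 := (abs_le.1 (abs_kap_le (past 1 0 (by decide)))).2
  have b2 := (abs_le.1 (abs_kap_sub (past 2 0 (by decide)) (past 2 1 (by decide)))).1
  have b3 : 0.57 * (1 / 2 * R.sc ε w) ≤ kap * (om p (R.A w) * R.J w) := by
    rw [H.F_eq h.1]
    exact mul_le_mul le_kap (mul_le_mul_of_nonneg_right hz hn.le) (by positivity) kap_pos.le
  have b4 : R.eta C ε w ≤ 1 / 1000 * R.sc ε w := by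
    rw [H.eta_eq h.1]; exact mul_le_mul_of_nonneg_right d2 hn.le
  have s : 0.2 * R.sc ε w
      ≤ om p (R.A w) * (R.A (0 :: w) - R.A w + (R.A (1 :: w) - R.A w) + (R.A (2 :: w) - R.A w)) := by
    have t0 := t 0
    have t1 := t 1
    have t2 := t 2
    change R.A (0 :: w) = _ at a0
    change R.A (1 :: w) = _ at a1
    change R.A (2 :: w) = _ at a2
    rw [a0, a1, a2]
    linarith
  have u := fun i : Fin 3 => uu_tangent hp.le (H.A_pos (w := i :: w) h).le hA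
  have u0 := u 0
  have u1 := u 1
  have u2 := u 2
  rw [om_eq hA, sc] at s
  set x := R.A (0 :: w) - R.A w + (R.A (1 :: w) - R.A w) + (R.A (2 :: w) - R.A w) with hx
  set S := R.A w ^ (p / 2 - 1)
  have s1 : 0.2 * ε ≤ (p - 1) * (S * x) := le_of_mul_le_mul_right (by linarith) hS
  have s2 : 0 ≤ S * x := by
    by_contra hc
    nlinarith [H.pos]
  have s3 : p / 2 * (S * x) = p / 2 * S * (R.A (0 :: w) - R.A w) + p / 2 * S * (R.A (1 :: w) - R.A w)
      + p / 2 * S * (R.A (2 :: w) - R.A w) := by rw [hx]; ring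
  simp only [U]
  linarith

lemma Big.near (h : R.Anc ε a w) {x : ℝ} (hx : breg p x (R.A w) ≤ 10 * ε ^ 2) :
    |x - R.A w| ≤ 5 * (ε / R.U w) * R.A w := by
  obtain ⟨d0, d1, d2⟩ := H.del_le h
  refine (near_of_uu H.hp.le (H.A_pos h) (by linarith) ?_).2.1
  rw [mul_assoc, ← U, div_mul_cancel₀ _ (H.U_pos h).ne']
  exact abs_le_of_sq_le_sq ((uu_sub_sq_le H.hp.le x (R.A w)).trans (by linarith [sq_nonneg ε]))
    (by linarith [H.pos])

lemma Big.leaf (h : R.Anc ε a w) (hz : 1 / 4 ≤ R.zeta ε w) (hσ : CS p K σ w) {s x b : ℝ}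
    (s0 : 0 ≤ s) (s1 : s ≤ 1) (hA : (σ w).A = s * b + (1 - s) * x)
    (hI : (σ w).I = s * |b| ^ p + (1 - s) * |x| ^ p) (hZ : (σ w).Z = s * (gp p b - gp p x))
    (hzz : 1 - (σ w).z = (1 - s) * (b - x)) :
    R.sc ε w ≤ 8 * C * (gp p b - gp p x) ∧ gp p b - gp p x ≤ 10 * C * R.sc ε w := by
  obtain ⟨d0, d1, d2⟩ := H.del_le h
  have hp := H.hp
  have hp1 : 1 < p := by linarith
  have A0 := H.A_pos h
  have hS := Real.rpow_pos_of_pos A0 (p / 2 - 1)
  have hn := H.sc_pos h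
  have ho := om_pos hp1 A0
  have hU := H.U_pos h
  have c := H.one_le
  have hT := H.hT
  have m := (H.tau h hσ).1
  have e1 : (σ w).Z - om p (R.A w) * ((σ w).z - 1 + R.J w) = s * (gp p b - gp p x)
      + (1 - s) * (om p (R.A w) * (b - x)) - R.zeta ε w * R.sc ε w := by
    rw [← H.F_eq h, hZ]; linear_combination (om p (R.A w)) * hzz
  rw [e1, H.eta_eq h, abs_le] at m
  have z5 := mul_le_mul_of_nonneg_right (abs_le.1 (H.quad h).1).2 hn.le
  have z4 := mul_le_mul_of_nonneg_right hz hn.le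
  have z3 := mul_le_mul_of_nonneg_right d2 hn.le
  set Φ := gp p b - gp p x with hΦ
  set G := om p (R.A w) * (b - x) with hG
  have m1 : R.sc ε w / 8 ≤ s * Φ + (1 - s) * G := by linarith [m.1]
  have m2 : s * Φ + (1 - s) * G ≤ 6 * R.sc ε w := by linarith [m.2]
  have hxb : x ≤ b := by
    by_contra hc
    push Not at hc
    have a1 : Φ ≤ 0 := sub_nonpos.2 (gp_strictMono hp1 hc).le
    have a2 : G ≤ 0 := mul_nonpos_of_nonneg_of_nonpos ho.le (by linarith)
    nlinarith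
  have Φ0 : 0 ≤ Φ := sub_nonneg.2 ((gp_strictMono hp1).monotone hxb)
  have G0 : 0 ≤ G := mul_nonneg ho.le (by linarith)
  have en : s * breg p b (R.A w) + (1 - s) * breg p x (R.A w) ≤ 5 * ε ^ 2 := by
    have := (R.bf_le hp1 hσ).trans (H.e_le h)
    rw [bf, hI, hA] at this
    unfold breg
    linarith
  have k1 := breg_nonneg hp1 b (R.A w)
  have k2 := breg_nonneg hp1 x (R.A w)
  have r1 : ε / R.U w * R.A w ≤ 1 / 1000 * R.A w := mul_le_mul_of_nonneg_right (by linarith) A0.le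
  have r2 : R.sc ε w = (R.A w ^ (p / 2 - 1)) ^ 2 * (ε / R.U w * R.A w) := by
    rw [sc, U, uu_eq_mul A0]; field_simp
  have r3 : ∀ y, 0 ≤ y → (R.A w ^ (p / 2 - 1)) ^ 2 * y ≤ om p (R.A w) * y := fun y hy => by
    rw [om_eq A0]
    exact mul_le_mul_of_nonneg_right (le_mul_of_one_le_left (sq_nonneg _) (by linarith)) hy
  have rng : R.A w / 2 ≤ x ∧ b ≤ 2 * R.A w := by
    rcases le_total s (1 / 2) with hs | hs
    · have a1 := abs_le.1 (H.near h (x := x) (by nlinarith))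
      have a2 : G ≤ 12 * R.sc ε w := by nlinarith
      have a3 : b - x ≤ 12 * (ε / R.U w * R.A w) :=
        le_of_mul_le_mul_left (by linarith [r3 (b - x) (by linarith)]) (pow_pos hS 2)
      constructor <;> linarith [a1.1, a1.2]
    · have a1 := abs_le.1 (H.near h (x := b) (by nlinarith))
      have a2 : Φ ≤ 12 * R.sc ε w := by nlinarith
      refine ⟨?_, by linarith [a1.2]⟩
      by_contra hc
      push Not at hc
      have a3 := (gp_sub_bounds hp.le A0 le_rfl (b := b) (by linarith [a1.1]) (by linarith [a1.2])).1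
      have a4 : gp p b - gp p (R.A w / 2) ≤ 12 * R.sc ε w := by linarith [gp_strictMono hp1 hc]
      have a5 := mul_le_mul hT a4 (sub_nonneg.2 ((gp_strictMono hp1).monotone
        (by linarith [a1.1]))) (by linarith)
      have a6 := r3 (b - R.A w / 2) (by linarith [a1.1])
      have a7 : b - R.A w / 2 ≤ 12 * (R.del C ε w * R.A w) := by
        refine le_of_mul_le_mul_left ?_ (pow_pos hS 2)
        rw [r2] at a5
        rw [del]
        linarith
      linarith [a1.1, mul_le_mul_of_nonneg_right d2 A0.le]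
  obtain ⟨g1, g2⟩ := gp_sub_bounds hp.le A0 rng.1 hxb rng.2
  have g3 : G ≤ C * Φ := g1.trans (mul_le_mul_of_nonneg_right hT Φ0)
  have g4 : Φ ≤ C * G := g2.trans (mul_le_mul_of_nonneg_right hT G0)
  have g5 : Φ ≤ C * Φ := le_mul_of_one_le_left Φ0 c
  have g6 := mul_le_mul_of_nonneg_left g5 s0
  have g7 := mul_le_mul_of_nonneg_left g3 (sub_nonneg.2 s1)
  have g8 := mul_le_mul_of_nonneg_left g4 (sub_nonneg.2 s1)
  have g9 := mul_le_mul_of_nonneg_left m2 (by linarith : 0 ≤ C)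
  have := mul_pos (by linarith : 0 < C) hn
  constructor <;> linarith

end Frame

end Pool.Agent.MP_30195a_an.Gr
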