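import Pool.Agent.MP_30195a_an.Gr.Defs

/-!
# Greedy bases: elementary pointwise inequalities
-/

set_option autoImplicit false

namespace Pool.Agent.MP_30195a_an.Gr

lemma gp_strictMono {p : ℝ} (hp : 1 < p) : StrictMono (gp p) := by
  have key : ∀ x y : ℝ, 0 ≤ x → x < y → gp p x < gp p y := fun x y hx hxy => by
    rw [gp_of_nonneg hp hx, gp_of_nonneg hp (hx.trans hxy.le)]
    exact Real.rpow_lt_rpow hx hxy (by linarith)
  intro x y hxy
  rcases le_or_gt 0 x with hx | hx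
  · exact key x y hx hxy
  rcases le_or_gt y 0 with hy | hy
  · have := key (-y) (-x) (by linarith) (by linarith)
    rw [gp_neg, gp_neg] at this
    linarith
  · have h1 := key 0 y le_rfl hy
    have h2 := key 0 (-x) le_rfl (by linarith)
    rw [gp_neg] at h2
    rw [gp_zero] at h1 h2
    linarith

lemma breg_nonneg {p : ℝ} (hp : 1 < p) (a b : ℝ) : 0 ≤ breg p a b := by
  unfold breg
  rcases eq_or_ne b 0 with rfl | hb
  · simp only [gp_zero, abs_zero, Real.zero_rpow (by linarith : p ≠ 0)]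
    have : 0 ≤ |a| ^ p := by positivity
    linarith
  · have h1 := tangent_rpow hp.le (abs_nonneg a) (abs_pos.2 hb)
    have h2 : gp p b * a ≤ |b| ^ (p - 1) * |a| := by
      rw [← abs_gp hp, ← abs_mul]; exact le_abs_self _
    have h3 := gp_mul_self hp b
    have h4 : |b| ^ (p - 1) * |b| = |b| ^ p := by
      rw [← Real.rpow_add_one (abs_pos.2 hb).ne', sub_add_cancel]
    nlinarith

lemma uu_of_nonneg {p x : ℝ} (hp : 0 < p) (hx : 0 ≤ x) : uu p x = x ^ (p / 2) := by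
  rw [uu, gp_of_nonneg (by linarith) hx, add_sub_cancel_right]

lemma uu_neg (p x : ℝ) : uu p (-x) = -uu p x := gp_neg _ _

lemma uu_zero (p : ℝ) : uu p 0 = 0 := gp_zero _

lemma uu_strictMono {p : ℝ} (hp : 0 < p) : StrictMono (uu p) := gp_strictMono (by linarith)

lemma uu_pos_iff {p x : ℝ} (hp : 0 < p) : 0 < uu p x ↔ 0 < x := by
  have := (uu_strictMono hp).lt_iff_lt (a := 0) (b := x)
  rwa [uu_zero] at this

lemma continuous_uu {p : ℝ} (hp : 0 < p) : Continuous (uu p) := continuous_gp (by linarith)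

lemma abs_uu {p : ℝ} (hp : 0 < p) (x : ℝ) : |uu p x| = |x| ^ (p / 2) := by
  rw [uu, abs_gp (by linarith), add_sub_cancel_right]

lemma uu_sq {p : ℝ} (hp : 0 < p) (x : ℝ) : uu p x ^ 2 = |x| ^ p := by
  rw [← sq_abs, abs_uu hp, ← Real.rpow_two, ← Real.rpow_mul (abs_nonneg _)]
  congr 1; ring

lemma uu_eq_mul {p a : ℝ} (ha : 0 < a) : uu p a = a * a ^ (p / 2 - 1) := by
  rw [uu, gp, abs_of_pos ha, mul_comm]
  congr 2; ring

lemma om_eq {p a : ℝ} (ha : 0 < a) : om p a = (p - 1) * (a ^ (p / 2 - 1)) ^ 2 := by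
  rw [om, ← Real.rpow_two, ← Real.rpow_mul ha.le]
  congr 2; ring

lemma gp_eq_mul {p a : ℝ} (ha : 0 < a) : gp p a = a * (a ^ (p / 2 - 1)) ^ 2 := by
  rw [gp, abs_of_pos ha, ← Real.rpow_two, ← Real.rpow_mul ha.le, mul_comm]
  congr 2; ring

lemma om_pos {p a : ℝ} (hp : 1 < p) (ha : 0 < a) : 0 < om p a :=
  mul_pos (by linarith) (Real.rpow_pos_of_pos ha _)

lemma rpow_half_eq {p a : ℝ} (hp : 0 < p) (ha : 0 < a) :
    a ^ (p / 2 - 1) = uu p a ^ (1 - 2 / p) := by
  rw [uu_of_nonneg hp ha.le, ← Real.rpow_mul ha.le]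
  congr 1; field_simp

lemma uu_sub_sq_le {p : ℝ} (hp : 2 ≤ p) (a b : ℝ) : (uu p a - uu p b) ^ 2 ≤ 2 * breg p a b := by
  have hp0 : 0 < p := by linarith
  have hp1 : 1 < p := by linarith
  have key : ∀ a b : ℝ, 0 ≤ b → (uu p a - uu p b) ^ 2 ≤ 2 * breg p a b := by
    intro a b hb
    have e1 := uu_sq hp0 a
    have e2 := uu_sq hp0 b
    have e3 := gp_mul_self hp1 b
    rcases le_total 0 a with ha | ha
    · have h0 := breg_nonneg hp1 a b
      have h1 := Real.geom_mean_le_arith_mean2_weighted (w₁ := (p - 2) / p) (w₂ := 2 / p)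
        (p₁ := b ^ p) (p₂ := (a * b) ^ (p / 2)) (by positivity) (by positivity) (by positivity)
        (by positivity) (by field_simp; ring)
      have h2 : (b ^ p) ^ ((p - 2) / p) * ((a * b) ^ (p / 2)) ^ (2 / p) = gp p b * a := by
        rw [← Real.rpow_mul hb, ← Real.rpow_mul (mul_nonneg ha hb), gp, abs_of_nonneg hb,
          show p * ((p - 2) / p) = p - 2 by field_simp, show p / 2 * (2 / p) = 1 by field_simp,
          Real.rpow_one]
        ring
      have h3 : (a * b) ^ (p / 2) = uu p a * uu p b := by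
        rw [uu_of_nonneg hp0 ha, uu_of_nonneg hp0 hb, Real.mul_rpow ha hb]
      rw [h2, h3] at h1
      have h4 := mul_le_mul_of_nonneg_left h1 hp0.le
      have h5 : p * ((p - 2) / p * b ^ p + 2 / p * (uu p a * uu p b))
          = (p - 2) * b ^ p + 2 * (uu p a * uu p b) := by field_simp
      rw [h5] at h4
      rw [abs_of_nonneg hb] at e2 e3
      unfold breg at h0 ⊢
      rw [abs_of_nonneg hb] at h0 ⊢
      nlinarith
    · have h1 : 0 ≤ gp p b := by rw [gp_of_nonneg hp1 hb]; positivity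
      have h2 : 0 ≤ p * (gp p b * -a) := mul_nonneg hp0.le (mul_nonneg h1 (by linarith))
      have h3 : 0 ≤ (p - 2) * |b| ^ p := mul_nonneg (by linarith) (by positivity)
      unfold breg
      nlinarith [sq_nonneg (uu p a + uu p b)]
  rcases le_total 0 b with hb | hb
  · exact key a b hb
  · have := key (-a) (-b) (by linarith)
    rw [uu_neg, uu_neg, breg, abs_neg, abs_neg, gp_neg] at this
    unfold breg
    linarith

lemma uu_tangent {p a A : ℝ} (hp : 2 ≤ p) (ha : 0 ≤ a) (hA : 0 < A) :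
    uu p A + p / 2 * A ^ (p / 2 - 1) * (a - A) ≤ uu p a := by
  rw [uu_of_nonneg (by linarith) ha, uu_of_nonneg (by linarith) hA.le]
  exact tangent_rpow (by linarith) ha hA

lemma abs_rpow_sub_one_le {x s : ℝ} (hx : 0 ≤ x) (hs : 0 ≤ s) (hs1 : s ≤ 1) :
    |x ^ s - 1| ≤ |x - 1| := by
  rcases le_total 1 x with h | h
  · have h1 := Real.one_le_rpow h hs
    have h2 := Real.rpow_le_self_of_one_le h hs1
    rw [abs_of_nonneg (by linarith), abs_of_nonneg (by linarith)]; linarith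
  · have h1 := Real.rpow_le_one hx h hs
    have h2 := Real.self_le_rpow_of_le_one hx h hs1
    rw [abs_of_nonpos (by linarith), abs_of_nonpos (by linarith)]; linarith

lemma abs_rpow_sub_le {x y s ρ : ℝ} (hx : 0 ≤ x) (hy : 0 < y) (hs : 0 ≤ s) (hs1 : s ≤ 1)
    (h : |x - y| ≤ ρ * y) : |x ^ s - y ^ s| ≤ ρ * y ^ s := by
  have hy' := Real.rpow_pos_of_pos hy s
  have h1 := abs_rpow_sub_one_le (div_nonneg hx hy.le) hs hs1
  rw [Real.div_rpow hx hy.le, div_sub_one hy'.ne', div_sub_one hy.ne', abs_div, abs_div,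
    abs_of_pos hy', abs_of_pos hy] at h1
  rw [← div_le_iff₀ hy']
  exact h1.trans ((div_le_iff₀ hy).2 h)

/-- Relative closeness of `uu a` and `uu A` gives relative closeness of `a` and `A`. -/
lemma near_of_uu {p a A ρ : ℝ} (hp : 2 ≤ p) (hA : 0 < A) (hρ : ρ < 1)
    (h : |uu p a - uu p A| ≤ ρ * uu p A) :
    0 < a ∧ |a - A| ≤ ρ * A ∧ |a ^ (p / 2 - 1) - A ^ (p / 2 - 1)| ≤ ρ * A ^ (p / 2 - 1) := by
  have hp0 : 0 < p := by linarith
  have hU := (uu_pos_iff hp0).2 hA
  have hu : 0 < uu p a := by nlinarith [(abs_le.1 h).1]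
  have ha := (uu_pos_iff hp0).1 hu
  have h2 : 2 / p ≤ 1 := (div_le_one hp0).2 hp
  have h3 : 0 ≤ 2 / p := by positivity
  refine ⟨ha, ?_, ?_⟩
  · have e : ∀ x : ℝ, 0 < x → uu p x ^ (2 / p) = x := fun x hx => by
      rw [uu_of_nonneg hp0 hx.le, ← Real.rpow_mul hx.le, show p / 2 * (2 / p) = 1 by field_simp,
        Real.rpow_one]
    have := abs_rpow_sub_le hu.le hU h3 h2 h
    rwa [e a ha, e A hA] at this
  · rw [rpow_half_eq hp0 ha, rpow_half_eq hp0 hA]
    exact abs_rpow_sub_le hu.le hU (by linarith) (by linarith) h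

lemma gp_sub_bounds {p a b A : ℝ} (hp : 2 ≤ p) (hA : 0 < A) (ha : A / 2 ≤ a) (hab : a ≤ b)
    (hb : b ≤ 2 * A) :
    om p A * (b - a) ≤ 2 ^ (p - 2) * (gp p b - gp p a) ∧
      gp p b - gp p a ≤ 2 ^ (p - 2) * (om p A * (b - a)) := by
  have ha0 : 0 < a := by linarith
  have hb0 : 0 < b := by linarith
  have hp1 : 1 < p := by linarith
  have hd : 0 ≤ (p - 1) * (b - a) := mul_nonneg (by linarith) (by linarith)
  constructor
  · have h1 := tangent_rpow (p := p - 1) (by linarith) hb0.le ha0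
    rw [show p - 1 - 1 = p - 2 by ring] at h1
    have h2 : A ^ (p - 2) ≤ 2 ^ (p - 2) * a ^ (p - 2) := by
      rw [← Real.mul_rpow (by norm_num) ha0.le]
      exact Real.rpow_le_rpow hA.le (by linarith) (by linarith)
    have h3 := mul_le_mul_of_nonneg_left h2 hd
    have h4 := mul_le_mul_of_nonneg_left h1 (by positivity : (0 : ℝ) ≤ 2 ^ (p - 2))
    rw [gp_of_nonneg hp1 ha0.le, gp_of_nonneg hp1 hb0.le, om]
    linarith
  · have h1 := tangent_rpow (p := p - 1) (by linarith) ha0.le hb0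
    rw [show p - 1 - 1 = p - 2 by ring] at h1
    have h2 : b ^ (p - 2) ≤ 2 ^ (p - 2) * A ^ (p - 2) := by
      rw [← Real.mul_rpow (by norm_num) hA.le]
      exact Real.rpow_le_rpow hb0.le hb (by linarith)
    have h3 := mul_le_mul_of_nonneg_left h2 hd
    rw [gp_of_nonneg hp1 ha0.le, gp_of_nonneg hp1 hb0.le, om]
    linarith

/-- The descent inequality with the weight `|a| ^ (p - 2)`. -/
lemma exists_pwa {p : ℝ} (hp : 2 ≤ p) : ∃ C : ℝ, 1 ≤ C ∧ ∀ a b : ℝ,
    |a + b| ^ p ≤ |a| ^ p + p * (gp p a * b) + C * (|a| ^ (p - 2) * b ^ 2 + |b| ^ p) := by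
  have h2 : (1 : ℝ) ≤ 2 ^ (p - 2) := Real.one_le_rpow (by norm_num) (by linarith)
  refine ⟨p * (p - 1) * 2 ^ (p - 2), ?_, fun a b => ?_⟩
  · exact one_le_mul_of_one_le_of_one_le (by nlinarith) h2
  obtain ⟨θ, h0, h1, h⟩ := abs_rpow_mvt (by linarith : 1 < p) a b
  have h3 := gp_lip hp (a + θ * b) a
  have h4 : |θ * b| ≤ |b| := by
    rw [abs_mul, abs_of_pos h0]; exact mul_le_of_le_one_left (abs_nonneg _) h1.le
  have h5 : max |a + θ * b| |a| ≤ |a| + |b| :=
    max_le ((abs_add_le _ _).trans (by linarith)) (by linarith [abs_nonneg b])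
  have h6 := (Real.rpow_le_rpow ((abs_nonneg _).trans (le_max_right _ _)) h5
    (by linarith : 0 ≤ p - 2)).trans (add_rpow_le (by linarith) (abs_nonneg a) (abs_nonneg b))
  rw [add_sub_cancel_left] at h3
  have h7 : |gp p (a + θ * b) - gp p a|
      ≤ (p - 1) * (2 ^ (p - 2) * (|a| ^ (p - 2) + |b| ^ (p - 2))) * |b| := by
    refine h3.trans ?_
    have : 0 ≤ p - 1 := by linarith
    gcongr
  have h8 : |b| ^ (p - 2) * b ^ 2 = |b| ^ p := by
    rw [← sq_abs b, ← Real.rpow_two, ← Real.rpow_add' (abs_nonneg _) (by linarith)]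
    congr 1; ring
  have h9 := mul_le_mul_of_nonneg_left (mul_le_mul_of_nonneg_right h7 (abs_nonneg b))
    (by linarith : 0 ≤ p)
  have h10 : p * ((p - 1) * (2 ^ (p - 2) * (|a| ^ (p - 2) + |b| ^ (p - 2))) * |b| * |b|)
      = p * (p - 1) * 2 ^ (p - 2) * (|a| ^ (p - 2) * b ^ 2 + |b| ^ p) := by
    rw [← h8, ← sq_abs b]; ring
  linarith

lemma hull_point (p x : ℝ) : Hull p (|x| ^ p) x (gp p x) := fun _ _ _ _ h => h x

lemma Fld.Flat.hull {p : ℝ} {F : Fld} (h : F.Flat p) : Hull p F.I F.A F.B := by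
  rw [h.1, h.2]; exact hull_point p _

end Pool.Agent.MP_30195a_an.Gr
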