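import Pool.Agent.MP_30195a_an.Gr.Spec

/-!
# Greedy bases: two pointwise Taylor inequalities
-/

set_option autoImplicit false

namespace Pool.Agent.MP_30195a_an.Gr

namespace PWBX

lemma mvt {f f' : ℝ → ℝ} {l u C x y : ℝ} (hd : ∀ t ∈ Set.Icc l u, HasDerivAt f (f' t) t)
    (hb : ∀ t ∈ Set.Icc l u, |f' t| ≤ C) (hx : x ∈ Set.Icc l u) (hy : y ∈ Set.Icc l u) :
    |f y - f x| ≤ C * |y - x| := by
  have := (convex_Icc l u).norm_image_sub_le_of_norm_hasDerivWithin_le
    (fun t ht => (hd t ht).hasDerivWithinAt) hb hx hy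
  simpa only [Real.norm_eq_abs] using this

lemma gp_mul {q A : ℝ} (hA : 0 < A) (x : ℝ) : gp q (A * x) = A ^ (q - 1) * gp q x := by
  have e : A ^ (q - 1) = A ^ (q - 2) * A := by
    rw [← Real.rpow_add_one hA.ne']; congr 1; ring
  rw [gp, gp, abs_mul, Real.mul_rpow (abs_nonneg _) (abs_nonneg _), abs_of_pos hA, e]
  ring

lemma uu_mul {p A : ℝ} (hA : 0 < A) (x : ℝ) : uu p (A * x) = A ^ (p / 2) * uu p x := by
  rw [uu, uu, gp_mul hA, add_sub_cancel_right]

lemma uu_one (p : ℝ) : uu p 1 = 1 := gp_one _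

lemma half_sq {p A : ℝ} (hA : 0 < A) : A ^ (p / 2) * A ^ (p / 2) = A ^ (p - 1) * A := by
  rw [← Real.rpow_add hA, ← Real.rpow_add_one hA.ne']; congr 1; ring

lemma crude {t M e : ℝ} (ht : 0 ≤ t) (hM : t ≤ M) (h1 : 1 ≤ M) (he : 0 ≤ e) (he2 : e ≤ 2) :
    t ^ e ≤ M ^ 2 := by
  refine (Real.rpow_le_rpow ht hM he).trans ?_
  rw [← Real.rpow_two]
  exact Real.rpow_le_rpow_of_exponent_le h1 he2

lemma abs_eq_uu {p : ℝ} (hp : 0 < p) (a e : ℝ) : |a| ^ e = |uu p a| ^ (2 / p * e) := by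
  rw [abs_uu hp, ← Real.rpow_mul (abs_nonneg _)]
  congr 1; field_simp

lemma eq_uu {p a : ℝ} (hp : 0 < p) (ha : 0 < a) (e : ℝ) : a ^ e = uu p a ^ (2 / p * e) := by
  have := abs_eq_uu hp a e
  rwa [abs_of_pos ha, abs_of_pos ((uu_pos_iff hp).2 ha)] at this

/-- The case `A = 1` of `PW1`. -/
lemma pw1_one {p a b θ : ℝ} (hp : 2 < p) (hb : 0 < b) (hθ : 1 ≤ θ) (h : 1 ≤ θ * uu p b) :
    |gp p a - gp p b - (p - 1) * (a - b)|
      ≤ 72 * p * θ ^ 2 * (|uu p a - uu p b| * (|uu p a - uu p b| + |uu p b - 1|)) := by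
  have hp0 : 0 < p := by linarith
  have hp1 : 1 < p := by linarith
  have hy : 0 < uu p b := (uu_pos_iff hp0).2 hb
  obtain ⟨s, hs⟩ : ∃ s : ℝ, s = 1 - 2 / p := ⟨_, rfl⟩
  have hs0 : 0 ≤ s := by
    have : 2 / p ≤ 1 := (div_le_one hp0).2 hp.le
    linarith
  have hs1 : s ≤ 1 := by
    have : 0 ≤ 2 / p := by positivity
    linarith
  have e1 : 2 / p * (p - 1) = 1 + s := by rw [hs]; field_simp; ring
  have e2 : 2 / p * 1 = 1 - s := by rw [hs]; ring
  have e3 : (p - 1) * (1 - s) = 1 + s := by rw [hs]; field_simp; ring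
  have hD := abs_nonneg (uu p a - uu p b)
  have hE := abs_nonneg (uu p b - 1)
  rcases le_or_gt |uu p a - uu p b| (uu p b / 2) with hc | hc
  · have hx : 0 < uu p a := by linarith [(abs_le.1 hc).1]
    have ha : 0 < a := (uu_pos_iff hp0).1 hx
    have ga : ∀ c : ℝ, 0 < c → gp p c = uu p c ^ (1 + s) := fun c hc => by
      rw [gp_of_nonneg hp1 hc.le, eq_uu hp0 hc, e1]
    have ia : ∀ c : ℝ, 0 < c → c = uu p c ^ (1 - s) := fun c hc => by
      rw [← e2, ← eq_uu hp0 hc, Real.rpow_one]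
    have key := mvt (f := fun t => t ^ (1 + s) - (p - 1) * t ^ (1 - s))
      (f' := fun t => (1 + s) * (t ^ s - t ^ (-s)))
      (l := uu p b - |uu p a - uu p b|) (u := uu p b + |uu p a - uu p b|)
      (C := 6 * θ * (|uu p a - uu p b| + |uu p b - 1|)) (x := uu p b) (y := uu p a)
      (fun t ht => by
        have ht0 : 0 < t := by linarith [ht.1]
        have h1 := Real.hasDerivAt_rpow_const (x := t) (p := 1 + s) (Or.inl ht0.ne')
        have h2 := (Real.hasDerivAt_rpow_const (x := t) (p := 1 - s) (Or.inl ht0.ne')).const_mul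
          (p - 1)
        refine (h1.sub h2).congr_deriv ?_
        rw [add_sub_cancel_left, sub_sub_cancel_left, ← mul_assoc, e3]
        ring)
      (fun t ht => by
        have ht0 : 0 < t := by linarith [ht.1]
        have h1 := abs_rpow_sub_one_le ht0.le hs0 hs1
        have h2 : |t - 1| ≤ |uu p a - uu p b| + |uu p b - 1| := by
          have h3 : |t - uu p b| ≤ |uu p a - uu p b| := abs_le.2 ⟨by linarith [ht.1], by linarith [ht.2]⟩
          linarith [abs_sub_le t (uu p b) 1]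
        have h4 : t ^ (-s) ≤ 2 * θ := by
          rw [Real.rpow_neg ht0.le, ← Real.inv_rpow ht0.le]
          have h5 : t⁻¹ ≤ 2 * θ := by
            rw [inv_le_iff_one_le_mul₀ ht0]
            nlinarith [ht.1]
          exact (Real.rpow_le_rpow (inv_nonneg.2 ht0.le) h5 hs0).trans
            (Real.rpow_le_self_of_one_le (by linarith) hs1)
        have h6 : 0 < t ^ (-s) := Real.rpow_pos_of_pos ht0 _
        have h7 : t ^ s - t ^ (-s) = (t ^ s - 1) * (1 + t ^ (-s)) := by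
          have : t ^ s * t ^ (-s) = 1 := by rw [← Real.rpow_add ht0]; simp
          linear_combination (-1 : ℝ) * this
        rw [h7, abs_mul, abs_mul, abs_of_nonneg (by linarith : 0 ≤ 1 + s),
          abs_of_nonneg (by linarith : 0 ≤ 1 + t ^ (-s))]
        calc (1 + s) * (|t ^ s - 1| * (1 + t ^ (-s)))
            ≤ 2 * ((|uu p a - uu p b| + |uu p b - 1|) * (3 * θ)) := by
              gcongr <;> linarith
          _ = _ := by ring)
      ⟨by linarith, by linarith⟩
      ⟨by linarith [neg_abs_le (uu p a - uu p b)], by linarith [le_abs_self (uu p a - uu p b)]⟩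
    rw [← ga a ha, ← ga b hb, ← ia a ha, ← ia b hb] at key
    have e4 : gp p a - gp p b - (p - 1) * (a - b)
        = gp p a - (p - 1) * a - (gp p b - (p - 1) * b) := by ring
    rw [e4]
    refine key.trans ?_
    have h8 : 6 * θ ≤ 72 * p * θ ^ 2 := by nlinarith
    have h9 := mul_le_mul_of_nonneg_right h8 (mul_nonneg hD (add_nonneg hD hE))
    linarith
  · obtain ⟨D, hDD⟩ : ∃ D, D = |uu p a - uu p b| := ⟨_, rfl⟩
    rw [← hDD] at hc hD ⊢
    have h1 : 1 ≤ 6 * θ * D := by nlinarith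
    have h2 : 3 * D ≤ 6 * θ * D := by nlinarith
    have hx : |uu p a| ≤ 6 * θ * D := by
      have := abs_sub_abs_le_abs_sub (uu p a) (uu p b)
      rw [abs_of_pos hy] at this
      linarith
    have hy' : |uu p b| ≤ 6 * θ * D := by rw [abs_of_pos hy]; linarith
    have g1 : ∀ c : ℝ, |uu p c| ≤ 6 * θ * D → |gp p c| ≤ (6 * θ * D) ^ 2 := fun c hc => by
      rw [abs_gp hp1, abs_eq_uu hp0, e1]
      exact crude (abs_nonneg _) hc h1 (by linarith) (by linarith)
    have g2 : ∀ c : ℝ, |uu p c| ≤ 6 * θ * D → |c| ≤ (6 * θ * D) ^ 2 := fun c hc => by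
      rw [← Real.rpow_one |c|, abs_eq_uu hp0, e2]
      exact crude (abs_nonneg _) hc h1 (by linarith) (by linarith)
    have h3 : |gp p a - gp p b| ≤ 2 * (6 * θ * D) ^ 2 := by
      linarith [abs_sub (gp p a) (gp p b), g1 a hx, g1 b hy']
    have h4 : |(p - 1) * (a - b)| ≤ (p - 1) * (2 * (6 * θ * D) ^ 2) := by
      rw [abs_mul, abs_of_nonneg (by linarith : 0 ≤ p - 1)]
      refine mul_le_mul_of_nonneg_left ?_ (by linarith)
      linarith [abs_sub a b, g2 a hx, g2 b hy']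
    have h5 : 0 ≤ 72 * p * θ ^ 2 * (D * |uu p b - 1|) := by positivity
    have h6 := abs_sub (gp p a - gp p b) ((p - 1) * (a - b))
    nlinarith

/-- The case `b = 1` of `PW2`. -/
lemma pw2_one {p a : ℝ} (hp : 2 < p) (ha : |a - 1| ≤ 1 / 4) :
    |a ^ p - p * (a - 1) - p / 2 * ((a ^ (p - 1) - 1) * (a - 1)) - 1|
      ≤ p ^ 3 * 2 ^ p * |a - 1| ^ 3 := by
  obtain ⟨r, hr⟩ : ∃ r, r = |a - 1| := ⟨_, rfl⟩
  have hr0 : 0 ≤ r := hr ▸ abs_nonneg _
  have h2p : (0 : ℝ) < 2 ^ p := by positivity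
  have one : (1 : ℝ) ∈ Set.Icc (1 - r) (1 + r) := ⟨by linarith, by linarith⟩
  have near : ∀ t ∈ Set.Icc (1 - r) (1 + r), |t - 1| ≤ r := fun t ht =>
    abs_le.2 ⟨by linarith [ht.1], by linarith [ht.2]⟩
  have k1 : ∀ t ∈ Set.Icc (1 - r) (1 + r),
      |p / 2 * (t ^ (p - 1) - 1 - (p - 1) * t ^ (p - 2) * (t - 1))| ≤ p ^ 3 * 2 ^ p * r ^ 2 := by
    intro t ht
    have key := mvt (f := fun t => p / 2 * (t ^ (p - 1) - 1 - (p - 1) * t ^ (p - 2) * (t - 1)))
      (f' := fun t => -(p / 2 * ((p - 1) * ((p - 2) * (t ^ (p - 3) * (t - 1))))))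
      (C := p ^ 3 * 2 ^ p * r) (l := 1 - r) (u := 1 + r)
      (fun t ht => by
        have ht0 : 0 < t := by linarith [ht.1]
        have h1 := Real.hasDerivAt_rpow_const (x := t) (p := p - 1) (Or.inl ht0.ne')
        have h2 := Real.hasDerivAt_rpow_const (x := t) (p := p - 2) (Or.inl ht0.ne')
        have h3 := (((h1.sub_const 1).sub ((h2.const_mul (p - 1)).mul
          ((hasDerivAt_id t).sub_const 1))).const_mul (p / 2))
        refine h3.congr_deriv ?_
        rw [show p - 1 - 1 = p - 2 by ring, show p - 2 - 1 = p - 3 by ring]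
        simp only [id]
        ring)
      (fun t ht => by
        have ht0 : 0 < t := by linarith [ht.1]
        have h1 : t ^ (p - 3) ≤ 2 * 2 ^ p := by
          have e2 : t ^ (p - 3) * t = t ^ (p - 2) := by
            rw [← Real.rpow_add_one ht0.ne']; congr 1; ring
          have h3 : t ^ (p - 2) ≤ 2 ^ p :=
            (Real.rpow_le_rpow ht0.le (by linarith [ht.2] : t ≤ 2) (by linarith)).trans
              (Real.rpow_le_rpow_of_exponent_le (by norm_num) (by linarith))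
          have h4 := Real.rpow_pos_of_pos ht0 (p - 3)
          nlinarith [ht.1]
        have h4 := Real.rpow_pos_of_pos ht0 (p - 3)
        rw [abs_neg, abs_mul, abs_mul, abs_mul, abs_mul, abs_of_nonneg (by linarith : 0 ≤ p / 2),
          abs_of_nonneg (by linarith : 0 ≤ p - 1), abs_of_nonneg (by linarith : 0 ≤ p - 2),
          abs_of_pos h4]
        have h5 := near t ht
        calc p / 2 * ((p - 1) * ((p - 2) * (t ^ (p - 3) * |t - 1|)))
            ≤ p / 2 * (p * (p * (2 * 2 ^ p * r))) := by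
              have : 0 ≤ p - 2 := by linarith
              gcongr <;> linarith
          _ = _ := by ring) one ht
    simp only [Real.one_rpow, sub_self, mul_zero, sub_zero] at key
    refine key.trans ?_
    have := mul_le_mul_of_nonneg_left (near t ht) (by positivity : 0 ≤ p ^ 3 * 2 ^ p * r)
    linarith
  have key := mvt (f := fun t => t ^ p - p * (t - 1) - p / 2 * ((t ^ (p - 1) - 1) * (t - 1)))
    (l := 1 - r) (u := 1 + r) (y := a)
    (fun t ht => by
      have ht0 : 0 < t := by linarith [ht.1]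
      have h1 := Real.hasDerivAt_rpow_const (x := t) (p := p) (Or.inl ht0.ne')
      have h2 := Real.hasDerivAt_rpow_const (x := t) (p := p - 1) (Or.inl ht0.ne')
      have h0 := (hasDerivAt_id t).sub_const 1
      have h3 := (h1.sub (h0.const_mul p)).sub (((h2.sub_const 1).mul h0).const_mul (p / 2))
      refine h3.congr_deriv ?_
      rw [show p - 1 - 1 = p - 2 by ring]
      simp only [id]
      ring) k1 one ⟨by linarith [neg_abs_le (a - 1)], by linarith [le_abs_self (a - 1)]⟩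
  simp only [Real.one_rpow, sub_self, mul_zero, sub_zero] at key
  rw [← hr] at key ⊢
  linarith

end PWBX

open PWBX

theorem pw1 {p : ℝ} (hp : 2 < p) : ∃ C, 1 ≤ C ∧ PW1 p C := by
  refine ⟨72 * p, by linarith, fun a b A θ hb hA hθ h => ?_⟩
  obtain ⟨a, rfl⟩ : ∃ a', a = A * a' := ⟨a / A, by field_simp⟩
  obtain ⟨b, rfl⟩ : ∃ b', b = A * b' := ⟨b / A, by field_simp⟩
  have hb' : 0 < b := (mul_pos_iff_of_pos_left hA).1 hb
  have hU := Real.rpow_pos_of_pos hA (p / 2)
  have hV := Real.rpow_pos_of_pos hA (p - 1)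
  have eA : uu p A = A ^ (p / 2) := uu_of_nonneg (by linarith) hA.le
  have eV : A ^ (p - 1) = A ^ (p - 2) * A := by
    rw [← Real.rpow_add_one hA.ne']; congr 1; ring
  rw [uu_mul hA, eA] at h
  have key := pw1_one (a := a) hp hb' hθ (le_of_mul_le_mul_left (by linarith) hU)
  have e1 : gp p (A * a) - gp p (A * b) - om p A * (A * a - A * b)
      = A ^ (p - 1) * (gp p a - gp p b - (p - 1) * (a - b)) := by
    rw [gp_mul hA, gp_mul hA, om, eV]; ring
  have e2 : A ^ (p / 2) * uu p b - A ^ (p / 2) = A ^ (p / 2) * (uu p b - 1) := by ring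
  rw [e1, uu_mul hA, uu_mul hA, eA, ← mul_sub, e2, abs_mul, abs_mul, abs_mul, abs_of_pos hU,
    abs_of_pos hV, le_div_iff₀ hA]
  have h1 := mul_le_mul_of_nonneg_left key (mul_pos hV hA).le
  rw [← half_sq hA] at h1
  calc _ = A ^ (p / 2) * A ^ (p / 2) * |gp p a - gp p b - (p - 1) * (a - b)| := by
        rw [half_sq hA]; ring
    _ ≤ _ := h1
    _ = _ := by ring

theorem pw2 {p : ℝ} (hp : 2 < p) : ∃ C, 1 ≤ C ∧ PW2 p C := by
  have hp0 : 0 < p := by linarith
  have hp1 : 1 < p := by linarith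
  have h2p : (1 : ℝ) ≤ 2 ^ p := Real.one_le_rpow (by norm_num) hp0.le
  have hC : 1 ≤ p ^ 3 * 2 ^ p := one_le_mul_of_one_le_of_one_le (one_le_pow₀ hp1.le) h2p
  refine ⟨p ^ 3 * 2 ^ p, hC, fun a b hb h => ?_⟩
  obtain ⟨a, rfl⟩ : ∃ a', a = b * a' := ⟨a / b, by field_simp⟩
  have hU := Real.rpow_pos_of_pos hb (p / 2)
  have hV := Real.rpow_pos_of_pos hb (p - 1)
  have eA : uu p b = b ^ (p / 2) := uu_of_nonneg hp0 hb.le
  have eV : b ^ p = b ^ (p - 1) * b := by
    rw [← Real.rpow_add_one hb.ne']; congr 1; ring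
  have e2 : uu p (b * a) - uu p b = b ^ (p / 2) * (uu p a - 1) := by rw [uu_mul hb, eA]; ring
  rw [e2, eA, abs_mul, abs_of_pos hU] at h ⊢
  have h1 : |uu p a - 1| ≤ 1 / 4 := le_of_mul_le_mul_left (by linarith) hU
  obtain ⟨ha, h2, -⟩ := near_of_uu (p := p) (a := a) (A := 1) (ρ := |uu p a - 1|) hp.le one_pos
    (by linarith) (by rw [uu_one, mul_one])
  rw [mul_one] at h2
  have key := pw2_one hp (h2.trans h1)
  have e1 : breg p (b * a) b - p / 2 * ((gp p (b * a) - gp p b) * (b * a - b))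
      = b ^ (p - 1) * b * (a ^ p - p * (a - 1) - p / 2 * ((a ^ (p - 1) - 1) * (a - 1)) - 1) := by
    rw [breg, gp_mul hb, gp_of_nonneg hp1 ha.le, gp_of_nonneg hp1 hb.le,
      abs_of_pos (mul_pos hb ha), abs_of_pos hb, Real.mul_rpow hb.le ha.le, eV]
    ring
  rw [e1, abs_mul, abs_of_pos (mul_pos hV hb), ← half_sq hb, le_div_iff₀ hU]
  have h3 : p ^ 3 * 2 ^ p * |a - 1| ^ 3 ≤ p ^ 3 * 2 ^ p * |uu p a - 1| ^ 3 := by gcongr
  have h4 := mul_le_mul_of_nonneg_left (key.trans h3) (pow_pos hU 3).le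
  calc _ = (b ^ (p / 2)) ^ 3
        * |a ^ p - p * (a - 1) - p / 2 * ((a ^ (p - 1) - 1) * (a - 1)) - 1| := by ring
    _ ≤ _ := h4
    _ = _ := by ring

end Pool.Agent.MP_30195a_an.Gr
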