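import Pool.Agent.MP_30195a_an.Gr.Node

/-!
# Greedy bases: the supermartingale on the tree
-/

set_option autoImplicit false

namespace Pool.Agent.MP_30195a_an.Gr

variable {p K : ℝ} {σ : St} {w : Word}

lemma inv_step {a Y t : ℝ} (ha : 8 ≤ a) (hY : a ≤ Y) (ht : |t| ≤ 4) :
    a / (Y + t) ≤ a / Y - a * t * Y⁻¹ ^ 2 + 32 * Y⁻¹ ^ 2 := by
  obtain ⟨t1, t2⟩ := abs_le.1 ht
  have h0 : 0 < Y := by linarith
  have h1 : 0 < Y + t := by linarith
  have e : a / (Y + t) = a / Y - a * t * Y⁻¹ ^ 2 + a * t ^ 2 / (Y + t) * Y⁻¹ ^ 2 := by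
    field_simp; ring
  have h2 : a * t ^ 2 / (Y + t) ≤ 32 := by
    rw [div_le_iff₀ h1]
    have : t ^ 2 ≤ 16 := by nlinarith
    nlinarith
  rw [e]
  gcongr

namespace Frame

variable (R : Frame p K)

/-- The level corrected by the drift. -/
noncomputable def Y (ε : ℝ) (w : Word) : ℝ := R.U w / ε - w.length / 60

/-- The supermartingale. -/
noncomputable def Psi (ε a : ℝ) (w : Word) : ℝ := 4 * (R.e w / ε ^ 2 - 1) ^ 2 + a / R.Y ε w

/-- Good nodes. -/
def Good (ε a : ℝ) (w : Word) : Prop := R.Psi ε a w < 1 ∧ 0 < R.Y ε w ∧ 0 < R.zeta ε w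

variable {R} {C₁ C ε a : ℝ} (H : R.Big C₁ C ε a)
include H

lemma Big.good (h : R.Good ε a w) :
    a ≤ R.Y ε w ∧ 1 / 2 < R.e w / ε ^ 2 ∧ R.e w ≤ 3 / 2 * ε ^ 2 ∧ a * ε ≤ R.U w := by
  obtain ⟨h1, h2, -⟩ := h
  have h0 := H.pos
  have a1 : 0 < a / R.Y ε w := div_pos (by linarith [H.ha]) h2
  rw [Psi] at h1
  have a2 : a ≤ R.Y ε w := (div_le_one h2).1 (by nlinarith [sq_nonneg (R.e w / ε ^ 2 - 1)])
  refine ⟨a2, by nlinarith, (div_le_iff₀ (by positivity)).1 (by nlinarith), ?_⟩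
  have : (0 : ℝ) ≤ w.length / 60 := by positivity
  rw [Y] at a2
  exact (le_div_iff₀ h0).1 (by linarith)

lemma Big.anc (h : Fair (R.Good ε a) w) : R.Anc ε a w := by
  induction w with
  | nil => trivial
  | cons i w ih => exact ⟨ih h.1, (H.good h.2).2.2⟩

lemma Big.ystep {i : Fin 3} (h : R.Anc ε a (i :: w)) : |R.Y ε (i :: w) - R.Y ε w| ≤ 4 := by
  have h1 : |R.U (i :: w) / ε - R.U w / ε| ≤ 3 := by
    rw [← sub_div, abs_div, abs_of_pos H.pos, div_le_iff₀ H.pos]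
    exact H.ustep h
  rw [abs_le] at h1 ⊢
  simp only [Y, List.length_cons]
  push_cast
  constructor <;> linarith [h1.1, h1.2]

lemma Big.e_root : R.e [] / ε ^ 2 = 1 := by rw [H.sq, div_self (pow_pos H.pos 2).ne']

lemma Big.Y_root : 2 * a ≤ R.Y ε [] := by
  simpa [Y] using (le_div_iff₀ H.pos).2 H.root2

lemma Big.fair (h : Fair (R.Good ε a) w) :
    1 ≤ R.Y ε w ∧ 1 / 4 ≤ R.zeta ε w ∧ R.U w ≤ R.U [] + 3 * ε * w.length := by
  induction w with
  | nil =>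
    have hp : 1 < p := by linarith [H.hp]
    have h1 : 0 < R.zeta ε [] := by
      rw [zeta, R.J_nil hp, mul_one]
      exact div_pos (om_pos hp (H.A_pos trivial)) (H.sc_pos trivial)
    have h2 := H.half_le (w := []) trivial (by rw [H.e_root]; norm_num) h1
    exact ⟨by linarith [H.Y_root, H.ha], by linarith, by simp⟩
  | cons i w ih =>
    have h1 := H.anc h
    obtain ⟨g1, g2, -⟩ := H.good h.2
    refine ⟨by linarith [(abs_le.1 (H.ystep h1)).1, H.ha],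
      (H.step h1 (H.half_le h1.1 g2 h.2.2.2)).2, ?_⟩
    rw [List.length_cons]
    push_cast
    linarith [(abs_le.1 (H.ustep h1)).2, (ih h.1).2.2]

lemma Big.super (h : Fair (R.Good ε a) w) (hg : R.Good ε a w) :
    (R.Psi ε a (0 :: w) + R.Psi ε a (1 :: w) + R.Psi ε a (2 :: w)) / 3 ≤ R.Psi ε a w := by
  have hA : ∀ i : Fin 3, R.Anc ε a (i :: w) := fun i => H.anc (w := i :: w) ⟨h, hg⟩
  obtain ⟨g1, g2, -⟩ := H.good hg
  have hz := H.half_le (hA 0).1 g2 hg.2.2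
  have ha := H.ha
  have h0 := H.pos
  have hY : 0 < R.Y ε w := hg.2.1
  have hδ : R.del C ε w ≤ C * (R.Y ε w)⁻¹ := by
    refine mul_le_mul_of_nonneg_left ?_ (by linarith [H.one_le])
    rw [← inv_div]
    refine inv_anti₀ hY ?_
    rw [Y]
    exact sub_le_self _ (by positivity)
  have v : ∀ i : Fin 3, (R.e (i :: w) / ε ^ 2 - R.e w / ε ^ 2) ^ 2
      ≤ 660 ^ 2 * (C ^ 2 * (R.Y ε w)⁻¹ ^ 2) := fun i => by
    have := pow_le_pow_left₀ (abs_nonneg _) ((H.step (hA i) hz).1.trans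
      (mul_le_mul_of_nonneg_left hδ (by norm_num))) 2
    rw [sq_abs] at this
    linarith
  have s : ∀ i : Fin 3, a / R.Y ε (i :: w) ≤ a / R.Y ε w
      - a * (R.Y ε (i :: w) - R.Y ε w) * (R.Y ε w)⁻¹ ^ 2 + 32 * (R.Y ε w)⁻¹ ^ 2 := fun i => by
    have := inv_step (by linarith) g1 (H.ystep (hA i))
    rwa [add_sub_cancel] at this
  have m : R.e w / ε ^ 2
      = (R.e (0 :: w) / ε ^ 2 + R.e (1 :: w) / ε ^ 2 + R.e (2 :: w) / ε ^ 2) / 3 := by
    rw [R.e_mart (by linarith [H.hp]) w]; ring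
  have d : 1 / 20 ≤ R.Y ε (0 :: w) - R.Y ε w + (R.Y ε (1 :: w) - R.Y ε w)
      + (R.Y ε (2 :: w) - R.Y ε w) := by
    have := div_le_div_of_nonneg_right (H.drift (hA 0) hz) h0.le
    have e : (3 * R.U w + ε / 10) / ε = 3 * (R.U w / ε) + 1 / 10 := by field_simp
    rw [e, add_div, add_div] at this
    simp only [Y, List.length_cons]
    push_cast
    linarith
  have x0 : 0 ≤ (R.Y ε w)⁻¹ ^ 2 := sq_nonneg _
  have d2 := mul_le_mul_of_nonneg_left d (mul_nonneg (by linarith : 0 ≤ a) x0)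
  have d3 := mul_le_mul_of_nonneg_right H.big x0
  have d4 := mul_le_mul_of_nonneg_right (one_le_pow₀ (n := 2) H.one_le) x0
  have v0 := v 0
  have v1 := v 1
  have v2 := v 2
  have s0 := s 0
  have s1 := s 1
  have s2 := s 2
  simp only [Psi]
  have q : (R.e (0 :: w) / ε ^ 2 - 1) ^ 2 + (R.e (1 :: w) / ε ^ 2 - 1) ^ 2
      + (R.e (2 :: w) / ε ^ 2 - 1) ^ 2 = 3 * (R.e w / ε ^ 2 - 1) ^ 2
      + ((R.e (0 :: w) / ε ^ 2 - R.e w / ε ^ 2) ^ 2 + (R.e (1 :: w) / ε ^ 2 - R.e w / ε ^ 2) ^ 2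
      + (R.e (2 :: w) / ε ^ 2 - R.e w / ε ^ 2) ^ 2) := by rw [m]; ring
  linarith

lemma Big.scale (h : Fair (R.Good ε a) w) :
    ε * (ε / 60) ^ (1 - 2 / p) * prof p w ≤ R.sc ε w ∧
      R.sc ε w ≤ ε * (R.U [] + 3 * ε) ^ (1 - 2 / p) * prof p w := by
  have hp := H.hp
  have h0 := H.pos
  have hb : 0 ≤ 1 - 2 / p := sub_nonneg.2 ((div_le_one (by linarith)).2 hp.le)
  have hU := H.U_pos (w := []) trivial
  have hn : (0 : ℝ) ≤ w.length := Nat.cast_nonneg _
  obtain ⟨h1, -, h2⟩ := H.fair h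
  rw [Y, le_sub_iff_add_le, le_div_iff₀ h0] at h1
  rw [sc, rpow_half_eq (by linarith) (H.A_pos (H.anc h)), prof, mul_assoc, mul_assoc,
    ← Real.mul_rpow (by positivity) (by positivity), ← Real.mul_rpow (by positivity) (by positivity)]
  exact ⟨mul_le_mul_of_nonneg_left (Real.rpow_le_rpow (by positivity)
    (le_trans (by nlinarith) h1) hb) h0.le, mul_le_mul_of_nonneg_left (Real.rpow_le_rpow
    (H.U_pos (H.anc h)).le (h2.trans (by nlinarith)) hb) h0.le⟩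

lemma Big.core : ∃ c C' : ℝ, Core p K c C' (R.Good ε a) (R.Psi ε a) := by
  have hp := H.hp
  have hp1 : 1 < p := by linarith
  have h0 := H.pos
  have hC := H.one_le
  have ha := H.ha
  have hU := H.U_pos (w := []) trivial
  set c := ε * (ε / 60) ^ (1 - 2 / p) with hc
  set c' := ε * (R.U [] + 3 * ε) ^ (1 - 2 / p) with hc'
  set E := (|K + 1| ^ p + |K - 1| ^ p) / 2 + |K| ^ p with hE
  have c0 : 0 < c := by positivity
  have c1 : 0 < c' := by positivity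
  have E0 : 0 ≤ E := by positivity
  have pr0 : ∀ w, 0 ≤ prof p w := fun w => Real.rpow_nonneg (by positivity) _
  have lo : ∀ w x, Fair (R.Good ε a) w → R.sc ε w ≤ 8 * C * x → c / (8 * C) * prof p w ≤ x :=
    fun w x h hx => by
      rw [div_mul_eq_mul_div, div_le_iff₀' (by linarith)]
      exact (H.scale h).1.trans hx
  have hi : ∀ w x, Fair (R.Good ε a) w → x ≤ 10 * C * R.sc ε w →
      x ≤ (10 * C * c' + (1 + 2 * E)) * prof p w := fun w x h hx => by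
    have := mul_le_mul_of_nonneg_left (H.scale h).2 (by linarith : 0 ≤ 10 * C)
    have := mul_nonneg (by linarith : 0 ≤ 1 + 2 * E) (pr0 w)
    linarith
  have fz : ∀ w, Fair (R.Good ε a) w → 0 < R.sc ε w ∧ 1 / 4 * R.sc ε w ≤ R.zeta ε w * R.sc ε w ∧
      R.zeta ε w * R.sc ε w ≤ 5 * R.sc ε w ∧ R.del C ε w * R.sc ε w ≤ 1 / 1000 * R.sc ε w ∧
      R.sc ε w ≤ C * R.sc ε w := fun w h =>
    have n := H.sc_pos (H.anc h)
    ⟨n, mul_le_mul_of_nonneg_right (H.fair h).2.1 n.le,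
      mul_le_mul_of_nonneg_right (abs_le.1 (H.quad (H.anc h)).1).2 n.le,
      mul_le_mul_of_nonneg_right (H.del_le (H.anc h)).2.2 n.le, le_mul_of_one_le_left n.le hC⟩
  have gb : ∀ x : ℝ, |gp p x| ≤ 1 + |x| ^ p := fun x => by
    have := abs_gp_mul_le hp1 x 1
    simp only [mul_one, abs_one, Real.one_rpow] at this
    linarith
  have cc : 0 ≤ 10 * C * c' := by positivity
  refine ⟨c / (8 * C), 10 * C * c' + (1 + 2 * E), by positivity, ?_, fun w h => ?_,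
    fun w h hb => ?_, fun w h hg => H.super h hg, fun σ w h hσ hz => ?_,
    fun σ w h hσ s x b s0 s1 e1 e2 e3 e4 => ?_, fun σ i j w h hσ hij => ?_, fun σ hσ => ?_,
    by linarith⟩
  · rw [Psi, H.e_root, sub_self, zero_pow two_ne_zero, mul_zero, zero_add,
      div_le_iff₀ (by linarith [H.Y_root])]
    linarith [H.Y_root]
  · exact add_nonneg (by positivity) (div_nonneg (by linarith) (by linarith [(H.fair h).1]))
  · by_contra hcon
    exact hb ⟨not_le.1 hcon, by linarith [(H.fair h).1], by linarith [(H.fair h).2.1]⟩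
  · obtain ⟨f0, f1, f2, f3, f4⟩ := fz w h
    obtain ⟨f5, f6⟩ := abs_le.1 (H.fresh (H.anc h) hσ hz)
    refine ⟨lo w _ h ?_, hi w _ h (by linarith)⟩
    have : R.sc ε w ≤ 8 * (σ w).Z := by linarith
    nlinarith
  · obtain ⟨f1, f2⟩ := H.leaf (H.anc h) (H.fair h).2.1 hσ s0 s1 e1 e2 e3 e4
    exact ⟨lo w _ h f1, hi w _ h f2⟩
  · obtain ⟨f0, f1, f2, f3, f4⟩ := fz w h.1
    obtain ⟨f5, f6⟩ := abs_le.1 (H.future (H.anc h) hσ ((hσ.2.2.2 j).2 hij).2)
    exact hi w _ h.1 (abs_le.2 ⟨by linarith, by linarith⟩)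
  · have e := (R.hst []).le hp1 hσ
    rw [R.egy_st_nil, ← hE, egy] at e
    have n1 : 0 ≤ |K + (σ []).z| ^ p := by positivity
    have n2 : 0 ≤ |K - (σ []).z| ^ p := by positivity
    have i0 := hσ.nd.1 1 0 0 0 fun x => by linarith [Real.rpow_nonneg (abs_nonneg x) p]
    have i1 := hσ.nd.1 1 0 1 1 fun x => by linarith [(abs_le.1 (gb x)).1]
    have i2 := hσ.nd.1 1 0 (-1) 1 fun x => by linarith [(abs_le.1 (gb x)).2]
    exact ⟨by linarith [gb (K + (σ []).z)], by linarith [gb (K - (σ []).z)],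
      abs_le.2 ⟨by linarith, by linarith⟩⟩

end Frame

theorem coreStmt (hp : 2 < p) (h1 : ∃ C, 1 ≤ C ∧ PW1 p C) (h2 : ∃ C, 1 ≤ C ∧ PW2 p C)
    (hE : EndStates p) : CoreStmt p := by
  obtain ⟨C₁, c1, h1⟩ := h1
  obtain ⟨C₂, c2, h2⟩ := h2
  obtain ⟨C₃, c3, h3⟩ := exists_pwa hp.le
  have hp1 : 1 < p := by linarith
  have hT : (0 : ℝ) < 2 ^ (p - 2) := by positivity
  set C := 120000 * C₁ + C₂ + 2 ^ (p - 2) with hC
  have hC1 : 1 ≤ C := by linarith
  set a := 10 ^ 9 * C ^ 2 with ha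
  have ha1 : 43 ≤ a := by nlinarith
  set K := 3 * C₃ * a with hK
  have hK1 : 1 ≤ K := by nlinarith
  obtain ⟨R⟩ := exists_frame hp1 hE K
  have e0 : 0 < R.e [] := by
    have a1 := uu_sub_sq_le hp.le (K + 1) K
    have a2 := uu_strictMono (by linarith : 0 < p) (by linarith : K < K + 1)
    have a3 := breg_nonneg hp1 (K - 1) K
    rw [R.e_nil hp1]
    nlinarith [pow_pos (sub_pos.2 a2) 2]
  have e1 : R.e [] ≤ 2 * C₃ * K ^ (p - 2) := by
    have a1 := h3 K 1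
    have a2 := h3 K (-1)
    have a3 := mul_le_mul_of_nonneg_left (Real.one_le_rpow hK1 (by linarith : 0 ≤ p - 2))
      (by linarith : 0 ≤ C₃)
    simp only [abs_one, abs_neg, Real.one_rpow, abs_of_pos (by linarith : 0 < K)] at a1 a2
    rw [R.e_nil hp1, breg, breg, abs_of_pos (by linarith : 0 < K), sub_eq_add_neg K 1]
    linarith
  have e2 : 2 * a * √(R.e []) ≤ R.U [] := by
    have hU : 0 < R.U [] := by rw [Frame.U, R.A_nil]; exact (uu_pos_iff (by linarith)).2 (by linarith)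
    refine abs_le_of_sq_le_sq' ?_ hU.le |>.2
    have a1 : K ^ p = K ^ (p - 2) * K ^ 2 := by
      rw [← Real.rpow_two, ← Real.rpow_add (by linarith), sub_add_cancel]
    rw [mul_pow, Real.sq_sqrt e0.le, Frame.U, R.A_nil, uu_sq (by linarith),
      abs_of_pos (by linarith : 0 < K), a1]
    have a2 : (2 * a) ^ 2 * (2 * C₃) ≤ K ^ 2 := by
      rw [hK]; nlinarith [mul_nonneg (sq_nonneg a) (by nlinarith : 0 ≤ 9 * C₃ ^ 2 - 8 * C₃)]
    have a3 := mul_le_mul_of_nonneg_left a2 (Real.rpow_nonneg (by linarith : 0 ≤ K) (p - 2))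
    have a4 := mul_le_mul_of_nonneg_left e1 (sq_nonneg (2 * a))
    linarith
  have s0 := Real.sqrt_pos.2 e0
  have H : R.Big C₁ C (√(R.e [])) a :=
    { hp := hp, c1 := c1, pw1 := h1
      pw2 := fun x b hb hx => (h2 x b hb hx).trans (by
        have := (uu_pos_iff (by linarith : 0 < p)).2 hb
        gcongr
        linarith)
      hC := by linarith, pos := s0, sq := (Real.sq_sqrt e0.le).symm, ha := ha1
      root := by nlinarith, hT := by linarith, big := le_rfl, root2 := e2 }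
  obtain ⟨c, C', h⟩ := H.core
  exact ⟨K, c, C', _, _, h⟩

end Pool.Agent.MP_30195a_an.Gr
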