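import Pool.Agent.MP_30195a_an.Gr.Spec

/-!
# Greedy bases: the operator on the tree with two passive halves
-/

set_option autoImplicit false

open Finset

namespace Pool.Agent.MP_30195a_an.Gr

lemma Sys.abs_av_rpow_le (S : Sys) {p : ℝ} (hp : 1 < p) {v : Word} (hv : S.Node v)
    (ψ : S.X → ℝ) : |S.av v ψ| ^ p ≤ S.av v fun x => |ψ x| ^ p := by
  set a := S.av v ψ with ha
  have h1 : S.av v (fun x => |a| ^ p + (p * gp p a) * (ψ x - a)) ≤ S.av v fun x => |ψ x| ^ p :=
    S.av_mono fun x _ => by have := breg_nonneg hp (ψ x) a; unfold breg at this; linarith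
  rw [S.av_add, S.av_mul, S.av_sub, S.av_const hv, S.av_const hv, ← ha] at h1
  linarith

lemma Sys.hull (S : Sys) (p : ℝ) {v : Word} (hv : S.Node v) (f : S.X → ℝ) :
    Hull p (S.av v fun x => |f x| ^ p) (S.av v f) (S.av v fun x => gp p (f x)) := by
  intro α β γ δ h
  have := S.av_nonneg (v := v) fun x _ => h (f x)
  rwa [S.av_add, S.av_add, S.av_add, S.av_mul, S.av_mul, S.av_mul, S.av_const hv] at this

variable (S S' : Sys)

/-- Cells: the tree and two passive halves. -/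
abbrev Yt : Type := S.X ⊕ Bool × S'.X

/-- Weights of the cells. -/
noncomputable def muT : Yt S S' → ℝ
  | Sum.inl x => S.μ x
  | Sum.inr y => S'.μ y.2 / 2

/-- The mean over a passive half. -/
noncomputable def ap (b : Bool) (ψ : Yt S S' → ℝ) : ℝ := S'.av [] fun x => ψ (Sum.inr (b, x))

/-- The level of the tree. -/
noncomputable def lv0 (ψ : Yt S S' → ℝ) : ℝ := (ap S S' true ψ - ap S S' false ψ) / 2

/-- The level of a passive half. -/
noncomputable def lvP (b : Bool) (ψ : Yt S S' → ℝ) : ℝ :=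
  (ap S S' true ψ + ap S S' false ψ) / 2
    + (if b then 1 else -1) * S.av [] fun x => ψ (Sum.inl x)

/-- The full operator. -/
noncomputable def rootF (κ : ℝ) (ψ : Yt S S' → ℝ) : Yt S S' → ℝ
  | Sum.inl x => S.op κ (lv0 S S' ψ) (fun x => ψ (Sum.inl x)) x
  | Sum.inr y => S'.op κ (lvP S S' y.1 ψ) (fun x => ψ (Sum.inr (y.1, x))) y.2

/-- The full operator as a linear map. -/
noncomputable def rootL (κ : ℝ) : (Yt S S' → ℝ) →ₗ[ℝ] (Yt S S' → ℝ) where
  toFun := rootF S S' κ
  map_add' ψ ψ' := by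
    funext y
    rcases y with x | y
    · simp only [rootF, Pi.add_apply, ← Sys.op_add]
      congr 1
      simp only [lv0, ap, Pi.add_apply, Sys.av_add]; ring
    · simp only [rootF, Pi.add_apply, ← Sys.op_add]
      congr 1
      simp only [lvP, ap, Pi.add_apply, Sys.av_add]; ring
  map_smul' c ψ := by
    funext y
    rcases y with x | y
    · simp only [rootF, Pi.smul_apply, smul_eq_mul, RingHom.id_apply, ← Sys.op_mul]
      congr 1
      simp only [lv0, ap, Pi.smul_apply, smul_eq_mul, Sys.av_mul]; ring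
    · simp only [rootF, Pi.smul_apply, smul_eq_mul, RingHom.id_apply, ← Sys.op_mul]
      congr 1
      simp only [lvP, ap, Pi.smul_apply, smul_eq_mul, Sys.av_mul]; ring

lemma sum_muT (F : Yt S S' → ℝ) : ∑ y, muT S S' y * F y = S.av [] (fun x => F (Sum.inl x))
    + (ap S S' true F + ap S S' false F) / 2 := by
  simp only [Fintype.sum_sum_type, Fintype.sum_prod_type, Fintype.sum_bool, muT, ap, Sys.av_nil,
    add_div, sum_div]
  congr 2 <;> exact sum_congr rfl fun x _ => by ring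

lemma av_rootF (κ : ℝ) (ψ : Yt S S' → ℝ) :
    S.av [] (fun x => rootF S S' κ ψ (Sum.inl x)) = lv0 S S' ψ :=
  S.av_op κ _ _ (v := []) trivial

lemma ap_rootF (κ : ℝ) (b : Bool) (ψ : Yt S S' → ℝ) :
    ap S S' b (rootF S S' κ ψ) = lvP S S' b ψ :=
  S'.av_op κ (lvP S S' b ψ) (fun x => ψ (Sum.inr (b, x))) (v := []) trivial

lemma rootF_inv {κ : ℝ} (hκ : κ ^ 2 = 1 / 3) (ψ : Yt S S' → ℝ) :
    rootF S S' (-κ) (rootF S S' κ ψ) = ψ := by
  funext y
  rcases y with x | ⟨b, x⟩
  · have e : lv0 S S' (rootF S S' κ ψ) = S.av [] fun x => ψ (Sum.inl x) := by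
      simp only [lv0, ap_rootF, lvP]; simp
    rw [rootF, e]
    exact congrFun (S.op_inv hκ _ _) x
  · have e : lvP S S' b (rootF S S' κ ψ) = S'.av [] fun x => ψ (Sum.inr (b, x)) := by
      rw [lvP, av_rootF, ap_rootF, ap_rootF]
      cases b <;> simp [lvP, lv0, ap] <;> ring
    rw [rootF, e]
    exact congrFun (S'.op_inv hκ (lvP S S' b ψ) fun x => ψ (Sum.inr (b, x))) x

lemma rootF_adj (κ : ℝ) (ψ ψ' : Yt S S' → ℝ) :
    ∑ y, muT S S' y * (ψ' y * rootF S S' κ ψ y)
      = ∑ y, muT S S' y * (rootF S S' (-κ) ψ' y * ψ y) := by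
  have h0 := S.pairing κ (lv0 S S' ψ) (lv0 S S' ψ') (fun x => ψ (Sum.inl x))
    (fun x => ψ' (Sum.inl x)) (v := []) trivial
  have h1 := fun b => S'.pairing κ (lvP S S' b ψ) (lvP S S' b ψ') (fun x => ψ (Sum.inr (b, x)))
    (fun x => ψ' (Sum.inr (b, x))) (v := []) trivial
  have h2 := h1 true
  have h3 := h1 false
  rw [sum_muT, sum_muT]
  simp only [ap, rootF]
  simp only [Sys.lev, lv0, lvP, ap, if_true, Bool.false_eq_true, if_false] at h0 h2 h3 ⊢
  linear_combination h0 + (h2 + h3) / 2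

lemma rootF_bd {p D : ℝ} (hp : 1 < p) (hD : 0 ≤ D) (h : LPB p D) {κ : ℝ} (hκ : κ ^ 2 = 1 / 3)
    (ψ : Yt S S' → ℝ) : ∑ y, muT S S' y * |rootF S S' κ ψ y| ^ p
      ≤ D * (3 + 4 * 4 ^ p) * ∑ y, muT S S' y * |ψ y| ^ p := by
  have hp0 : 0 ≤ p := by linarith
  have h0 := h S κ (lv0 S S' ψ) (fun x => ψ (Sum.inl x)) hκ
  have h1 := fun b => h S' κ (lvP S S' b ψ) (fun x => ψ (Sum.inr (b, x))) hκ
  simp only [← Sys.av_nil] at h0 h1
  set N := ∑ y, muT S S' y * |ψ y| ^ p with hN
  have e := sum_muT S S' fun y => |ψ y| ^ p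
  rw [← hN] at e
  have n0 : 0 ≤ S.av [] fun x => |ψ (Sum.inl x)| ^ p := S.av_nonneg fun _ _ => by positivity
  have n1 : ∀ b, 0 ≤ ap S S' b fun y => |ψ y| ^ p := fun b =>
    S'.av_nonneg fun _ _ => by positivity
  have j0 := S.abs_av_rpow_le hp (v := []) trivial fun x => ψ (Sum.inl x)
  have j1 : ∀ b, |ap S S' b ψ| ^ p ≤ ap S S' b fun y => |ψ y| ^ p := fun b =>
    S'.abs_av_rpow_le hp (v := []) trivial fun x => ψ (Sum.inr (b, x))
  set M := max (max |ap S S' true ψ| |ap S S' false ψ|) |S.av [] fun x => ψ (Sum.inl x)| with hM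
  have m1 : |ap S S' true ψ| ≤ M := (le_max_left _ _).trans (le_max_left _ _)
  have m2 : |ap S S' false ψ| ≤ M := (le_max_right _ _).trans (le_max_left _ _)
  have m3 : |S.av [] fun x => ψ (Sum.inl x)| ≤ M := le_max_right _ _
  have hM0 : 0 ≤ M := (abs_nonneg _).trans m1
  have hMp : M ^ p ≤ 2 * N := by
    have a1 := j1 true
    have a2 := j1 false
    have a3 := n1 true
    have a4 := n1 false
    rcases max_choice (max |ap S S' true ψ| |ap S S' false ψ|)
      |S.av [] fun x => ψ (Sum.inl x)| with h2 | h2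
    · rcases max_choice |ap S S' true ψ| |ap S S' false ψ| with h3 | h3 <;>
        rw [hM, h2, h3] <;> linarith
    · rw [hM, h2]; linarith
  have key : ∀ x : ℝ, |x| ≤ 4 * M → |x| ^ p ≤ 4 ^ p * (2 * N) := fun x hx =>
    (Real.rpow_le_rpow (abs_nonneg _) hx hp0).trans (by
      rw [Real.mul_rpow (by norm_num) hM0]
      exact mul_le_mul_of_nonneg_left hMp (by positivity))
  obtain ⟨a1, a2⟩ := abs_le.1 m1
  obtain ⟨a3, a4⟩ := abs_le.1 m2
  obtain ⟨a5, a6⟩ := abs_le.1 m3
  have k0 := key (lv0 S S' ψ) (abs_le.2 ⟨by unfold lv0; linarith, by unfold lv0; linarith⟩)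
  have k1 := key (lvP S S' true ψ) (abs_le.2 ⟨by simp only [lvP, if_true]; linarith,
    by simp only [lvP, if_true]; linarith⟩)
  have k2 := key (lvP S S' false ψ) (abs_le.2
    ⟨by simp only [lvP, Bool.false_eq_true, if_false]; linarith,
      by simp only [lvP, Bool.false_eq_true, if_false]; linarith⟩)
  have b1 := h1 true
  have b2 := h1 false
  have c1 := n1 true
  have c2 := n1 false
  rw [sum_muT]
  simp only [ap, rootF] at e c1 c2 ⊢
  have hN0 : 0 ≤ N := by linarith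
  have t : |lv0 S S' ψ| ^ p + (|lvP S S' true ψ| ^ p + |lvP S S' false ψ| ^ p) / 2 + N
      ≤ (3 + 4 * 4 ^ p) * N := by linarith
  have t2 := mul_le_mul_of_nonneg_left t hD
  rw [e] at t2 ⊢
  linarith

/-- The weighted block of a tree with two passive halves. -/
noncomputable def rootWB {p D : ℝ} (hp : 1 < p) (hD : 0 ≤ D) (h : LPB p D) :
    WB p (D * (3 + 4 * 4 ^ p)) where
  Y := Yt S S'
  ne := ⟨Sum.inl (S.exists_under (v := []) trivial).choose⟩
  μ := muT S S'
  T := rootL S S' kap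
  T' := rootL S S' (-kap)
  μ_pos y := by
    rcases y with x | y
    · exact S.μ_pos x
    · exact half_pos (S'.μ_pos _)
  inv := rootF_inv S S' kap_sq
  adj := rootF_adj S S' kap
  bd := rootF_bd S S' hp hD h kap_sq
  bd' := rootF_bd S S' hp hD h (by rw [neg_sq, kap_sq])

/-- The data: `1` on the tree, `2 K` and `0` on the passive halves. -/
noncomputable def dat (K : ℝ) : Yt S S' → ℝ
  | Sum.inl _ => 1
  | Sum.inr y => if y.1 then 2 * K else 0

/-- The force density of `φ`. -/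
noncomputable def frcD (p : ℝ) (φ : Yt S S' → ℝ) : Yt S S' → ℝ :=
  rootF S S' (-kap) fun y => gp p (rootF S S' kap φ y)

/-- The fields of `φ` at the nodes of the tree. -/
noncomputable def stOf (p : ℝ) (φ : Yt S S' → ℝ) : St := fun w =>
  { z := S.av w fun x => φ (Sum.inl x)
    A := S.av w fun x => rootF S S' kap φ (Sum.inl x)
    Z := S.av w fun x => frcD S S' p φ (Sum.inl x)
    B := S.av w fun x => gp p (rootF S S' kap φ (Sum.inl x))
    I := S.av w fun x => |rootF S S' kap φ (Sum.inl x)| ^ p }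

/-- States of the algorithm are chain states. -/
def CsStmt (p : ℝ) : Prop :=
  ∀ (S S' : Sys) (K : ℝ) (Λ : S.X → Prop) (φ : Yt S S' → ℝ) (w : Word),
    (∀ y, φ (Sum.inr y) = dat S S' K (Sum.inr y)) → (∀ x, ¬ Λ x → φ (Sum.inl x) = 1) →
    (∀ x, Λ x → frcD S S' p φ (Sum.inl x) = 0) → S.During Λ w → CS p K (stOf S S' p φ) w

/-- A minimum of the energy along a cell has no force on the cell. -/
lemma WB.phi_eq_zero {p D : ℝ} (hp : 1 < p) (B : WB p D) (φ : B.Y → ℝ) (c : B.Y)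
    (hmin : ∀ l : ℝ, B.en φ ≤ B.en (φ + l • (Pi.single c 1 : B.Y → ℝ))) : B.phi φ c = 0 := by
  have hp0 : 0 < p := by linarith
  obtain ⟨C₀, hC₀, hs⟩ := pointwise_smooth hp
  set e : B.Y → ℝ := Pi.single c 1 with he
  have hd : ∑ y, B.μ y * (gp p (B.T φ y) * B.T e y) = B.μ c * B.phi φ c := by
    rw [B.adj e fun y => gp p (B.T φ y), sum_eq_single c]
    · simp [he, WB.phi]
    · intro y _ hy; simp [he, hy]
    · simp
  have key := eq_zero_of_le_rpow (d := -(p * (B.μ c * B.phi φ c)))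
    (K := C₀ * ∑ y, B.μ y * (|B.T φ y| ^ p + |B.T e y| ^ p)) (lt_min hp one_lt_two) fun l hl => by
      have h1 := hmin l
      have h2 : B.en (φ + l • e) ≤ ∑ y, B.μ y * (|B.T φ y| ^ p
          + p * l * (gp p (B.T φ y) * B.T e y)
          + C₀ * |l| ^ min p 2 * (|B.T φ y| ^ p + |B.T e y| ^ p)) := by
        refine sum_le_sum fun y _ => mul_le_mul_of_nonneg_left ?_ (B.μ_pos y).le
        rw [map_add, map_smul]
        exact hs _ _ l hl
      have h3 : ∑ y, B.μ y * (|B.T φ y| ^ p + p * l * (gp p (B.T φ y) * B.T e y)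
          + C₀ * |l| ^ min p 2 * (|B.T φ y| ^ p + |B.T e y| ^ p)) = B.en φ
          + p * l * ∑ y, B.μ y * (gp p (B.T φ y) * B.T e y)
          + C₀ * |l| ^ min p 2 * ∑ y, B.μ y * (|B.T φ y| ^ p + |B.T e y| ^ p) := by
        rw [WB.en, mul_sum, mul_sum, ← sum_add_distrib, ← sum_add_distrib]
        exact sum_congr rfl fun y _ => by ring
      rw [h3, hd] at h2
      linarith
  have := B.μ_pos c
  simpa [hp0.ne', this.ne'] using key

/-- States exist. -/
lemma WB.exists_state {p D : ℝ} (hp : 1 < p) (B : WB p D) (φ₀ : B.Y → ℝ) (Λ : Finset B.Y) :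
    ∃ φ, B.IsState φ₀ Λ φ := by
  have hp0 : 0 < p := by linarith
  have cT : Continuous B.T := B.T.continuous_of_finiteDimensional
  have cE : Continuous B.en := continuous_finsetSum _ fun y _ => continuous_const.mul
    (((continuous_apply y).comp cT).abs.rpow_const fun _ => Or.inr hp0.le)
  let C : Set (B.Y → ℝ) := {φ | (∀ c, c ∉ Λ → φ c = φ₀ c) ∧ B.en φ ≤ B.en φ₀}
  have hC : IsCompact C := by
    refine Metric.isCompact_of_isClosed_isBounded ?_ ?_
    · refine IsClosed.inter (s₁ := {φ : B.Y → ℝ | ∀ c, c ∉ Λ → φ c = φ₀ c}) ?_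
        (isClosed_le cE continuous_const)
      simp only [Set.ofPred_forall]
      exact isClosed_iInter fun c => isClosed_iInter fun _ =>
        isClosed_eq (continuous_apply c) continuous_const
    · refine (isBounded_iff_forall_norm_le.2
        ⟨∑ c, (|D| * B.en φ₀ / B.μ c) ^ p⁻¹, fun φ hφ => ?_⟩)
      have e0 : 0 ≤ B.en φ := sum_nonneg fun y _ => mul_nonneg (B.μ_pos y).le (by positivity)
      have e1 : ∀ c, 0 ≤ |D| * B.en φ₀ / B.μ c := fun c =>
        div_nonneg (mul_nonneg (abs_nonneg _) (e0.trans hφ.2)) (B.μ_pos c).le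
      refine (pi_norm_le_iff_of_nonneg (sum_nonneg fun c _ => Real.rpow_nonneg (e1 c) _)).2
        fun c => le_trans ?_ (single_le_sum (fun c _ => Real.rpow_nonneg (e1 c) _) (mem_univ c))
      rw [Real.norm_eq_abs, Real.le_rpow_inv_iff_of_pos (abs_nonneg _) (e1 c) hp0,
        le_div_iff₀' (B.μ_pos c)]
      have h1 := B.bd' (B.T φ)
      rw [B.inv] at h1
      have h2 : B.μ c * |φ c| ^ p ≤ ∑ y, B.μ y * |φ y| ^ p :=
        single_le_sum (f := fun y => B.μ y * |φ y| ^ p)
          (fun y _ => mul_nonneg (B.μ_pos y).le (by positivity)) (mem_univ c)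
      have h3 : D * B.en φ ≤ |D| * B.en φ₀ :=
        (mul_le_mul_of_nonneg_right (le_abs_self D) e0).trans
          (mul_le_mul_of_nonneg_left hφ.2 (abs_nonneg _))
      exact h2.trans (h1.trans h3)
  obtain ⟨φ, hφ, hmin⟩ := hC.exists_isMinOn ⟨φ₀, fun _ _ => rfl, le_rfl⟩ cE.continuousOn
  refine ⟨φ, hφ.1, fun c hc => B.phi_eq_zero hp φ c fun l => ?_⟩
  by_contra hcon
  push Not at hcon
  exact absurd (hmin ⟨fun c' hc' => by
    have : c' ≠ c := fun h => hc' (h ▸ hc)
    simp [this, hφ.1 c' hc'], hcon.le.trans hφ.2⟩) (not_le.2 hcon)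

end Pool.Agent.MP_30195a_an.Gr
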