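import Pool.Agent.MP_30195a_an.Gr.Sys
import Pool.Agent.MP_30195a_an.Gr.PWA

/-!
# Greedy bases: the statements of the finite parts
-/

set_option autoImplicit false

open Finset

namespace Pool.Agent.MP_30195a_an.Gr

/-- Linearization of `gp p` at the level `A`. -/
def PW1 (p C : ℝ) : Prop :=
  ∀ a b A θ : ℝ, 0 < b → 0 < A → 1 ≤ θ → uu p A ≤ θ * uu p b →
    |gp p a - gp p b - om p A * (a - b)|
      ≤ C * θ ^ 2 * (|uu p a - uu p b| * (|uu p a - uu p b| + |uu p b - uu p A|)) / A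

/-- The Bregman distance up to third order. -/
def PW2 (p C : ℝ) : Prop :=
  ∀ a b : ℝ, 0 < b → 4 * |uu p a - uu p b| ≤ uu p b →
    |breg p a b - p / 2 * ((gp p a - gp p b) * (a - b))| ≤ C * |uu p a - uu p b| ^ 3 / uu p b

/-- The `L_p` bound for the operator on a tree. -/
def LPB (p D : ℝ) : Prop :=
  ∀ (S : Sys) (κ a : ℝ) (ψ : S.X → ℝ), κ ^ 2 = 1 / 3 →
    ∑ x, S.μ x * |S.op κ a ψ x| ^ p ≤ D * (|a| ^ p + ∑ x, S.μ x * |ψ x| ^ p)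

/-- End states exist. -/
def EndStates (p : ℝ) : Prop :=
  ∀ (K : ℝ) (w : Word), ∃ σ : St, CS p K σ w ∧ (σ w).Flat p ∧ (σ w).Z = 0

/-- The result of the analysis of chain states. -/
def CoreStmt (p : ℝ) : Prop :=
  ∃ (K c C : ℝ) (Good : Word → Prop) (Ψ : Word → ℝ), Core p K c C Good Ψ

/-- Tree blocks. -/
def TreeStmt (p : ℝ) : Prop :=
  ∃ D t E : ℝ, 1 ≤ D ∧ 0 < t ∧ t ≤ 1 ∧ 0 < E ∧ ∀ n : ℕ, ∃ (B : WB p D) (N : ℕ),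
    3 ^ n * (1 + (n : ℝ)) ^ ((p - 2) / (p - 1)) ≤ 2 * N ∧
      B.Level t (((3 : ℝ)⁻¹ ^ n) ^ (1 - 1 / p)) N E

/-- Blocks with targets. -/
def BlockStmt (p : ℝ) : Prop :=
  ∃ D t E : ℝ, 1 ≤ D ∧ 0 < t ∧ t ≤ 1 ∧ 0 < E ∧ ∀ n m : ℕ, ∃ (B : WB p D) (N : ℕ),
    3 ^ n * (1 + (n : ℝ)) ^ ((p - 2) / (p - 1)) ≤ 2 * N ∧
      B.Slow t N m E (m * (3 : ℝ)⁻¹ ^ n)

end Pool.Agent.MP_30195a_an.Gr
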