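import Pool.Agent.MP_30195a_an.Defs

/-!
# Weak Chebyshev greedy algorithm for greedy bases: definitions
-/

set_option autoImplicit false

namespace Pool.Agent.MP_30195a_an

/-- A basis is democratic if sums of equally many basis vectors have comparable norms. -/
def IsDemocratic {X : Type*} [NormedAddCommGroup X] [NormedSpace ℝ X]
    (Ψ : SchauderBasis ℝ X) : Prop :=
  ∃ Δ : ℝ, ∀ A B : Finset ℕ, A.card = B.card → ‖∑ k ∈ A, Ψ k‖ ≤ Δ * ‖∑ k ∈ B, Ψ k‖

end Pool.Agent.MP_30195a_an
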