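import Pool.Agent.MP_30195a_an.LpLower
import Pool.Agent.MP_30195a_an.Gr.Stmt
import Pool.Agent.MP_30195a_an.Gr.Root

/-!
# Greedy bases: the statements of the parts in `L_p[0,1]`
-/

set_option autoImplicit false

open MeasureTheory Finset
open scoped ENNReal

namespace Pool.Agent.MP_30195a_an.Gr

/-- An isometric copy `χ` of the basis of `ℓ_p` in `L_p[0,1]`, completed by a family `h`. -/
structure Emb (p : ℝ≥0∞) [Fact (1 ≤ p)] where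
  ι : Type
  [cnt : Countable ι]
  χ : ℕ → Lp ℝ p unitMeas
  h : ι → Lp ℝ p unitMeas
  K : ℝ
  D : ℝ
  norm_χ : ∀ (S : Finset ℕ) (y : ℕ → ℝ),
    ‖∑ j ∈ S, y j • χ j‖ ^ p.toReal = ∑ j ∈ S, |y j| ^ p.toReal
  norming : ∀ (S : Finset ℕ) (y : ℕ → ℝ) (F : StrongDual ℝ (Lp ℝ p unitMeas)),
    ∑ j ∈ S, y j • χ j ≠ 0 → IsNorming F (∑ j ∈ S, y j • χ j) →
      (∀ j, ‖∑ j ∈ S, y j • χ j‖ ^ (p.toReal - 1) * F (χ j)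
        = if j ∈ S then gp p.toReal (y j) else 0) ∧ ∀ i, F (h i) = 0
  norm_h : ∀ i, ‖h i‖ = 1
  mult : MultBound h K
  dem : ∀ A : Finset ι, (A.card : ℝ) ≤ D * ‖∑ i ∈ A, h i‖ ^ p.toReal ∧
    ‖∑ i ∈ A, h i‖ ^ p.toReal ≤ D * A.card
  dense : Dense (Submodule.span ℝ (Set.range χ ∪ Set.range h) : Set (Lp ℝ p unitMeas))

attribute [instance] Emb.cnt

/-- A family equivalent to the basis of `ℓ_p` with the same span as `χ` is completed by `h` to a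
greedy basis. -/
def AsmStmt (p : ℝ≥0∞) [Fact (1 ≤ p)] : Prop :=
  ∀ (E : Emb p) (κ : Type) (_ : κ ≃ ℕ) (v : κ → Lp ℝ p unitMeas) (D : ℝ), (∀ k, ‖v k‖ = 1) →
    (∀ k, v k ∈ Submodule.span ℝ (Set.range E.χ)) →
    (∀ j, E.χ j ∈ Submodule.span ℝ (Set.range v)) →
    (∀ (S : Finset κ) (a : κ → ℝ),
      ∑ k ∈ S, |a k| ^ p.toReal ≤ D * ‖∑ k ∈ S, a k • v k‖ ^ p.toReal ∧
      ‖∑ k ∈ S, a k • v k‖ ^ p.toReal ≤ D * ∑ k ∈ S, |a k| ^ p.toReal) →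
    ∃ Ψ : SchauderBasis ℝ (Lp ℝ p unitMeas), (∀ k, ‖Ψ k‖ = 1) ∧ IsUnconditional Ψ ∧
      IsDemocratic Ψ ∧ Set.range Ψ = Set.range (Sum.elim v E.h) ∧
      ∃ K, MultBound (Sum.elim v E.h) K

/-- Runs that follow a selection rule during the first `N` steps. -/
def RunStmt : Prop :=
  ∀ (X : Type) [NormedAddCommGroup X] [NormedSpace ℝ X] (ι : Type) [DecidableEq ι] (ψ : ι → X)
    (t : ℝ) (f₀ : X) (P : Finset ι → Prop) (N : ℕ), 0 < t → t ≤ 1 →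
    (∀ F : StrongDual ℝ X, ∃ j, ∀ i, |F (ψ i)| ≤ |F (ψ j)|) → P ∅ →
    (∀ (Λ : Finset ι) (r : X), P Λ → Λ.card < N →
      f₀ - r ∈ Submodule.span ℝ (ψ '' (Λ : Set ι)) →
      (∀ G ∈ Submodule.span ℝ (ψ '' (Λ : Set ι)), ‖r‖ ≤ ‖f₀ - G‖) →
      ∃ j, j ∉ Λ ∧ P (insert j Λ) ∧ ∃ F : StrongDual ℝ X, IsNorming F r ∧
        ∀ i, t * |F (ψ i)| ≤ |F (ψ j)|) →
    ∃ (idx : ℕ → ι) (f : ℕ → X), IdxRun ψ t f₀ idx f ∧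
      IsRun (Set.range ψ) t f₀ (fun m => ψ (idx (m - 1))) f ∧ ∀ k ≤ N, P (chosen idx k)

/-- The lower bound for one normalized, unconditional and democratic basis. -/
def LowerStmt (p : ℝ≥0∞) [Fact (1 ≤ p)] : Prop :=
  ∃ Ψ : SchauderBasis ℝ (Lp ℝ p unitMeas), (∀ k, ‖Ψ k‖ = 1) ∧ IsUnconditional Ψ ∧
    IsDemocratic Ψ ∧ ∃ t : ℝ, 0 < t ∧ t ≤ 1 ∧ ∀ Φ : ℝ → ℝ, (∀ x : ℝ, 1 ≤ x → 1 ≤ Φ x) →
      IsGreedy (Set.range Ψ) t Φ → ∃ κ : ℝ, 0 < κ ∧ ∀ m : ℕ, 1 ≤ m →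
        κ * (1 + Real.log m) ^ ((p.toReal - 2) / (p.toReal - 1)) ≤ Φ m

end Pool.Agent.MP_30195a_an.Gr
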