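import Pool.Agent.MP_30195a_an.Gr.Defs

/-!
# Greedy bases: the operator on a ternary tree
-/

set_option autoImplicit false

open Finset

namespace Pool.Agent.MP_30195a_an.Gr

lemma ms_pos (w : Word) : 0 < ms w := by unfold ms; positivity

@[simp] lemma ms_nil : ms [] = 1 := by simp [ms]

lemma ms_cons (i : Fin 3) (w : Word) : ms (i :: w) = ms w / 3 := by
  simp only [ms, List.length_cons, pow_succ]; ring

lemma kap_pos : 0 < kap := by unfold kap; positivity

lemma kap_sq : kap ^ 2 = 1 / 3 := by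
  unfold kap; rw [inv_pow, Real.sq_sqrt (by norm_num)]; norm_num

lemma kap_le : kap ≤ 0.58 := by nlinarith [kap_sq, kap_pos]

lemma le_kap : 0.57 ≤ kap := by nlinarith [kap_sq, kap_pos]

lemma exists_cons_suffix {v w : Word} (h : v <:+ w) (hne : v ≠ w) : ∃ i, i :: v <:+ w := by
  obtain ⟨t, rfl⟩ := h
  rcases List.eq_nil_or_concat t with rfl | ⟨t', i, rfl⟩
  · simp at hne
  · exact ⟨i, t', by simp⟩

lemma cons_suffix_unique {v w : Word} {i j : Fin 3} (hi : i :: v <:+ w) (hj : j :: v <:+ w) :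
    i = j := by
  have := (List.suffix_of_suffix_length_le hi hj (by simp)).eq_of_length (by simp)
  exact (List.cons.inj this).1

lemma key_le_of_suffix {v w : Word} (h : v <:+ w) :
    key v ≤ key w ∧ key w + ms w ≤ key v + ms v := by
  induction w with
  | nil => rw [List.suffix_nil.1 h]; exact ⟨le_rfl, le_rfl⟩
  | cons i w ih =>
    rcases List.suffix_cons_iff.1 h with rfl | h'
    · exact ⟨le_rfl, le_rfl⟩
    · obtain ⟨h1, h2⟩ := ih h'
      have h3 : ((i : ℕ) : ℝ) ≤ 2 := by exact_mod_cast Nat.lt_succ_iff.1 i.2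
      have h4 : (0 : ℝ) ≤ (i : ℕ) := Nat.cast_nonneg _
      have h5 := ms_pos w
      simp only [key, ms_cons]
      constructor <;> nlinarith

lemma key_lt {v w w' : Word} {i j : Fin 3} (hij : i < j) (h : i :: v <:+ w) (h' : j :: v <:+ w') :
    key w < key w' := by
  have h1 := (key_le_of_suffix h).2
  have h2 := (key_le_of_suffix h').1
  have h3 : ((i : ℕ) : ℝ) + 1 ≤ (j : ℕ) := by exact_mod_cast hij
  have h4 := ms_pos w
  have h5 := ms_pos v
  simp only [key, ms_cons] at h1 h2
  nlinarith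

namespace Sys

variable (S : Sys)

lemma node_of_int {v : Word} (h : S.int v) : S.Node v := by
  rcases v with _ | ⟨i, v⟩
  · trivial
  · exact S.int_tail i v h

lemma node_of_suffix {v : Word} {x : S.X} (h : v <:+ S.ad x) : S.Node v := by
  rcases v with _ | ⟨i, v⟩
  · trivial
  · exact S.int_of x i v h

lemma node_ad (x : S.X) : S.Node (S.ad x) := S.node_of_suffix List.suffix_rfl

lemma mass {v : Word} (h : S.Node v) : ∑ x with v <:+ S.ad x, S.μ x = ms v := by
  rcases v with _ | ⟨i, v⟩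
  · simpa using S.mass_nil
  · exact S.mass_cons i v h

lemma ad_eq {v : Word} (hv : ¬ S.int v) {x : S.X} (h : v <:+ S.ad x) : S.ad x = v := by
  by_contra hne
  obtain ⟨i, hi⟩ := exists_cons_suffix h (Ne.symm hne)
  exact hv (S.int_of x i v hi)

lemma exists_under {v : Word} (h : S.Node v) : ∃ x, v <:+ S.ad x := by
  by_contra hcon
  push Not at hcon
  have h1 := S.mass h
  rw [sum_eq_zero fun x hx => absurd (mem_filter.1 hx).2 (hcon x)] at h1
  exact (ms_pos v).ne h1

lemma sum_split {v : Word} (h : S.int v) (F : S.X → ℝ) :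
    ∑ x with v <:+ S.ad x, F x = ∑ i : Fin 3, ∑ x with i :: v <:+ S.ad x, F x := by
  simp only [sum_filter]
  rw [sum_comm]
  refine sum_congr rfl fun x _ => ?_
  split_ifs with h1
  · obtain ⟨i, hi⟩ := exists_cons_suffix h1 fun e => S.not_int x (e ▸ h)
    rw [sum_eq_single i, if_pos hi]
    · intro j _ hj
      exact if_neg fun h2 => hj (cons_suffix_unique h2 hi)
    · simp
  · exact (sum_eq_zero fun i _ => if_neg fun h2 =>
      h1 ((List.suffix_cons i v).trans h2)).symm

/-- Induction from the leaves to the root. -/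
lemma induction {P : Word → Prop} (h1 : ∀ v, S.Node v → ¬ S.int v → P v)
    (h2 : ∀ v, S.int v → (∀ i, P (i :: v)) → P v) {v : Word} (hv : S.Node v) : P v := by
  have key : ∀ (k : ℕ) (v : Word), S.depth ≤ v.length + k → S.Node v → P v := by
    intro k
    induction k with
    | zero => exact fun v h hv => h1 v hv fun hi => by have := S.int_lt v hi; omega
    | succ k ih =>
      intro v h hv
      by_cases hi : S.int v
      · exact h2 v hi fun i => ih _ (by simp only [List.length_cons]; omega) hi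
      · exact h1 v hv hi
  exact key S.depth v (by omega) hv

lemma av_nil (ψ : S.X → ℝ) : S.av [] ψ = ∑ x, S.μ x * ψ x := by simp [av]

lemma av_split {v : Word} (h : S.int v) (ψ : S.X → ℝ) :
    S.av v ψ = (S.av (0 :: v) ψ + S.av (1 :: v) ψ + S.av (2 :: v) ψ) / 3 := by
  have := ms_pos v
  simp only [av, S.sum_split h, Fin.sum_univ_three, ms_cons]
  field_simp

lemma av_congr {v : Word} {ψ ψ' : S.X → ℝ} (h : ∀ x, v <:+ S.ad x → ψ x = ψ' x) :
    S.av v ψ = S.av v ψ' := by
  unfold av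
  rw [sum_congr rfl fun x hx => by rw [h x (mem_filter.1 hx).2]]

lemma av_mono {v : Word} {ψ ψ' : S.X → ℝ} (h : ∀ x, v <:+ S.ad x → ψ x ≤ ψ' x) :
    S.av v ψ ≤ S.av v ψ' :=
  div_le_div_of_nonneg_right (sum_le_sum fun x hx =>
    mul_le_mul_of_nonneg_left (h x (mem_filter.1 hx).2) (S.μ_pos x).le) (ms_pos v).le

lemma av_add (v : Word) (ψ ψ' : S.X → ℝ) :
    S.av v (fun x => ψ x + ψ' x) = S.av v ψ + S.av v ψ' := by
  simp only [av, mul_add, sum_add_distrib, add_div]

lemma av_sub (v : Word) (ψ ψ' : S.X → ℝ) :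
    S.av v (fun x => ψ x - ψ' x) = S.av v ψ - S.av v ψ' := by
  simp only [av, mul_sub, sum_sub_distrib, sub_div]

lemma av_mul (v : Word) (c : ℝ) (ψ : S.X → ℝ) :
    S.av v (fun x => c * ψ x) = c * S.av v ψ := by
  simp only [av, mul_left_comm _ c, ← mul_sum, mul_div_assoc]

lemma av_const {v : Word} (h : S.Node v) (c : ℝ) : S.av v (fun _ => c) = c := by
  have := ms_pos v
  simp only [av, ← sum_mul, S.mass h]
  field_simp

lemma av_eq_of_const {v : Word} (h : S.Node v) {ψ : S.X → ℝ} {c : ℝ}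
    (hc : ∀ x, v <:+ S.ad x → ψ x = c) : S.av v ψ = c := by
  rw [S.av_congr hc, S.av_const h]

lemma av_nonneg {v : Word} {ψ : S.X → ℝ} (h : ∀ x, v <:+ S.ad x → 0 ≤ ψ x) : 0 ≤ S.av v ψ :=
  div_nonneg (sum_nonneg fun x hx => mul_nonneg (S.μ_pos x).le (h x (mem_filter.1 hx).2))
    (ms_pos v).le

lemma lev_add (κ a a' : ℝ) (ψ ψ' : S.X → ℝ) (v : Word) :
    S.lev κ (a + a') (fun x => ψ x + ψ' x) v = S.lev κ a ψ v + S.lev κ a' ψ' v := by
  induction v with
  | nil => rfl
  | cons i v ih => simp only [lev, ih, av_add]; ring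

lemma lev_mul (κ c a : ℝ) (ψ : S.X → ℝ) (v : Word) :
    S.lev κ (c * a) (fun x => c * ψ x) v = c * S.lev κ a ψ v := by
  induction v with
  | nil => rfl
  | cons i v ih => simp only [lev, ih, av_mul]; ring

lemma op_add (κ a a' : ℝ) (ψ ψ' : S.X → ℝ) (x : S.X) :
    S.op κ (a + a') (fun x => ψ x + ψ' x) x = S.op κ a ψ x + S.op κ a' ψ' x := by
  simp only [op, lev_add, av_add]; ring

lemma op_mul (κ c a : ℝ) (ψ : S.X → ℝ) (x : S.X) :
    S.op κ (c * a) (fun x => c * ψ x) x = c * S.op κ a ψ x := by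
  simp only [op, lev_mul, av_mul]; ring

lemma op_leaf {v : Word} (hv : ¬ S.int v) (κ a : ℝ) (ψ : S.X → ℝ) {x : S.X} (h : v <:+ S.ad x) :
    S.op κ a ψ x = ψ x + (S.lev κ a ψ v - S.av v ψ) := by
  rw [op, S.ad_eq hv h]; ring

lemma fin3 : ((0 : Fin 3) + 1 = 1 ∧ (0 : Fin 3) + 2 = 2) ∧ ((1 : Fin 3) + 1 = 2 ∧ (1 : Fin 3) + 2 = 0) ∧
    ((2 : Fin 3) + 1 = 0 ∧ (2 : Fin 3) + 2 = 1) := by decide

lemma av_op (κ a : ℝ) (ψ : S.X → ℝ) {v : Word} (hv : S.Node v) :
    S.av v (S.op κ a ψ) = S.lev κ a ψ v := by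
  refine S.induction (P := fun v => S.av v (S.op κ a ψ) = S.lev κ a ψ v) ?_ ?_ hv
  · intro v hv hi
    rw [S.av_congr fun x hx => S.op_leaf hi κ a ψ hx, av_add, S.av_const hv]; ring
  · intro v hi ih
    obtain ⟨⟨e1, e2⟩, ⟨e3, e4⟩, e5, e6⟩ := fin3
    rw [S.av_split hi, ih, ih, ih]
    simp only [lev, e1, e2, e3, e4, e5, e6]; ring

lemma lev_inv {κ : ℝ} (hκ : κ ^ 2 = 1 / 3) (a : ℝ) (ψ : S.X → ℝ) {v : Word} (hv : S.Node v) :
    S.lev (-κ) (S.av [] ψ) (S.op κ a ψ) v = S.av v ψ := by
  induction v with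
  | nil => rfl
  | cons i v ih =>
    have hi : S.int v := hv
    obtain ⟨⟨e1, e2⟩, ⟨e3, e4⟩, e5, e6⟩ := fin3
    rw [lev, ih (S.node_of_int hi), S.av_op κ a ψ (v := (i + 1) :: v) hi,
      S.av_op κ a ψ (v := (i + 2) :: v) hi, S.av_split hi]
    fin_cases i
    · simp only [lev, Fin.zero_eta, e1, e2, e3, e4, e5, e6]
      linear_combination (2 * S.av (0 :: v) ψ - S.av (1 :: v) ψ - S.av (2 :: v) ψ) * hκ
    · simp only [lev, Fin.mk_one, e1, e2, e3, e4, e5, e6]
      linear_combination (2 * S.av (1 :: v) ψ - S.av (0 :: v) ψ - S.av (2 :: v) ψ) * hκ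
    · simp only [lev, Fin.reduceFinMk, e1, e2, e3, e4, e5, e6]
      linear_combination (2 * S.av (2 :: v) ψ - S.av (0 :: v) ψ - S.av (1 :: v) ψ) * hκ

lemma op_inv {κ : ℝ} (hκ : κ ^ 2 = 1 / 3) (a : ℝ) (ψ : S.X → ℝ) :
    S.op (-κ) (S.av [] ψ) (S.op κ a ψ) = ψ := by
  funext x
  rw [op, S.lev_inv hκ a ψ (S.node_ad x), S.av_op κ a ψ (S.node_ad x), op]; ring

lemma pairing (κ a b : ℝ) (ψ ψ' : S.X → ℝ) {v : Word} (hv : S.Node v) :
    S.av v (fun x => ψ' x * S.op κ a ψ x) - S.av v (fun x => S.op (-κ) b ψ' x * ψ x)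
      = S.av v ψ' * S.lev κ a ψ v - S.lev (-κ) b ψ' v * S.av v ψ := by
  refine S.induction (P := fun v => S.av v (fun x => ψ' x * S.op κ a ψ x)
    - S.av v (fun x => S.op (-κ) b ψ' x * ψ x)
      = S.av v ψ' * S.lev κ a ψ v - S.lev (-κ) b ψ' v * S.av v ψ) ?_ ?_ hv
  · intro v hv hi
    rw [← av_sub, S.av_congr (ψ' := fun x => (S.lev κ a ψ v - S.av v ψ) * ψ' x
      - (S.lev (-κ) b ψ' v - S.av v ψ') * ψ x) fun x hx => by
        rw [S.op_leaf hi κ a ψ hx, S.op_leaf hi (-κ) b ψ' hx]; ring, av_sub, av_mul, av_mul]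
    ring
  · intro v hi ih
    obtain ⟨⟨e1, e2⟩, ⟨e3, e4⟩, e5, e6⟩ := fin3
    have h0 := ih 0
    have h1 := ih 1
    have h2 := ih 2
    simp only [lev, e1, e2, e3, e4, e5, e6] at h0 h1 h2
    simp only [S.av_split hi]
    linear_combination (h0 + h1 + h2) / 3

lemma lev_const {v : Word} (κ a : ℝ) {ψ : S.X → ℝ} {c : ℝ} (hc : ∀ x, v <:+ S.ad x → ψ x = c)
    {w : Word} (hw : S.Node w) (h : v <:+ w) : S.lev κ a ψ w = S.lev κ a ψ v := by
  induction w with
  | nil => rw [List.suffix_nil.1 h]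
  | cons i w ih =>
    rcases List.suffix_cons_iff.1 h with rfl | h'
    · rfl
    · have hi : S.int w := hw
      have e : ∀ j : Fin 3, S.av (j :: w) ψ = c := fun j => S.av_eq_of_const (v := j :: w) hi
        fun x hx => hc x (h'.trans ((List.suffix_cons j w).trans hx))
      rw [lev, e, e, ih (S.node_of_int hi) h']; ring

lemma op_const {v : Word} (κ a : ℝ) {ψ : S.X → ℝ} {c : ℝ} (hc : ∀ x, v <:+ S.ad x → ψ x = c)
    {x : S.X} (hx : v <:+ S.ad x) : S.op κ a ψ x = S.lev κ a ψ v := by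
  rw [op, S.lev_const κ a hc (S.node_ad x) hx, hc x hx,
    S.av_eq_of_const (S.node_ad x) fun y hy => hc y (hx.trans hy)]
  ring

lemma during_of_key {Λ : S.X → Prop} {y : S.X}
    (h1 : ∀ x, key (S.ad x) < key (S.ad y) → Λ x) (h2 : ∀ x, key (S.ad y) < key (S.ad x) → ¬ Λ x)
    {v : Word} (hv : v <:+ S.ad y) : S.During Λ v := by
  induction v with
  | nil => trivial
  | cons i v ih =>
    exact ⟨ih ((List.suffix_cons i v).trans hv), S.int_of y i v hv, fun j x hx =>
      ⟨fun hj => h1 x (key_lt hj hx hv), fun hj => h2 x (key_lt hj hv hx)⟩⟩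

end Sys

/-- Every finite tree, with any numbers of equal cells at the leaves, gives a system. -/
lemma exists_sys (n : ℕ) (int : Word → Prop) (h1 : ∀ v, int v → v.length < n)
    (h2 : ∀ i v, int (i :: v) → int v) (N : Word → ℕ) (hN : ∀ v, 0 < N v) :
    ∃ S : Sys, S.int = int ∧ ∀ x, S.μ x = ms (S.ad x) / N (S.ad x) := by
  classical
  let nd : Word → Prop := fun v => ∀ i c, i :: c <:+ v → int c
  have nd_int : ∀ v, int v → nd v := by
    intro v
    induction v with
    | nil => intro _ i c h; simp at h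
    | cons j v ih =>
      intro hv i c h
      rcases List.suffix_cons_iff.1 h with e | h'
      · rw [(List.cons.inj e).2]; exact h2 j v hv
      · exact ih (h2 j v hv) i c h'
  have nd_cons : ∀ i v, int v → nd (i :: v) := by
    intro i v hv j c h
    rcases List.suffix_cons_iff.1 h with e | h'
    · rw [(List.cons.inj e).2]; exact hv
    · exact nd_int v hv j c h'
  let L : Finset Word := (List.finite_length_le (Fin 3) n).toFinset.filter fun v => nd v ∧ ¬ int v
  have hL : ∀ v, v ∈ L ↔ v.length ≤ n ∧ nd v ∧ ¬ int v := fun v => by simp [L]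
  have hm : ∀ (k : ℕ) (v : Word), n ≤ v.length + k → v.length ≤ n → nd v →
      ∑ w ∈ L with v <:+ w, ms w = ms v := by
    have leaf : ∀ v : Word, v.length ≤ n → nd v → ¬ int v →
        ∑ w ∈ L with v <:+ w, ms w = ms v := by
      intro v hv hn hi
      refine sum_eq_single_of_mem v (mem_filter.2 ⟨(hL v).2 ⟨hv, hn, hi⟩, List.suffix_rfl⟩) ?_
      intro w hw hne
      obtain ⟨i, h⟩ := exists_cons_suffix (mem_filter.1 hw).2 hne.symm
      exact absurd (((hL w).1 (mem_filter.1 hw).1).2.1 i v h) hi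
    intro k
    induction k with
    | zero => exact fun v h hv hn => leaf v hv hn fun hi => by have := h1 v hi; omega
    | succ k ih =>
      intro v h hv hn
      by_cases hi : int v
      · have e : ∑ w ∈ L with v <:+ w, ms w = ∑ i : Fin 3, ∑ w ∈ L with i :: v <:+ w, ms w := by
          simp only [sum_filter]
          rw [sum_comm]
          refine sum_congr rfl fun w hw => ?_
          split_ifs with h3
          · obtain ⟨i, h4⟩ := exists_cons_suffix h3 fun e => ((hL w).1 hw).2.2 (e ▸ hi)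
            rw [sum_eq_single i, if_pos h4]
            · intro j _ hj
              exact if_neg fun h5 => hj (cons_suffix_unique h5 h4)
            · simp
          · exact (sum_eq_zero fun i _ => if_neg fun h5 =>
              h3 ((List.suffix_cons i v).trans h5)).symm
        have := h1 v hi
        rw [e, sum_congr rfl fun i _ => ih (i :: v) (by simp only [List.length_cons]; omega)
          (by simp only [List.length_cons]; omega) (nd_cons i v hi)]
        simp only [ms_cons, Fin.sum_univ_three]; ring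
      · exact leaf v hv hn hi
  have hs : ∀ v : Word, ∑ x : (Σ w : L, Fin (N w)) with v <:+ x.1.1, ms x.1.1 / N x.1.1
      = ∑ w ∈ L with v <:+ w, ms w := by
    intro v
    rw [sum_filter, sum_filter, Fintype.sum_sigma, ← sum_coe_sort L]
    refine sum_congr rfl fun w _ => ?_
    have : (N w : ℝ) ≠ 0 := by exact_mod_cast (hN w).ne'
    split_ifs
    · simp only [sum_const, card_univ, Fintype.card_fin, nsmul_eq_mul]; field_simp
    · simp
  refine ⟨{ X := Σ w : L, Fin (N w), μ := fun x => ms x.1.1 / N x.1.1, ad := fun x => x.1.1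
            int := int, depth := n
            μ_pos := fun x => div_pos (ms_pos _) (by exact_mod_cast hN _)
            int_lt := h1, int_tail := h2
            not_int := fun x => ((hL _).1 x.1.2).2.2
            int_of := fun x i v h => ((hL _).1 x.1.2).2.1 i v h
            mass_nil := ?_, mass_cons := fun i v hv => ?_ }, rfl, fun _ => rfl⟩
  · have := (hs []).trans (hm n [] (by simp) (by simp) fun i c h => by simp at h)
    simpa using this
  · have := h1 v hv
    exact (hs _).trans (hm n _ (by omega) (by simp only [List.length_cons]; omega) (nd_cons i v hv))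

end Pool.Agent.MP_30195a_an.Gr
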