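import Pool.Agent.MP_30195a_an.Gr.SpecL

/-!
# Greedy bases: blocks with targets, and runs that follow a selection rule
-/

set_option autoImplicit false

open Finset

namespace Pool.Agent.MP_30195a_an.Gr

namespace TgtX

/-- An operator extended by the identity on `m` new cells. -/
def ext {Y : Type} (L : (Y → ℝ) →ₗ[ℝ] (Y → ℝ)) (m : ℕ) :
    (Y ⊕ Fin m → ℝ) →ₗ[ℝ] (Y ⊕ Fin m → ℝ) where
  toFun ψ := Sum.elim (L fun y => ψ (Sum.inl y)) fun j => ψ (Sum.inr j)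
  map_add' ψ ψ' := by
    funext c
    rcases c with y | j
    · exact congrFun (L.map_add (fun y => ψ (Sum.inl y)) fun y => ψ' (Sum.inl y)) y
    · simp
  map_smul' a ψ := by
    funext c
    rcases c with y | j
    · exact congrFun (L.map_smul a fun y => ψ (Sum.inl y)) y
    · simp

lemma ext_inl {Y : Type} (L : (Y → ℝ) →ₗ[ℝ] (Y → ℝ)) (m : ℕ) (ψ : Y ⊕ Fin m → ℝ) (y : Y) :
    ext L m ψ (Sum.inl y) = L (fun y => ψ (Sum.inl y)) y := rfl

lemma ext_inr {Y : Type} (L : (Y → ℝ) →ₗ[ℝ] (Y → ℝ)) (m : ℕ) (ψ : Y ⊕ Fin m → ℝ) (j : Fin m) :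
    ext L m ψ (Sum.inr j) = ψ (Sum.inr j) := rfl

lemma ext_bd {Y : Type} [Fintype Y] {p D : ℝ} (hD : 1 ≤ D) (μ : Y → ℝ)
    (L : (Y → ℝ) →ₗ[ℝ] (Y → ℝ)) (m : ℕ)
    (h : ∀ ψ, ∑ y, μ y * |L ψ y| ^ p ≤ D * ∑ y, μ y * |ψ y| ^ p) (ψ : Y ⊕ Fin m → ℝ) :
    ∑ y, Sum.elim μ (fun _ => (1 : ℝ)) y * |ext L m ψ y| ^ p
      ≤ D * ∑ y, Sum.elim μ (fun _ => (1 : ℝ)) y * |ψ y| ^ p := by
  simp only [Fintype.sum_sum_type, Sum.elim_inl, Sum.elim_inr, ext_inl, ext_inr, one_mul, mul_add]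
  have h1 := h fun y => ψ (Sum.inl y)
  have h2 : 0 ≤ ∑ j : Fin m, |ψ (Sum.inr j)| ^ p :=
    sum_nonneg fun j _ => Real.rpow_nonneg (abs_nonneg _) _
  have h3 := le_mul_of_one_le_left h2 hD
  linarith

/-- A block extended by `m` cells of weight one. -/
noncomputable def blk {p D : ℝ} (hD : 1 ≤ D) (B : WB p D) (m : ℕ) : WB p D where
  Y := B.Y ⊕ Fin m
  μ := Sum.elim B.μ fun _ => 1
  T := ext B.T m
  T' := ext B.T' m
  μ_pos := by
    rintro (y | j)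
    · exact B.μ_pos y
    · exact one_pos
  inv := by
    intro ψ
    funext c
    rcases c with y | j
    · simp only [ext_inl]
      rw [B.inv]
    · rfl
  adj := by
    intro ψ ψ'
    simp only [Fintype.sum_sum_type, Sum.elim_inl, Sum.elim_inr, ext_inl, ext_inr]
    rw [B.adj (fun y => ψ (Sum.inl y)) fun y => ψ' (Sum.inl y)]
  bd := ext_bd hD B.μ B.T m B.bd
  bd' := ext_bd hD B.μ B.T' m B.bd'

variable {p D : ℝ} (hD : 1 ≤ D) (B : WB p D) (m : ℕ)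

lemma en_blk (φ : B.Y ⊕ Fin m → ℝ) :
    (blk hD B m).en φ = B.en (fun y => φ (Sum.inl y)) + ∑ j : Fin m, |φ (Sum.inr j)| ^ p := by
  change ∑ y : B.Y ⊕ Fin m, Sum.elim B.μ (fun _ => (1 : ℝ)) y * |ext B.T m φ y| ^ p = _
  simp only [Fintype.sum_sum_type, Sum.elim_inl, Sum.elim_inr, ext_inl, ext_inr, one_mul, WB.en]

lemma phi_inl (φ : B.Y ⊕ Fin m → ℝ) (y : B.Y) :
    (blk hD B m).phi φ (Sum.inl y) = B.phi (fun y => φ (Sum.inl y)) y := rfl

lemma phi_inr (φ : B.Y ⊕ Fin m → ℝ) (j : Fin m) :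
    (blk hD B m).phi φ (Sum.inr j) = gp p (φ (Sum.inr j)) := rfl

lemma frc_inl (φ : B.Y ⊕ Fin m → ℝ) (y : B.Y) :
    (blk hD B m).frc φ (Sum.inl y) = B.frc (fun y => φ (Sum.inl y)) y := rfl

lemma frc_inr (φ : B.Y ⊕ Fin m → ℝ) (j : Fin m) :
    (blk hD B m).frc φ (Sum.inr j) = |gp p (φ (Sum.inr j))| := by
  change (1 : ℝ) ^ (1 - 1 / p) * |gp p (φ (Sum.inr j))| = _
  rw [Real.one_rpow, one_mul]

lemma en_nonneg (φ : B.Y → ℝ) : 0 ≤ B.en φ :=
  sum_nonneg fun y _ => mul_nonneg (B.μ_pos y).le (Real.rpow_nonneg (abs_nonneg _) _)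

lemma slow (hp : 1 < p) {t b E : ℝ} (ht : 0 < t) (ht1 : t ≤ 1) (hb : 0 ≤ b) {N : ℕ}
    (h : B.Level t (b ^ (p - 1)) N E) : (blk hD B m).Slow (t ^ 2) N m E (m * b ^ p) := by
  obtain ⟨φ₀, P, hP0, hE, hstep⟩ := h
  have hinr : ∀ (Λ : Finset B.Y) (j : Fin m),
      (Sum.inr j : B.Y ⊕ Fin m) ∉ Λ.map Function.Embedding.inl := by
    intro Λ j
    simp
  refine ⟨Sum.elim φ₀ fun _ => b, fun Λ' => ∃ Λ, P Λ ∧ Λ' = Λ.map Function.Embedding.inl,
    (univ : Finset (Fin m)).map Function.Embedding.inr, ⟨∅, hP0, rfl⟩, ?_, ?_, ?_, ?_⟩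
  · rw [card_map, card_univ, Fintype.card_fin]
  · refine le_trans (le_of_eq ?_) hE
    refine (en_blk hD B m _).trans ?_
    have h1 : ∀ y : B.Y, (Sum.inl y : B.Y ⊕ Fin m) ∉
        (univ : Finset (Fin m)).map Function.Embedding.inr := by
      intro y
      simp
    have h2 : ∀ j : Fin m, (Sum.inr j : B.Y ⊕ Fin m) ∈
        (univ : Finset (Fin m)).map Function.Embedding.inr := by
      intro j
      simp
    refine (congrArg₂ (· + ·) (congrArg B.en (funext fun y => if_neg (h1 y)))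
      (sum_eq_zero fun j _ => ?_)).trans (add_zero _)
    exact (congrArg (fun x : ℝ => |x| ^ p) (if_pos (h2 j))).trans
      (by rw [abs_zero, Real.zero_rpow (show p ≠ 0 by linarith)])
  · rintro _ φ ⟨Λ, _, rfl⟩ hS
    have h1 : ∀ j : Fin m, φ (Sum.inr j) = b := fun j => hS.1 _ (hinr Λ j)
    rw [en_blk]
    simp only [h1, abs_of_nonneg hb, sum_const, card_univ, Fintype.card_fin, nsmul_eq_mul]
    exact le_add_of_nonneg_left (en_nonneg B _)
  · rintro _ φ ⟨Λ, hΛ, rfl⟩ hc hS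
    have h1 : ∀ j : Fin m, φ (Sum.inr j) = b := fun j => hS.1 _ (hinr Λ j)
    have hS' : B.IsState φ₀ Λ fun y => φ (Sum.inl y) := by
      refine ⟨fun c hc => hS.1 (Sum.inl c) ?_, fun c hc => hS.2 (Sum.inl c) ?_⟩
      · exact fun h' => hc ((mem_map' Function.Embedding.inl).1 h')
      · exact (mem_map' Function.Embedding.inl).2 hc
    obtain ⟨c, hc1, hc2, hc3, hc4⟩ := hstep Λ _ hΛ
      (lt_of_eq_of_lt (card_map (Function.Embedding.inl (β := Fin m))).symm hc) hS'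
    refine ⟨Sum.inl c, fun h' => hc1 ((mem_map' Function.Embedding.inl).1 h'),
      ⟨insert c Λ, hc2, (map_insert Function.Embedding.inl c Λ).symm⟩, ?_⟩
    have h0 : 0 ≤ b ^ (p - 1) := Real.rpow_nonneg hb _
    rintro (y | j)
    · rw [frc_inl, frc_inl]
      refine le_trans ?_ hc3
      rw [sq, mul_assoc]
      exact mul_le_mul_of_nonneg_left (hc4 y) ht.le
    · rw [frc_inl, frc_inr, h1, abs_gp hp, abs_of_nonneg hb]
      refine le_trans ?_ hc3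
      rw [sq, mul_assoc]
      exact mul_le_mul_of_nonneg_left (mul_le_of_le_one_left h0 ht1) ht.le

section Run

variable {X : Type*} [NormedAddCommGroup X] [NormedSpace ℝ X] {ι : Type*} [DecidableEq ι]

lemma isRun {ψ : ι → X} {t : ℝ} (ht : 0 < t) {f₀ : X} {idx : ℕ → ι}
    {f : ℕ → X} (h : IdxRun ψ t f₀ idx f) :
    IsRun (Set.range ψ) t f₀ (fun m => ψ (idx (m - 1))) f := by
  have hφ : ∀ m, (fun m => ψ (idx (m - 1))) (m + 1) = ψ (idx m) := fun m => by simp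
  refine ⟨?_, fun m => ⟨_, rfl⟩, ?_, ?_, ?_⟩
  · have := h.approx_mem 0
    simp only [chosen, range_zero, image_empty, coe_empty, Set.image_empty, Submodule.span_empty,
      Submodule.mem_bot] at this
    exact (sub_eq_zero.1 this).symm
  · intro m hm
    obtain ⟨F, hF, h1⟩ := h.select m hm
    refine ⟨F, hF, ?_⟩
    rw [Nat.add_sub_cancel]
    have h2 : sSup ((fun g => |F g|) '' Set.range ψ) ≤ |F (ψ (idx m))| / t := by
      refine csSup_le ⟨_, ψ (idx m), ⟨_, rfl⟩, rfl⟩ ?_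
      rintro _ ⟨_, ⟨j, rfl⟩, rfl⟩
      exact (le_div_iff₀' ht).2 (h1 j)
    exact (le_div_iff₀' ht).1 h2
  · intro m
    rw [image_chosen hφ]; exact h.approx_mem _
  · intro m G hG
    rw [image_chosen hφ] at hG; exact h.approx_best _ G hG

end Run

end TgtX

/-- Tree blocks give blocks with targets. -/
theorem blockStmt {p : ℝ} (hp : 1 < p) (h : TreeStmt p) : BlockStmt p := by
  obtain ⟨D, t, E, hD, ht, ht1, hE, h⟩ := h
  refine ⟨D, t ^ 2, E, hD, by positivity, pow_le_one₀ ht.le ht1, hE, fun n m => ?_⟩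
  obtain ⟨B, N, hN, hL⟩ := h n
  have hp0 : p ≠ 0 := by linarith
  have h3 : (0 : ℝ) ≤ (3 : ℝ)⁻¹ ^ n := by positivity
  have h1 : (((3 : ℝ)⁻¹ ^ n) ^ (1 / p)) ^ (p - 1) = ((3 : ℝ)⁻¹ ^ n) ^ (1 - 1 / p) := by
    rw [← Real.rpow_mul h3]
    congr 1
    field_simp
  have h2 : (((3 : ℝ)⁻¹ ^ n) ^ (1 / p)) ^ p = (3 : ℝ)⁻¹ ^ n := by
    rw [← Real.rpow_mul h3, one_div_mul_cancel hp0, Real.rpow_one]
  refine ⟨TgtX.blk hD B m, N, hN, ?_⟩
  have := TgtX.slow hD B m hp ht ht1 (Real.rpow_nonneg h3 (1 / p)) (N := N) (E := E)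
    (by rw [h1]; exact hL)
  rwa [h2] at this

/-- Runs that follow a selection rule exist. -/
theorem runStmt : RunStmt := by
  intro X _ _ ι _ ψ t f₀ P N ht ht1 hmax hP0 hrule
  have hbest : ∀ Λ : Finset ι, ∃ r : X, f₀ - r ∈ Submodule.span ℝ (ψ '' (Λ : Set ι)) ∧
      ∀ G ∈ Submodule.span ℝ (ψ '' (Λ : Set ι)), ‖r‖ ≤ ‖f₀ - G‖ := fun Λ =>
    haveI := FiniteDimensional.span_of_finite ℝ (Λ.finite_toSet.image ψ)
    exists_best _ f₀
  choose R hR1 hR2 using hbest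
  have hsel : ∀ Λ : Finset ι, ∃ j, (P Λ → Λ.card < N → P (insert j Λ)) ∧
      (R Λ ≠ 0 → ∃ F : StrongDual ℝ X, IsNorming F (R Λ) ∧
        ∀ i, t * |F (ψ i)| ≤ |F (ψ j)|) := by
    intro Λ
    by_cases hc : P Λ ∧ Λ.card < N
    · obtain ⟨j, _, h2, h3⟩ := hrule Λ (R Λ) hc.1 hc.2 (hR1 Λ) (hR2 Λ)
      exact ⟨j, fun _ _ => h2, fun _ => h3⟩
    · by_cases hr : R Λ = 0
      · obtain ⟨j, _⟩ := hmax 0
        exact ⟨j, fun h1 h2 => absurd ⟨h1, h2⟩ hc, fun h => absurd hr h⟩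
      · obtain ⟨F, hF1, hF2⟩ := exists_dual_vector ℝ (R Λ) (norm_ne_zero_iff.2 hr)
        obtain ⟨j, hj⟩ := hmax F
        exact ⟨j, fun h1 h2 => absurd ⟨h1, h2⟩ hc, fun _ => ⟨F, ⟨hF1, by simpa using hF2⟩,
          fun i => (mul_le_of_le_one_left (abs_nonneg _) ht1).trans (hj i)⟩⟩
  choose sel hsel1 hsel2 using hsel
  let Λ : ℕ → Finset ι := fun k => Nat.rec ∅ (fun _ L => insert (sel L) L) k
  have hΛ : ∀ k, chosen (fun k => sel (Λ k)) k = Λ k := by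
    intro k
    induction k with
    | zero => simp [chosen, Λ]
    | succ k ih =>
      unfold chosen at ih ⊢
      rw [range_add_one, image_insert, ih]
  have hrun : IdxRun ψ t f₀ (fun k => sel (Λ k)) fun k => R (Λ k) := by
    refine ⟨fun m hm => hsel2 _ hm, fun m => ?_, fun m => ?_⟩
    · rw [hΛ]; exact hR1 _
    · rw [hΛ]; exact hR2 _
  refine ⟨_, _, hrun, TgtX.isRun ht hrun, fun k => ?_⟩
  induction k with
  | zero => intro _; simpa [chosen] using hP0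
  | succ k ih =>
    intro hk
    have h1 := ih (by omega)
    have h2 := card_chosen_le (fun k => sel (Λ k)) k
    rw [hΛ] at h1 h2 ⊢
    exact hsel1 (Λ k) h1 (by omega)

end Pool.Agent.MP_30195a_an.Gr
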