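import Pool.Agent.MP_30195a_an.Gr.Root

/-!
Greedy bases: tree blocks
-/

set_option autoImplicit false

open Finset

namespace Pool.Agent.MP_30195a_an.Gr

namespace TreeX

lemma split_words (w w' : Word) (h1 : ¬ w <:+ w') (h2 : ¬ w' <:+ w) :
    ∃ (c : Word) (i j : Fin 3), i ≠ j ∧ i :: c <:+ w ∧ j :: c <:+ w' := by
  induction w with
  | nil => exact absurd List.nil_suffix h1
  | cons i u ih =>
    by_cases hu : u <:+ w'
    · obtain ⟨j, hj⟩ := exists_cons_suffix hu fun e => h2 (e ▸ List.suffix_cons i u)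
      exact ⟨u, i, j, fun e => h1 (e ▸ hj), List.suffix_rfl, hj⟩
    · obtain ⟨c, a, b, hab, ha, hb⟩ := ih hu fun h => h2 (h.trans (List.suffix_cons i u))
      exact ⟨c, a, b, hab, ha.trans (List.suffix_cons i u), hb⟩

lemma prof_pos (p : ℝ) (w : Word) : 0 < prof p w := by unfold prof; positivity

lemma prof_mono {p : ℝ} (hp : 2 < p) {v w : Word} (h : v.length ≤ w.length) :
    prof p v ≤ prof p w := by
  have h1 : (v.length : ℝ) ≤ w.length := by exact_mod_cast h
  have h2 : 2 / p ≤ 1 := by rw [div_le_one (by linarith)]; linarith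
  exact Real.rpow_le_rpow (by positivity) (by linarith) (by linarith)

variable (S S' : Sys)

section Passive

variable {S S'} {K : ℝ} {φ : Yt S S' → ℝ}

lemma ap_dat (h : ∀ y, φ (Sum.inr y) = dat S S' K (Sum.inr y)) (b : Bool) :
    ap S S' b φ = if b then 2 * K else 0 :=
  S'.av_eq_of_const (v := []) trivial fun x _ => h (b, x)

lemma lvP_dat (h : ∀ y, φ (Sum.inr y) = dat S S' K (Sum.inr y)) (b : Bool) :
    lvP S S' b φ = K + (if b then 1 else -1) * S.av [] fun x => φ (Sum.inl x) := by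
  rw [lvP, ap_dat h, ap_dat h]; simp

lemma rootF_inr (h : ∀ y, φ (Sum.inr y) = dat S S' K (Sum.inr y)) (b : Bool) (x : S'.X) :
    rootF S S' kap φ (Sum.inr (b, x))
      = K + (if b then 1 else -1) * S.av [] fun x => φ (Sum.inl x) := by
  rw [← lvP_dat h]
  exact S'.op_const (v := []) kap (lvP S S' b φ) (ψ := fun x => φ (Sum.inr (b, x)))
    (c := if b then 2 * K else 0) (fun x _ => h (b, x)) List.nil_suffix

lemma frcD_inr (p : ℝ) (h : ∀ y, φ (Sum.inr y) = dat S S' K (Sum.inr y)) (b : Bool) (x : S'.X) :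
    frcD S S' p φ (Sum.inr (b, x))
      = (gp p (K + (stOf S S' p φ []).z) + gp p (K - (stOf S S' p φ []).z)) / 2
        + (if b then 1 else -1) * (stOf S S' p φ []).B := by
  have e : ∀ b : Bool, ap S S' b (fun y => gp p (rootF S S' kap φ y))
      = gp p (K + (if b then 1 else -1) * S.av [] fun x => φ (Sum.inl x)) := fun b =>
    S'.av_eq_of_const (v := []) trivial fun x _ => congrArg (gp p) (rootF_inr h b x)
  have e2 := S'.op_const (v := []) (-kap) (lvP S S' b fun y => gp p (rootF S S' kap φ y))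
    (ψ := fun x => gp p (rootF S S' kap φ (Sum.inr (b, x))))
    (c := gp p (K + (if b then 1 else -1) * S.av [] fun x => φ (Sum.inl x)))
    (fun x _ => by rw [rootF_inr h]) (x := x) List.nil_suffix
  refine e2.trans ?_
  rw [Sys.lev, lvP, e, e]
  simp [stOf, sub_eq_add_neg]

lemma en_dat (p K : ℝ) : ∑ y, muT S S' y * |rootF S S' kap (dat S S' K) y| ^ p
    = (|K + 1| ^ p + |K - 1| ^ p) / 2 + |K| ^ p := by
  have h : ∀ y, dat S S' K (Sum.inr y) = dat S S' K (Sum.inr y) := fun _ => rfl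
  have z : (S.av [] fun x => dat S S' K (Sum.inl x)) = 1 := S.av_const (v := []) trivial 1
  have e0 : (S.av [] fun x => |rootF S S' kap (dat S S' K) (Sum.inl x)| ^ p) = |K| ^ p := by
    refine S.av_eq_of_const (v := []) trivial fun x _ => ?_
    have := S.op_const (v := []) kap (lv0 S S' (dat S S' K))
      (ψ := fun x => dat S S' K (Sum.inl x)) (c := 1) (fun _ _ => rfl) (x := x) List.nil_suffix
    rw [rootF, this, Sys.lev, lv0, ap_dat h, ap_dat h]
    simp
  have e1 : ∀ b : Bool, ap S S' b (fun y => |rootF S S' kap (dat S S' K) y| ^ p)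
      = |K + (if b then 1 else -1)| ^ p := fun b =>
    S'.av_eq_of_const (v := []) trivial fun x _ => by simp only [rootF_inr h, z, mul_one]
  rw [sum_muT S S' fun y => |rootF S S' kap (dat S S' K) y| ^ p, e0, e1, e1]
  simp only [if_true, Bool.false_eq_true, if_false, ← sub_eq_add_neg]
  ring

end Passive

section Cells

variable {S S'} {p : ℝ} {φ : Yt S S' → ℝ}

lemma lev_eq_A {v : Word} (hv : S.Node v) :
    S.lev kap (lv0 S S' φ) (fun x => φ (Sum.inl x)) v = (stOf S S' p φ v).A :=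
  (S.av_op kap _ _ hv).symm

lemma lev_eq_Z {v : Word} (hv : S.Node v) :
    S.lev (-kap) (lv0 S S' fun y => gp p (rootF S S' kap φ y))
      (fun x => gp p (rootF S S' kap φ (Sum.inl x))) v = (stOf S S' p φ v).Z :=
  (S.av_op (-kap) _ _ hv).symm

/-- The force density under a node where nothing is chosen. -/
lemma frcD_const {v : Word} (hv : S.Node v) (h1 : ∀ x, v <:+ S.ad x → φ (Sum.inl x) = 1)
    {x : S.X} (hx : v <:+ S.ad x) : frcD S S' p φ (Sum.inl x) = (stOf S S' p φ v).Z := by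
  rw [← lev_eq_Z hv]
  refine S.op_const (-kap) _ (ψ := fun x => gp p (rootF S S' kap φ (Sum.inl x)))
    (c := gp p (S.lev kap (lv0 S S' φ) (fun x => φ (Sum.inl x)) v)) (fun x hx => ?_) hx
  exact congrArg (gp p) (S.op_const kap _ h1 hx)

/-- The force density in the current leaf. -/
lemma leaf_force (hp : 1 < p) {K c C : ℝ} {Good : Word → Prop} {Ψ : Word → ℝ}
    (H : Core p K c C Good Ψ) {Λ : S.X → Prop} (h1 : ∀ x, ¬ Λ x → φ (Sum.inl x) = 1)
    (h2 : ∀ x, Λ x → frcD S S' p φ (Sum.inl x) = 0) {w : Word} (hn : S.Node w) (hw : ¬ S.int w)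
    (hf : Fair Good w) (hcs : CS p K (stOf S S' p φ) w) {y : S.X} (hy : w <:+ S.ad y)
    (hy' : ¬ Λ y) :
    c * prof p w ≤ frcD S S' p φ (Sum.inl y) ∧ frcD S S' p φ (Sum.inl y) ≤ C * prof p w := by
  classical
  by_cases hex : ∃ x₀, w <:+ S.ad x₀ ∧ Λ x₀
  · obtain ⟨x₀, hx₀, hl₀⟩ := hex
    set σ := stOf S S' p φ with hσ
    have ef : ∀ x, w <:+ S.ad x →
        rootF S S' kap φ (Sum.inl x) = φ (Sum.inl x) + ((σ w).A - (σ w).z) := fun x hx => by
      rw [rootF, S.op_leaf hw _ _ _ hx, lev_eq_A (p := p) hn]; rfl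
    have eΦ : ∀ x, w <:+ S.ad x → frcD S S' p φ (Sum.inl x)
        = gp p (rootF S S' kap φ (Sum.inl x)) + ((σ w).Z - (σ w).B) := fun x hx => by
      rw [frcD, rootF, S.op_leaf hw _ _ _ hx, lev_eq_Z hn]; rfl
    set a := rootF S S' kap φ (Sum.inl x₀) with ha
    set b := 1 + ((σ w).A - (σ w).z) with hb
    have ga : (σ w).Z - (σ w).B = -gp p a := by
      have := eΦ x₀ hx₀
      rw [h2 x₀ hl₀] at this
      linarith
    have fa : ∀ x, w <:+ S.ad x → Λ x → rootF S S' kap φ (Sum.inl x) = a := fun x hx hl => by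
      have := eΦ x hx
      rw [h2 x hl, ga] at this
      exact (gp_strictMono hp).injective (by linarith)
    have fb : ∀ x, w <:+ S.ad x → ¬ Λ x → rootF S S' kap φ (Sum.inl x) = b := fun x hx hl => by
      rw [ef x hx, h1 x hl]
    set s := S.av w fun x => if Λ x then 0 else 1 with hs
    have two : ∀ (F : S.X → ℝ) (u v : ℝ), (∀ x, w <:+ S.ad x → ¬ Λ x → F x = u) →
        (∀ x, w <:+ S.ad x → Λ x → F x = v) → S.av w F = s * u + (1 - s) * v := by
      intro F u v hu hv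
      rw [S.av_congr (ψ' := fun x => (u - v) * (if Λ x then 0 else 1) + v) fun x hx => by
        by_cases hl : Λ x
        · simp [hl, hv x hx hl]
        · simp [hl, hu x hx hl], S.av_add, S.av_mul, S.av_const hn, ← hs]
      ring
    have s0 : 0 ≤ s := S.av_nonneg fun x _ => by split_ifs <;> norm_num
    have s1 : s ≤ 1 := by
      rw [← S.av_const hn 1]
      exact S.av_mono fun x _ => by split_ifs <;> norm_num
    have key := H.leaf σ w hf hcs s a b s0 s1 (two _ _ _ fb fa)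
      (two _ _ _ (fun x hx hl => by rw [fb x hx hl]) fun x hx hl => by rw [fa x hx hl])
      (by
        have := two (fun x => frcD S S' p φ (Sum.inl x)) (gp p b - gp p a) 0
          (fun x hx hl => by rw [eΦ x hx, fb x hx hl, ga]; ring) fun x _ hl => h2 x hl
        rw [mul_zero, add_zero] at this
        exact this)
      (by
        have := two (fun x => φ (Sum.inl x)) 1 (1 + (a - b)) (fun x _ hl => h1 x hl)
          fun x hx hl => by have := ef x hx; rw [fa x hx hl] at this; linarith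
        have e : (σ w).z = s * 1 + (1 - s) * (1 + (a - b)) := this
        rw [e]; ring)
    rw [eΦ y hy, fb y hy hy', ga, ← sub_eq_add_neg]
    exact key
  · push Not at hex
    have h3 : ∀ x, w <:+ S.ad x → φ (Sum.inl x) = 1 := fun x hx => h1 x (hex x hx)
    rw [frcD_const hn h3 hy]
    exact H.fresh _ w hf hcs (S.av_eq_of_const hn h3)

end Cells

/-- The size of the cells in a leaf of depth `k`. -/
noncomputable def sz (p : ℝ) (n k : ℕ) : ℝ := (3 : ℝ)⁻¹ ^ n / (1 + (k : ℝ)) ^ ((p - 2) / (p - 1))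

lemma sz_pos (p : ℝ) (n k : ℕ) : 0 < sz p n k := by unfold sz; positivity

lemma sz_rpow {p : ℝ} (hp : 2 < p) (n : ℕ) (w : Word) :
    sz p n w.length ^ (1 - 1 / p) * prof p w = ((3 : ℝ)⁻¹ ^ n) ^ (1 - 1 / p) := by
  have h0 : p ≠ 0 := by linarith
  have h1 : p - 1 ≠ 0 := by linarith
  have e : (p - 2) / (p - 1) * (1 - 1 / p) = 1 - 2 / p := by field_simp
  have := prof_pos p w
  rw [sz, Real.div_rpow (by positivity) (by positivity), ← Real.rpow_mul (by positivity), e]
  unfold prof at this ⊢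
  field_simp

lemma sz_le {p : ℝ} (hp : 2 < p) {n : ℕ} {w : Word} (h : w.length ≤ n) :
    sz p n w.length ≤ ms w := by
  have h1 : (1 : ℝ) ≤ (1 + (w.length : ℝ)) ^ ((p - 2) / (p - 1)) :=
    Real.one_le_rpow (by simp) (div_nonneg (by linarith) (by linarith))
  exact (div_le_self (by positivity) h1).trans
    (pow_le_pow_of_le_one (by norm_num) (by norm_num) h)

lemma cell_bounds {m a : ℝ} (ha : 0 < a) (h : a ≤ m) :
    m / (⌈m / a⌉₊ : ℕ) ≤ a ∧ a ≤ 2 * (m / (⌈m / a⌉₊ : ℕ)) := by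
  have h1 : 1 ≤ m / a := (one_le_div ha).2 h
  have h2 := Nat.le_ceil (m / a)
  have h3 := (Nat.ceil_lt_add_one (by linarith : 0 ≤ m / a)).le
  have h4 : (0 : ℝ) < (⌈m / a⌉₊ : ℕ) := by linarith
  have h5 : m / a * a = m := div_mul_cancel₀ _ ha.ne'
  constructor
  · rw [div_le_iff₀ h4]; nlinarith
  · rw [← mul_div_assoc, le_div_iff₀ h4]; nlinarith

/-- The tree of a block. -/
lemma exists_tree {p : ℝ} (hp : 2 < p) {K c C : ℝ} {Good : Word → Prop} {Ψ : Word → ℝ}
    (H : Core p K c C Good Ψ) (n : ℕ) : ∃ S : Sys, (∀ v, S.Node v → Fair Good v) ∧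
      3 ^ n * (1 + (n : ℝ)) ^ ((p - 2) / (p - 1)) ≤ 2 * (Fintype.card S.X : ℕ) ∧
      ∀ x, S.μ x ^ (1 - 1 / p) * prof p (S.ad x) ≤ ((3 : ℝ)⁻¹ ^ n) ^ (1 - 1 / p) ∧
        ((3 : ℝ)⁻¹ ^ n) ^ (1 - 1 / p) ≤ 2 * (S.μ x ^ (1 - 1 / p) * prof p (S.ad x)) := by
  obtain ⟨S, hS, hμ⟩ := exists_sys n (fun v => v.length < n ∧ Fair Good v ∧ Good v)
    (fun _ h => h.1) (fun i v h => ⟨by have := h.1; simp only [List.length_cons] at this; omega,
      h.2.1⟩) (fun v => ⌈ms v / sz p n v.length⌉₊)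
    fun v => Nat.ceil_pos.2 (div_pos (ms_pos v) (sz_pos _ _ _))
  have hi : ∀ v, S.int v ↔ v.length < n ∧ Fair Good v ∧ Good v := fun v => by rw [hS]
  have hn : ∀ v, S.Node v → Fair Good v ∧ v.length ≤ n := by
    rintro (_ | ⟨i, v⟩) h
    · exact ⟨trivial, Nat.zero_le _⟩
    · exact ⟨((hi v).1 h).2, ((hi v).1 h).1⟩
  have hb : ∀ x, S.μ x ≤ sz p n (S.ad x).length ∧ sz p n (S.ad x).length ≤ 2 * S.μ x := fun x => by
    rw [hμ x]
    exact cell_bounds (sz_pos _ _ _) (sz_le hp (hn _ (S.node_ad x)).2)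
  have e0 : 0 ≤ 1 - 1 / p := by
    have : 1 / p ≤ 1 := by rw [div_le_one (by linarith)]; linarith
    linarith
  have e1 : 1 - 1 / p ≤ 1 := by
    have : 0 ≤ 1 / p := by positivity
    linarith
  refine ⟨S, fun v h => (hn v h).1, ?_, fun x => ?_⟩
  · have h1 : S.av [] (fun x => Ψ (S.ad x)) ≤ Ψ [] := by
      refine S.induction (P := fun v => S.av v (fun x => Ψ (S.ad x)) ≤ Ψ v) ?_ ?_ (v := []) trivial
      · intro v hv h
        exact (S.av_eq_of_const hv fun x hx => by rw [S.ad_eq h hx]).le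
      · intro v h ih
        have := H.super v ((hi v).1 h).2.1 ((hi v).1 h).2.2
        rw [S.av_split h]
        linarith [ih 0, ih 1, ih 2]
    have h2 : ∑ x, S.μ x ≤ ∑ x, (S.μ x * Ψ (S.ad x) + sz p n n) := by
      refine sum_le_sum fun x _ => ?_
      have a0 := S.μ_pos x
      have a1 := hn _ (S.node_ad x)
      rcases a1.2.eq_or_lt with e | hlt
      · have a2 := (hb x).1
        rw [e] at a2
        have := mul_nonneg a0.le (H.nonneg _ a1.1)
        linarith
      · have a2 := H.bad _ a1.1 fun hg => S.not_int x ((hi _).2 ⟨hlt, a1.1, hg⟩)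
        have := sz_pos p n n
        nlinarith
    rw [S.mass_nil, sum_add_distrib, ← S.av_nil, sum_const, card_univ, nsmul_eq_mul] at h2
    have h3 : 1 / 2 ≤ (Fintype.card S.X : ℝ) * sz p n n := by linarith [H.root]
    have h4 : sz p n n * (3 ^ n * (1 + (n : ℝ)) ^ ((p - 2) / (p - 1))) = 1 := by
      have : (0 : ℝ) < (1 + (n : ℝ)) ^ ((p - 2) / (p - 1)) := by positivity
      rw [sz, inv_pow]; field_simp
    have h5 : (0 : ℝ) < 3 ^ n * (1 + (n : ℝ)) ^ ((p - 2) / (p - 1)) := by positivity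
    have h6 := mul_le_mul_of_nonneg_right h3 h5.le
    rw [mul_assoc, h4] at h6
    linarith
  · have a0 := S.μ_pos x
    have a1 := prof_pos p (S.ad x)
    rw [← sz_rpow hp n (S.ad x)]
    refine ⟨mul_le_mul_of_nonneg_right (Real.rpow_le_rpow a0.le (hb x).1 e0) a1.le, ?_⟩
    rw [← mul_assoc]
    refine mul_le_mul_of_nonneg_right ?_ a1.le
    refine (Real.rpow_le_rpow (sz_pos _ _ _).le (hb x).2 e0).trans ?_
    rw [Real.mul_rpow (by norm_num) a0.le]
    refine mul_le_mul_of_nonneg_right ?_ (by positivity)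
    simpa using Real.rpow_le_rpow_of_exponent_le (x := 2) (by norm_num) e1

end TreeX

open TreeX in
theorem treeStmt {p D : ℝ} (hp : 2 < p) (hD : 1 ≤ D) (h : LPB p D) (hcs : CsStmt p)
    (hc : CoreStmt p) : TreeStmt p := by
  classical
  obtain ⟨K, c, C, Good, Ψ, H⟩ := hc
  have hp1 : 1 < p := by linarith
  have hD0 : 0 ≤ D := by linarith
  have hc0 := H.c_pos
  obtain ⟨C', hC', hCC⟩ : ∃ C' : ℝ, 0 < C' ∧ C ≤ C' :=
    ⟨|C| + 1, by positivity, by linarith [le_abs_self C]⟩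
  obtain ⟨t, t0, t1, t2, t3⟩ : ∃ t : ℝ, 0 < t ∧ t ≤ 1 ∧ t ≤ c / 2 ∧ t * (2 * C') ≤ 1 :=
    ⟨min (min 1 (c / 2)) (1 / (2 * C')), by positivity,
      (min_le_left _ _).trans (min_le_left _ _), (min_le_left _ _).trans (min_le_right _ _),
      (le_div_iff₀ (by positivity)).1 (min_le_right _ _)⟩
  have h4 : (0 : ℝ) < 4 ^ p := by positivity
  refine ⟨D * (3 + 4 * 4 ^ p), t, C', by nlinarith, t0, t1, hC', fun n => ?_⟩
  obtain ⟨S, hfair, hcard, hμ⟩ := exists_tree hp H n
  obtain ⟨S', hS', hμ'⟩ := exists_sys 0 (fun _ => False) (fun _ h => h.elim) (fun _ _ h => h)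
    (fun _ => 3 ^ n) fun _ => by positivity
  set lam : ℝ := ((3 : ℝ)⁻¹ ^ n) ^ (1 - 1 / p) with hlam
  have lam0 : 0 < lam := by positivity
  have e0 : 0 ≤ 1 - 1 / p := by
    have : 1 / p ≤ 1 := by rw [div_le_one (by linarith)]; linarith
    linarith
  have hpas : ∀ y : Bool × S'.X, muT S S' (Sum.inr y) ^ (1 - 1 / p) ≤ lam := fun y => by
    have a0 := S'.μ_pos y.2
    refine Real.rpow_le_rpow (half_pos a0).le ?_ e0
    have a1 : S'.ad y.2 = [] := S'.ad_eq (by rw [hS']; exact id) List.nil_suffix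
    have a2 := hμ' y.2
    rw [a1, ms_nil] at a2
    have a3 : S'.μ y.2 = (3 : ℝ)⁻¹ ^ n := by rw [a2, inv_pow]; simp
    change S'.μ y.2 / 2 ≤ _
    linarith
  refine ⟨rootWB S S' hp1 hD0 h, Fintype.card S.X, hcard, dat S S' K,
    fun Λ : Finset (Yt S S') => (∀ y, Sum.inr y ∉ Λ) ∧
      ∀ x x', Sum.inl x ∈ Λ → key (S.ad x') < key (S.ad x) → Sum.inl x' ∈ Λ,
    ⟨fun _ => notMem_empty _, fun _ _ hx => absurd hx (notMem_empty _)⟩,
    (en_dat p K).le.trans (H.energy.trans hCC), ?_⟩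
  rintro Λ φ ⟨P1, P2⟩ hlt ⟨st1, st2⟩
  change Finset (Yt S S') at Λ
  change Yt S S' → ℝ at φ
  have hne : (univ.filter fun x : S.X => (Sum.inl x : Yt S S') ∉ Λ).Nonempty := by
    by_contra hcon
    rw [not_nonempty_iff_eq_empty, filter_eq_empty_iff] at hcon
    have a1 : univ.image (Sum.inl : S.X → Yt S S') ⊆ Λ := fun y hy => by
      obtain ⟨x, hx, rfl⟩ := mem_image.1 hy
      exact not_not.1 (hcon hx)
    have a2 := card_le_card a1
    rw [card_image_of_injective _ Sum.inl_injective, card_univ] at a2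
    exact absurd hlt (not_lt.2 a2)
  obtain ⟨y, hy, hmin⟩ := exists_min_image _ (fun x => key (S.ad x)) hne
  have hy' : (Sum.inl y : Yt S S') ∉ Λ := (mem_filter.1 hy).2
  have q1 : ∀ x, key (S.ad x) < key (S.ad y) → (Sum.inl x : Yt S S') ∈ Λ := fun x hx => by
    by_contra hcon
    exact absurd (hmin x (mem_filter.2 ⟨mem_univ _, hcon⟩)) (not_le.2 hx)
  have dur : ∀ v, v <:+ S.ad y → S.During (fun x => (Sum.inl x : Yt S S') ∈ Λ) v := fun v hv =>
    S.during_of_key q1 (fun x hx hl => hy' (P2 x y hl hx)) hv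
  have d0 : ∀ y, φ (Sum.inr y) = dat S S' K (Sum.inr y) := fun y => st1 _ (P1 y)
  have d1 : ∀ x, ¬ (Sum.inl x : Yt S S') ∈ Λ → φ (Sum.inl x) = 1 := fun x hx => st1 _ hx
  have d2 : ∀ x, (Sum.inl x : Yt S S') ∈ Λ → frcD S S' p φ (Sum.inl x) = 0 := fun x hx => st2 _ hx
  have cs : ∀ v, v <:+ S.ad y → CS p K (stOf S S' p φ) v := fun v hv =>
    hcs S S' K _ φ v d0 d1 d2 (dur v hv)
  have lf : ∀ x, S.ad y <:+ S.ad x → (Sum.inl x : Yt S S') ∉ Λ →
      c * prof p (S.ad y) ≤ frcD S S' p φ (Sum.inl x) ∧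
        frcD S S' p φ (Sum.inl x) ≤ C * prof p (S.ad y) := fun x hx hl =>
    leaf_force hp1 H d1 d2 (S.node_ad y) (S.not_int y) (hfair _ (S.node_ad y))
      (cs _ List.suffix_rfl) hx hl
  have up : ∀ x, |frcD S S' p φ (Sum.inl x)| ≤ C' * prof p (S.ad x) := fun x => by
    have a0 := prof_pos p (S.ad x)
    by_cases hl : (Sum.inl x : Yt S S') ∈ Λ
    · rw [d2 x hl, abs_zero]; positivity
    by_cases hx : S.ad y <:+ S.ad x
    · obtain ⟨a1, a2⟩ := lf x hx hl
      rw [← S.ad_eq (S.not_int y) hx] at a1 a2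
      rw [abs_of_nonneg ((mul_pos hc0 a0).le.trans a1)]
      exact a2.trans (mul_le_mul_of_nonneg_right hCC a0.le)
    · obtain ⟨v, i, j, hij, hi, hj⟩ := split_words _ _ hx fun h' =>
        hx (by rw [S.ad_eq (S.not_int x) h'])
      obtain ⟨-, hint, hd⟩ := dur _ hi
      have hlt' : i < j := by
        rcases lt_or_gt_of_ne hij with h' | h'
        · exact h'
        · exact absurd ((hd j x hj).1 h') hl
      rw [frcD_const (v := j :: v) hint (fun x' hx' => d1 x' ((hd j x' hx').2 hlt')) hj]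
      refine (H.future _ i j v (hfair (i :: v) hint) (cs _ hi) hlt').trans ?_
      exact (mul_le_mul_of_nonneg_right hCC (prof_pos p v).le).trans
        (mul_le_mul_of_nonneg_left
          (prof_mono hp ((List.suffix_cons j v).trans hj).length_le) hC'.le)
  refine ⟨Sum.inl y, hy', ⟨fun y' hy'' => ?_, fun x x' hx hk => ?_⟩, ?_, ?_⟩
  · rcases mem_insert.1 hy'' with e | e
    · exact Sum.inr_ne_inl e
    · exact P1 y' e
  · rcases mem_insert.1 hx with e | e
    · rw [Sum.inl_injective e] at hk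
      exact mem_insert_of_mem (q1 x' hk)
    · exact mem_insert_of_mem (P2 x x' e hk)
  · change t * lam ≤ S.μ y ^ (1 - 1 / p) * |frcD S S' p φ (Sum.inl y)|
    have a1 := (lf y List.suffix_rfl hy').1.trans (le_abs_self _)
    have a2 := (hμ y).2
    have a3 : 0 < S.μ y ^ (1 - 1 / p) := Real.rpow_pos_of_pos (S.μ_pos y) _
    have a4 := mul_le_mul_of_nonneg_left a1 a3.le
    have a5 := mul_le_mul_of_nonneg_right t2 lam0.le
    have a6 := mul_le_mul_of_nonneg_left a2 hc0.le
    nlinarith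
  · have fin : ∀ u : ℝ, u ≤ 2 * C' * lam → t * u ≤ lam := fun u hu => by
      have a1 := mul_le_mul_of_nonneg_left hu t0.le
      have a2 := mul_le_mul_of_nonneg_right t3 lam0.le
      nlinarith
    rintro (x | ⟨b, x⟩)
    · refine fin _ ?_
      change S.μ x ^ (1 - 1 / p) * |frcD S S' p φ (Sum.inl x)| ≤ _
      have a3 : 0 < S.μ x ^ (1 - 1 / p) := Real.rpow_pos_of_pos (S.μ_pos x) _
      have a4 := mul_le_mul_of_nonneg_left (up x) a3.le
      have a5 := mul_le_mul_of_nonneg_left (hμ x).1 hC'.le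
      have a6 := mul_pos hC' lam0
      nlinarith
    · refine fin _ ?_
      change muT S S' (Sum.inr (b, x)) ^ (1 - 1 / p) * |frcD S S' p φ (Sum.inr (b, x))| ≤ _
      obtain ⟨a1, a2, a3⟩ := H.pass _ (cs [] List.nil_suffix)
      have a4 : |frcD S S' p φ (Sum.inr (b, x))| ≤ 2 * C' := by
        rw [frcD_inr p d0]
        obtain ⟨b1, b2⟩ := abs_le.1 a1
        obtain ⟨b3, b4⟩ := abs_le.1 a2
        obtain ⟨b5, b6⟩ := abs_le.1 a3
        cases b
        · simp only [Bool.false_eq_true, if_false]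
          exact abs_le.2 ⟨by linarith, by linarith⟩
        · simp only [if_true]
          exact abs_le.2 ⟨by linarith, by linarith⟩
      rw [mul_comm (2 * C')]
      exact mul_le_mul (hpas (b, x)) a4 (abs_nonneg _) lam0.le

end Pool.Agent.MP_30195a_an.Gr
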